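import Mathlib
import Pool.Agent.H815R2.FlatMain

set_option autoImplicit false

/-!
Chains `z ↦ α (u + z)` of points of a spread family of points: the law of the last point of the
chain, and the geometric lemma.
-/

namespace Pool.Agent.J4H21.FL

open MeasureTheory Set
open scoped ENNReal Pointwise NNReal
open Pool.Agent.H815R2.Flat

/-- The space `ℝ^d`. -/
abbrev Eu (d : ℕ) := EuclideanSpace ℝ (Fin d)

variable {d : ℕ}

/-- one step of the chain -/
theorem step {ι : Type*} [Fintype ι] (p : Seminorm ℝ (Eu d)) (hcont : Continuous p)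
    (u : ι → Eu d) (hu : ∀ i, p (u i) ≤ 1) (r q D : ℝ) (hr0 : 0 < r) (hr1 : r ≤ 1)
    (hq : ∀ y : Eu d, (∑ i : ι, if p (u i - y) ≤ r then (1 : ℝ) else 0) ≤ q)
    (hD : q * 2 ^ d ≤ D * Fintype.card ι * r ^ d)
    (F : Eu d → ℝ≥0∞) (hF : Measurable F) :
    ∑ i, ∫⁻ z in {z : Eu d | p z ≤ r}, F ((r / (1 + r)) • (u i + z))
      ≤ ENNReal.ofReal (D * Fintype.card ι) * ∫⁻ z in {z : Eu d | p z ≤ r}, F z := by
  set α : ℝ := r / (1 + r) with hα
  have hα0 : 0 < α := by positivity
  have hmr : MeasurableSet {y : Eu d | p y ≤ r} :=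
    (isClosed_le hcont continuous_const).measurableSet
  have hm1 : MeasurableSet {y : Eu d | p y ≤ 1 + r} :=
    (isClosed_le hcont continuous_const).measurableSet
  have hq0 : 0 ≤ q := by
    refine le_trans ?_ (hq 0)
    exact Finset.sum_nonneg fun i _ => by split_ifs <;> norm_num
  set f : Eu d → ℝ≥0∞ := ({y : Eu d | p y ≤ 1 + r}).indicator (fun y => F (α • y)) with hf
  have hfm : Measurable f := (hF.comp (measurable_const_smul α)).indicator hm1
  have h1 : ∀ i, ∫⁻ z in {z : Eu d | p z ≤ r}, F (α • (u i + z))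
      = ∫⁻ z in {z : Eu d | p z ≤ r}, f (u i + z) := by
    intro i
    refine setLIntegral_congr_fun hmr fun z hz => ?_
    have hz' : p (u i + z) ≤ 1 + r := (map_add_le_add p _ _).trans (add_le_add (hu i) hz)
    show F (α • (u i + z)) = f (u i + z)
    rw [hf, indicator_of_mem (show u i + z ∈ {y : Eu d | p y ≤ 1 + r} from hz')]
  rw [Finset.sum_congr rfl fun i _ => h1 i]
  refine (transfer p hcont u hu r q hr1 hq f hfm).trans ?_
  have h2 : ∫⁻ y in {y : Eu d | p y ≤ 2}, f y ≤ ∫⁻ y, f y := by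
    exact lintegral_mono' Measure.restrict_le_self le_rfl
  have h3 : ∫⁻ y, f y = ENNReal.ofReal ((α ^ d)⁻¹) * ∫⁻ z in {z : Eu d | p z ≤ r}, F z := by
    rw [← lintegral_indicator hmr, ← lint_smul _ (hF.indicator hmr) α hα0]
    refine lintegral_congr fun y => ?_
    have e : p (α • y) = α * p y := by
      rw [map_smul_eq_mul, Real.norm_of_nonneg hα0.le]
    by_cases hy : p y ≤ 1 + r
    · rw [hf, indicator_of_mem (show y ∈ {y : Eu d | p y ≤ 1 + r} from hy), indicator_of_mem]
      show p (α • y) ≤ r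
      rw [e]
      calc α * p y ≤ α * (1 + r) := by gcongr
        _ = r := by rw [hα]; field_simp
    · rw [hf, indicator_of_notMem (show y ∉ {y : Eu d | p y ≤ 1 + r} from hy), indicator_of_notMem]
      show ¬ p (α • y) ≤ r
      rw [e, not_le]
      rw [not_le] at hy
      calc r = α * (1 + r) := by rw [hα]; field_simp
        _ < α * p y := by gcongr
  calc ENNReal.ofReal q * ∫⁻ y in {y : Eu d | p y ≤ 2}, f y
      ≤ ENNReal.ofReal q * (ENNReal.ofReal ((α ^ d)⁻¹) * ∫⁻ z in {z : Eu d | p z ≤ r}, F z) := by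
        rw [← h3]
        gcongr
    _ = ENNReal.ofReal (q * (α ^ d)⁻¹) * ∫⁻ z in {z : Eu d | p z ≤ r}, F z := by
        rw [← mul_assoc, ← ENNReal.ofReal_mul hq0]
    _ ≤ _ := by
        refine mul_le_mul' (ENNReal.ofReal_le_ofReal ?_) le_rfl
        have e1 : (α ^ d)⁻¹ = (1 + r) ^ d / r ^ d := by
          rw [hα, div_pow, inv_div]
        rw [e1, mul_div_assoc', div_le_iff₀ (by positivity)]
        calc q * (1 + r) ^ d ≤ q * 2 ^ d := by
              gcongr
              linarith
          _ ≤ _ := hD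

/-- the chain -/
noncomputable def chain {ι : Type*} (α : ℝ) (u : ι → Eu d) :
    (j : ℕ) → (Fin j → ι) → Eu d → Eu d
  | 0, _, z => z
  | j + 1, i, z => α • (u (i 0) + chain α u j (fun l => i l.succ) z)

theorem chain_cons {ι : Type*} (α : ℝ) (u : ι → Eu d) (j : ℕ) (a : ι) (i : Fin j → ι) (z : Eu d) :
    chain α u (j + 1) (Fin.cons a i) z = α • (u a + chain α u j i z) := by
  show α • (u ((Fin.cons a i : Fin (j + 1) → ι) 0)
    + chain α u j (fun l => (Fin.cons a i : Fin (j + 1) → ι) l.succ) z) = _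
  simp only [Fin.cons_zero, Fin.cons_succ]

theorem chain_cont {ι : Type*} (α : ℝ) (u : ι → Eu d) (j : ℕ) (i : Fin j → ι) :
    Continuous (chain α u j i) := by
  induction j with
  | zero => exact continuous_id
  | succ j ih =>
    exact (continuous_const.add (ih _)).const_smul α

theorem sum_cons {J M : Type*} [Fintype J] [AddCommMonoid M] (k : ℕ) (f : (Fin (k + 1) → J) → M) :
    ∑ a, f a = ∑ j : J, ∑ a : Fin k → J, f (Fin.cons j a) := by
  rw [← Fintype.sum_prod_type']
  exact (Fintype.sum_equiv (Fin.consEquiv (fun _ => J)) _ _ (fun x => rfl)).symm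

theorem chain_law {ι : Type*} [Fintype ι] (p : Seminorm ℝ (Eu d)) (hcont : Continuous p)
    (u : ι → Eu d) (hu : ∀ i, p (u i) ≤ 1) (r q D : ℝ) (hr0 : 0 < r) (hr1 : r ≤ 1)
    (hq : ∀ y : Eu d, (∑ i : ι, if p (u i - y) ≤ r then (1 : ℝ) else 0) ≤ q)
    (hD : q * 2 ^ d ≤ D * Fintype.card ι * r ^ d) (j : ℕ)
    (F : Eu d → ℝ≥0∞) (hF : Measurable F) :
    ∑ i : Fin j → ι, ∫⁻ z in {z : Eu d | p z ≤ r}, F (chain (r / (1 + r)) u j i z)
      ≤ ENNReal.ofReal (D * Fintype.card ι) ^ j * ∫⁻ z in {z : Eu d | p z ≤ r}, F z := by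
  induction j generalizing F with
  | zero =>
    simp [chain]
  | succ j ih =>
    set α : ℝ := r / (1 + r) with hα
    rw [sum_cons]
    simp only [chain_cons]
    rw [Finset.sum_comm]
    have hFm : ∀ a : ι, Measurable fun w : Eu d => F (α • (u a + w)) := fun a =>
      hF.comp ((measurable_const_add (u a)).const_smul α)
    have h1 : ∀ i : Fin j → ι, ∑ a : ι, ∫⁻ z in {z : Eu d | p z ≤ r},
        F (α • (u a + chain α u j i z))
        = ∫⁻ z in {z : Eu d | p z ≤ r}, (fun w => ∑ a : ι, F (α • (u a + w)))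
          (chain α u j i z) := by
      intro i
      rw [lintegral_finsetSum]
      intro a _
      exact (hFm a).comp (chain_cont α u j i).measurable
    rw [Finset.sum_congr rfl fun i _ => h1 i]
    refine (ih (fun w => ∑ a : ι, F (α • (u a + w)))
      (Finset.measurable_sum _ fun a _ => hFm a)).trans ?_
    rw [pow_succ, mul_assoc]
    refine mul_le_mul' le_rfl ?_
    rw [lintegral_finsetSum _ fun a _ => hFm a]
    exact step p hcont u hu r q D hr0 hr1 hq hD F hF

/-- a linear functional is small on a chain if it is small on its steps -/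
theorem chain_le {ι : Type*} (u : ι → Eu d) (r : ℝ) (hr0 : 0 < r) (φ : Eu d →ₗ[ℝ] ℝ) (a : ℝ)
    (z : Eu d) (j : ℕ) (i : Fin j → ι) (h : ∀ l, φ (u (i l)) ≤ a) :
    φ (chain (r / (1 + r)) u j i z) ≤ a * (r * (1 - (r / (1 + r)) ^ j))
      + (r / (1 + r)) ^ j * φ z := by
  induction j with
  | zero => simp [chain]
  | succ j ih =>
    have h1 := ih (fun l => i l.succ) (fun l => h l.succ)
    show φ ((r / (1 + r)) • (u (i 0) + chain (r / (1 + r)) u j (fun l => i l.succ) z)) ≤ _
    rw [map_smul, map_add, smul_eq_mul]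
    have hα0 : 0 < r / (1 + r) := by positivity
    calc r / (1 + r) * (φ (u (i 0)) + φ (chain (r / (1 + r)) u j (fun l => i l.succ) z))
        ≤ r / (1 + r) * (a + (a * (r * (1 - (r / (1 + r)) ^ j))
          + (r / (1 + r)) ^ j * φ z)) := by
          gcongr
          exact h 0
      _ = _ := by
          rw [pow_succ]
          field_simp
          ring

/-- norming functional -/
theorem exists_norming (p : Seminorm ℝ (Eu d)) (x : Eu d) :
    ∃ φ : Eu d →ₗ[ℝ] ℝ, φ x = p x ∧ ∀ y, φ y ≤ p y := by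
  have H : ∀ c : ℝ, c • x = 0 → (RingHom.id ℝ) c • p x = 0 := by
    intro c hc
    rcases smul_eq_zero.1 hc with h0 | h0
    · simp [h0]
    · simp [h0]
  obtain ⟨g, hg1, hg2⟩ := exists_extension_of_le_sublinear
    (LinearPMap.mkSpanSingleton' x (p x) H) p
    (fun c hc x => by rw [map_smul_eq_mul, Real.norm_of_nonneg hc.le])
    (fun x y => map_add_le_add p x y) (by
      rintro ⟨y, hy⟩
      have hy' := hy
      rw [LinearPMap.domain_mkSpanSingleton] at hy'
      obtain ⟨c, rfl⟩ := Submodule.mem_span_singleton.1 hy'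
      rw [LinearPMap.mkSpanSingleton'_apply]
      simp only [RingHom.id_apply, smul_eq_mul]
      rw [map_smul_eq_mul]
      exact mul_le_mul_of_nonneg_right (le_abs_self c) (apply_nonneg p x))
  refine ⟨g, ?_, hg2⟩
  have hx : x ∈ (LinearPMap.mkSpanSingleton' x (p x) H).domain := by
    rw [LinearPMap.domain_mkSpanSingleton]
    exact Submodule.mem_span_singleton_self x
  have := hg1 ⟨x, hx⟩
  rw [LinearPMap.mkSpanSingleton'_apply_self] at this
  exact this

/-- The geometric lemma: some step of the chain moves `z` out of the ball. -/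
theorem geometric {ι : Type*} (p : Seminorm ℝ (Eu d)) (u : ι → Eu d) (hu : ∀ i, p (u i) ≤ 1)
    (r s τ G t e : ℝ) (hr0 : 0 < r) (hr1 : r ≤ 1) (hs0 : 0 < s) (hs1 : s < 1) (hτ : 0 < τ) (ht : 0 < t)
    (P : Eu d →ₗ[ℝ] Eu d) (j : ℕ) (i : Fin j → ι) (z : Eu d) (hz : p z ≤ r)
    (hG : p (P z) ≤ G) (hGj : (r / (1 + r)) ^ j * G ≤ s * r / (2 * τ))
    (ht2 : (1 + e - r) * τ / (s * r) ≤ t / 2 - τ / ((1 - s) * (r / (1 + r)) ^ j))
    (he : 0 ≤ 1 + e - r)
    (hT : r < p ((1 - s) • chain (r / (1 + r)) u j i z + τ • P (chain (r / (1 + r)) u j i z))) :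
    ∃ l, 1 + e ≤ p (z + t • P (u (i l))) := by
  set α : ℝ := r / (1 + r) with hα
  have hα0 : 0 < α := by positivity
  have hα1 : α < 1 := by rw [hα, div_lt_one (by positivity)]; linarith
  have hαj0 : 0 < α ^ j := by positivity
  set w := chain α u j i z with hw
  obtain ⟨φ, hφ1, hφ2⟩ := exists_norming p ((1 - s) • w + τ • P w)
  rw [map_add, map_smul, map_smul, smul_eq_mul, smul_eq_mul] at hφ1
  set h := φ (P w) with hh
  have hs1' : 0 < 1 - s := by linarith
  have h1 : φ w ≤ 1 * (r * (1 - α ^ j)) + α ^ j * φ z :=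
    chain_le u r hr0 φ 1 z j i fun l => (hφ2 _).trans (hu _)
  have hφz : φ z ≤ r := (hφ2 z).trans hz
  -- the main inequality
  have hstar : (1 - s) * α ^ j * (r - φ z) + s * r < τ * h := by
    have h2 : r < (1 - s) * φ w + τ * h := by rw [hφ1]; exact hT
    have h3 : (1 - s) * φ w ≤ (1 - s) * (1 * (r * (1 - α ^ j)) + α ^ j * φ z) := by gcongr
    nlinarith
  have hh0 : s * r / τ < h := by
    rw [div_lt_iff₀ hτ]
    have : 0 ≤ (1 - s) * α ^ j * (r - φ z) := by
      have : 0 ≤ r - φ z := by linarith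
      positivity
    linarith
  have hhpos : 0 < h := lt_trans (by positivity) hh0
  -- some step is large
  have hex : ∃ l, h / 2 < φ (P (u (i l))) := by
    by_contra hcon
    push Not at hcon
    have h4 := chain_le u r hr0 (φ ∘ₗ P) (h / 2) z j i (fun l => hcon l)
    rw [← hα, ← hw] at h4
    simp only [LinearMap.comp_apply] at h4
    rw [← hh] at h4
    have h5 : α ^ j * φ (P z) ≤ α ^ j * G := by
      have := (hφ2 (P z)).trans hG
      gcongr
    have h6 : α ^ j * G < h / 2 := by
      refine lt_of_le_of_lt hGj ?_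
      have : s * r / (2 * τ) = (s * r / τ) / 2 := by field_simp
      rw [this]
      linarith
    have h7 : h / 2 * (r * (1 - α ^ j)) ≤ h / 2 * 1 := by
      gcongr
      nlinarith
    linarith
  obtain ⟨l, hl⟩ := hex
  refine ⟨l, ?_⟩
  have h8 : φ (z + t • P (u (i l))) ≤ p (z + t • P (u (i l))) := hφ2 _
  rw [map_add, map_smul, smul_eq_mul] at h8
  refine le_trans ?_ h8
  have h9 : r - φ z ≤ τ * h / ((1 - s) * α ^ j) := by
    rw [le_div_iff₀ (by positivity)]
    have : 0 < s * r := by positivity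
    nlinarith
  have h10 : t * (h / 2) ≤ t * φ (P (u (i l))) := by gcongr
  have h11 : 1 + e - r ≤ h * (t / 2 - τ / ((1 - s) * α ^ j)) := by
    calc 1 + e - r = (s * r / τ) * ((1 + e - r) * τ / (s * r)) := by field_simp
      _ ≤ h * ((1 + e - r) * τ / (s * r)) := by
          have : 0 ≤ (1 + e - r) * τ / (s * r) := by positivity
          gcongr
      _ ≤ _ := by gcongr
  have h12 : h * (t / 2 - τ / ((1 - s) * α ^ j)) = t * (h / 2) - τ * h / ((1 - s) * α ^ j) := by
    ring
  linarith

end Pool.Agent.J4H21.FL
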