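import Mathlib
import Pool.Agent.J4H21.FL.Chain

set_option autoImplicit false

/-!
The counting argument for the local flatness criterion.
-/

namespace Pool.Agent.J4H21.FL

open MeasureTheory Set
open scoped ENNReal Pointwise NNReal
open Pool.Agent.H815R2.Flat

variable {d : ℕ}

theorem sum_proj {ι : Type*} [Fintype ι] (f : ι → ℝ≥0∞) (j : ℕ) (l : Fin j) :
    (Fintype.card ι : ℝ≥0∞) * ∑ i : Fin j → ι, f (i l) = (Fintype.card ι : ℝ≥0∞) ^ j * ∑ a, f a := by
  induction j with
  | zero => exact l.elim0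
  | succ j ih =>
    rw [sum_cons]
    refine Fin.cases ?_ (fun l' => ?_) l
    · simp only [Fin.cons_zero, Finset.sum_const, Finset.card_univ, Fintype.card_fun,
        Fintype.card_fin, nsmul_eq_mul, Nat.cast_pow]
      rw [← Finset.mul_sum, pow_succ]
      ring
    · simp only [Fin.cons_succ, Finset.sum_const, Finset.card_univ, nsmul_eq_mul]
      rw [ih l', pow_succ]
      ring

/-- averaged bound for a linear functional over a spread family -/
theorem avg_gen {ι : Type*} [Fintype ι] [Nonempty ι] (p : Seminorm ℝ (Eu d))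
    (hcont : Continuous p)
    (h0 : volume {y : Eu d | p y ≤ 1} ≠ 0)
    (hfin : volume {y : Eu d | p y ≤ 1} ≠ ⊤)
    (u : ι → Eu d) (hu : ∀ i, p (u i) ≤ 1) (r q D : ℝ) (hr0 : 0 < r)
    (hr1 : r ≤ 1)
    (hq : ∀ y : Eu d, (∑ i : ι, if p (u i - y) ≤ r then (1 : ℝ) else 0) ≤ q)
    (hD : q * 2 ^ d ≤ D * Fintype.card ι * r ^ d) (hlD : 0 < Real.log (3 * D))
    (φ : Eu d →L[ℝ] ℝ) :
    (∑ i, ENNReal.ofReal |φ (u i)|) * volume {y : Eu d | p y ≤ 1}
      ≤ ENNReal.ofReal (Fintype.card ι * (8 / Real.log 2 * Real.log (3 * D))) *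
        ∫⁻ z in {y : Eu d | p y ≤ 1}, ENNReal.ofReal |φ z| := by
  set V := volume {y : Eu d | p y ≤ 1} with hV
  set J := ∫⁻ z in {y : Eu d | p y ≤ 1}, ENNReal.ofReal |φ z| with hJ
  have hlog2 := Real.log_pos (by norm_num : (1 : ℝ) < 2)
  have hm : (0 : ℝ) < Fintype.card ι := by exact_mod_cast Fintype.card_pos
  have hVr : 0 < V.toReal := ENNReal.toReal_pos h0 hfin
  set C : ℝ := Fintype.card ι * (8 / Real.log 2 * Real.log (3 * D)) with hC
  have hC0 : 0 < C := by positivity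
  by_cases hJt : J = ⊤
  · rw [hJt, ENNReal.mul_top (ENNReal.ofReal_pos.mpr hC0).ne']
    exact le_top
  set s₀ : ℝ := J.toReal / V.toReal with hs₀
  have hs₀0 : 0 ≤ s₀ := by positivity
  have key : ∑ i, |φ (u i)| ≤ C * s₀ := by
    by_contra hcon
    push Not at hcon
    set T := ∑ i, |φ (u i)| with hT
    set s : ℝ := (T / C + s₀) / 2 with hs
    have h1 : s₀ < T / C := by
      rw [lt_div_iff₀ hC0]; linarith
    have h2 : s₀ < s := by rw [hs]; linarith
    have h3 : s < T / C := by rw [hs]; linarith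
    have h4 := avg_func p hcont h0 hfin u hu r q D hr0 hr1 hq hD φ s
      (by linarith) (by
        show J ≤ ENNReal.ofReal s * V
        rw [← ENNReal.toReal_le_toReal hJt (ENNReal.mul_ne_top ENNReal.ofReal_ne_top hfin),
          ENNReal.toReal_mul, ENNReal.toReal_ofReal (by linarith)]
        have : J.toReal = s₀ * V.toReal := by
          rw [hs₀]; field_simp
        rw [this]
        gcongr)
    have h5 : (Fintype.card ι : ℝ) * (8 * s / Real.log 2 * Real.log (3 * D)) = C * s := by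
      rw [hC]; ring
    rw [h5] at h4
    rw [lt_div_iff₀ hC0] at h3
    linarith
  rw [← ENNReal.ofReal_sum_of_nonneg (fun i _ => abs_nonneg _),
    ← ENNReal.toReal_le_toReal (ENNReal.mul_ne_top ENNReal.ofReal_ne_top hfin)
      (ENNReal.mul_ne_top ENNReal.ofReal_ne_top hJt), ENNReal.toReal_mul, ENNReal.toReal_mul,
    ENNReal.toReal_ofReal (Finset.sum_nonneg fun i _ => abs_nonneg _), ENNReal.toReal_ofReal hC0.le]
  have : J.toReal = s₀ * V.toReal := by
    rw [hs₀]; field_simp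
  rw [this, ← mul_assoc]
  gcongr

/-- escape without a bound for the translation vector -/
theorem escape' (p : Seminorm ℝ (Eu d)) (hcont : Continuous p) (x : Eu d)
    (t τ ε : ℝ) (ht : 0 < t) (hτ : 0 < τ) (hε : 0 < ε) :
    volume {z : Eu d | p z ≤ 1 ∧ 1 + τ ≤ p (z + t • x)}
      ≤ ENNReal.ofReal (t / τ * (1 + τ + ε) ^ d) *
        ∫⁻ z in {z : Eu d | p z ≤ 1}, ENNReal.ofReal |fderiv ℝ p z x| := by
  set R : ℝ := max 1 (p x) with hR
  have hR0 : 0 < R := lt_of_lt_of_le one_pos (le_max_left _ _)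
  have hx : p (R⁻¹ • x) ≤ 1 := by
    rw [map_smul_eq_mul, Real.norm_of_nonneg (by positivity), inv_mul_le_iff₀ hR0, mul_one]
    exact le_max_right _ _
  set M : ℕ := ⌈t * R / ε⌉₊ with hM
  have hMpos : 0 < M := Nat.ceil_pos.mpr (by positivity)
  have hM0 : (0 : ℝ) < M := by exact_mod_cast hMpos
  have hMge : t * R / ε ≤ M := Nat.le_ceil _
  set ε' : ℝ := t * R / M with hε'
  have hε'0 : 0 < ε' := by positivity
  have hε'le : ε' ≤ ε := by
    rw [hε', div_le_iff₀ hM0]
    rw [div_le_iff₀ hε] at hMge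
    linarith
  have h := escape p hcont (R⁻¹ • x) hx (t * R) τ ε' hτ hε'0 M (by rw [hε']; field_simp)
  have e1 : ∀ z : Eu d, z + (t * R) • R⁻¹ • x = z + t • x := by
    intro z
    rw [smul_smul, mul_assoc, mul_inv_cancel₀ hR0.ne', mul_one]
  simp only [e1] at h
  refine h.trans ?_
  have e2 : ∀ z : Eu d, ENNReal.ofReal |fderiv ℝ p z (R⁻¹ • x)|
      = ENNReal.ofReal R⁻¹ * ENNReal.ofReal |fderiv ℝ p z x| := by
    intro z
    rw [map_smul, smul_eq_mul, abs_mul, abs_of_pos (by positivity : 0 < R⁻¹),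
      ENNReal.ofReal_mul (by positivity)]
  simp only [e2]
  rw [lintegral_const_mul' _ _ ENNReal.ofReal_ne_top, ← mul_assoc,
    ← ENNReal.ofReal_mul (by positivity)]
  refine mul_le_mul' (ENNReal.ofReal_le_ofReal ?_) le_rfl
  calc t * R / τ * (1 + τ + ε') ^ d * R⁻¹ = t / τ * (1 + τ + ε') ^ d := by field_simp
    _ ≤ _ := by gcongr

/-- total escape bound -/
theorem esc_total' {ι : Type*} [Fintype ι] [Nonempty ι] (p : Seminorm ℝ (Eu d))
    (hcont : Continuous p)
    (h0 : volume {y : Eu d | p y ≤ 1} ≠ 0)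
    (hfin : volume {y : Eu d | p y ≤ 1} ≠ ⊤)
    (u : ι → Eu d) (hu : ∀ i, p (u i) ≤ 1) (r q D : ℝ) (hr0 : 0 < r)
    (hr1 : r ≤ 1)
    (hq : ∀ y : Eu d, (∑ i : ι, if p (u i - y) ≤ r then (1 : ℝ) else 0) ≤ q)
    (hD : q * 2 ^ d ≤ D * Fintype.card ι * r ^ d) (hlD : 0 < Real.log (3 * D))
    (P : Eu d →ₗ[ℝ] Eu d) (ω : ℝ)
    (hF : ∫⁻ z in {y : Eu d | p y ≤ 1}, ∫⁻ z' in {y : Eu d | p y ≤ 1},
      ENNReal.ofReal |fderiv ℝ p z (P z')|
      ≤ ENNReal.ofReal ω * (volume {y : Eu d | p y ≤ 1} * volume {y : Eu d | p y ≤ 1}))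
    (t τ ε : ℝ) (ht : 0 < t) (hτ : 0 < τ) (hε : 0 < ε) :
    ∑ i, volume {z : Eu d | p z ≤ 1 ∧ 1 + τ ≤ p (z + t • P (u i))}
      ≤ ENNReal.ofReal (t / τ * (1 + τ + ε) ^ d
          * (Fintype.card ι * (8 / Real.log 2 * Real.log (3 * D))) * ω)
        * volume {y : Eu d | p y ≤ 1} := by
  set V := volume {y : Eu d | p y ≤ 1} with hV
  have hlog2 := Real.log_pos (by norm_num : (1 : ℝ) < 2)
  rw [← ENNReal.mul_le_mul_iff_left h0 hfin]
  set PL : Eu d →L[ℝ] Eu d := LinearMap.toContinuousLinearMap P with hPL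
  have hPLe : ∀ x, PL x = P x := fun x => rfl
  calc (∑ i, volume {z : Eu d | p z ≤ 1 ∧ 1 + τ ≤ p (z + t • P (u i))}) * V
      ≤ (∑ i, ENNReal.ofReal (t / τ * (1 + τ + ε) ^ d) *
        ∫⁻ z in {z : Eu d | p z ≤ 1},
          ENNReal.ofReal |fderiv ℝ p z (P (u i))|) * V := by
        gcongr with i _
        exact escape' p hcont (P (u i)) t τ ε ht hτ hε
    _ = ENNReal.ofReal (t / τ * (1 + τ + ε) ^ d) *
        ∫⁻ z in {z : Eu d | p z ≤ 1},
          (∑ i, ENNReal.ofReal |fderiv ℝ p z (P (u i))|) * V := by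
        rw [← Finset.mul_sum, mul_assoc, lintegral_mul_const' _ _ hfin, lintegral_finsetSum]
        intro i _
        exact (measurable_fderiv_apply_const ℝ p (P (u i))).abs.ennreal_ofReal
    _ ≤ ENNReal.ofReal (t / τ * (1 + τ + ε) ^ d) *
        ∫⁻ z in {z : Eu d | p z ≤ 1},
          ENNReal.ofReal (Fintype.card ι * (8 / Real.log 2 * Real.log (3 * D))) *
          ∫⁻ z' in {y : Eu d | p y ≤ 1}, ENNReal.ofReal |fderiv ℝ p z (P z')| := by
        refine mul_le_mul' le_rfl (lintegral_mono fun z => ?_)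
        exact avg_gen p hcont h0 hfin u hu r q D hr0 hr1 hq hD hlD ((fderiv ℝ p z).comp PL)
    _ = ENNReal.ofReal (t / τ * (1 + τ + ε) ^ d) *
        (ENNReal.ofReal (Fintype.card ι * (8 / Real.log 2 * Real.log (3 * D))) *
        ∫⁻ z in {z : Eu d | p z ≤ 1},
          ∫⁻ z' in {y : Eu d | p y ≤ 1}, ENNReal.ofReal |fderiv ℝ p z (P z')|) := by
        rw [lintegral_const_mul' _ _ ENNReal.ofReal_ne_top]
    _ ≤ ENNReal.ofReal (t / τ * (1 + τ + ε) ^ d) *
        (ENNReal.ofReal (Fintype.card ι * (8 / Real.log 2 * Real.log (3 * D))) *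
        (ENNReal.ofReal ω * (V * V))) := by gcongr
    _ = _ := by
        have hh : ENNReal.ofReal (t / τ * (1 + τ + ε) ^ d
            * (Fintype.card ι * (8 / Real.log 2 * Real.log (3 * D))) * ω)
            = ENNReal.ofReal (t / τ * (1 + τ + ε) ^ d)
            * ENNReal.ofReal (Fintype.card ι * (8 / Real.log 2 * Real.log (3 * D)))
            * ENNReal.ofReal ω := by
          rw [ENNReal.ofReal_mul (by positivity), ENNReal.ofReal_mul (by positivity)]
        rw [hh]
        ring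

/-- The counting inequality. -/
theorem count {ι : Type*} [Fintype ι] [Nonempty ι] (p : Seminorm ℝ (Eu d))
    (hcont : Continuous p)
    (h0 : volume {y : Eu d | p y ≤ 1} ≠ 0)
    (hfin : volume {y : Eu d | p y ≤ 1} ≠ ⊤)
    (u : ι → Eu d) (hu : ∀ i, p (u i) ≤ 1) (r q D : ℝ) (hr0 : 0 < r)
    (hr1 : r ≤ 1) (hD0 : 0 < D)
    (hq : ∀ y : Eu d, (∑ i : ι, if p (u i - y) ≤ r then (1 : ℝ) else 0) ≤ q)
    (hD : q * 2 ^ d ≤ D * Fintype.card ι * r ^ d)
    (P : Eu d →ₗ[ℝ] Eu d) (s τ G t e Δ κ : ℝ) (hs0 : 0 < s) (hs1 : s < 1) (hτ : 0 < τ)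
    (ht : 0 < t) (he : 0 < e)
    (hG : volume {z : Eu d | p z ≤ 1 ∧ G < p (P z)}
      ≤ ENNReal.ofReal (1 / 4) * volume {y : Eu d | p y ≤ 1})
    (hG0 : 0 ≤ G)
    (hΔ0 : 0 < Δ)
    (hdet : Δ ≤ |LinearMap.det ((1 - s) • (LinearMap.id : Eu d →ₗ[ℝ] Eu d) + τ • P)|)
    (j : ℕ) (hGj : (r / (1 + r)) ^ j * G ≤ s * r / (2 * τ))
    (ht2 : (1 + e - r) * τ / (s * r) ≤ t / 2 - τ / ((1 - s) * (r / (1 + r)) ^ j))
    (hκ0 : 0 ≤ κ)
    (hesc : ∑ i, volume {z : Eu d | p z ≤ 1 ∧ 1 + e ≤ p (z + t • P (u i))}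
      ≤ ENNReal.ofReal (Fintype.card ι * κ) * volume {y : Eu d | p y ≤ 1}) :
    r ^ d * (3 / 4 - D ^ j / Δ) ≤ j * κ := by
  classical
  set V := volume {y : Eu d | p y ≤ 1} with hV
  set α : ℝ := r / (1 + r) with hα
  set T : Eu d →ₗ[ℝ] Eu d := (1 - s) • (LinearMap.id : Eu d →ₗ[ℝ] Eu d) + τ • P with hT
  have hTa : ∀ x, T x = (1 - s) • x + τ • P x := fun x => rfl
  have hTc : Continuous T := T.continuous_of_finiteDimensional
  have hPc : Continuous P := P.continuous_of_finiteDimensional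
  have hm : (0 : ℝ) < Fintype.card ι := by exact_mod_cast Fintype.card_pos
  set m : ℝ≥0∞ := (Fintype.card ι : ℝ≥0∞) with hmdef
  have hm0 : m ≠ 0 := by
    rw [hmdef]
    exact_mod_cast Fintype.card_ne_zero
  have hmt : m ≠ ⊤ := ENNReal.natCast_ne_top _
  have hmR : m = ENNReal.ofReal (Fintype.card ι : ℝ) := (ENNReal.ofReal_natCast _).symm
  have hmr : MeasurableSet {y : Eu d | p y ≤ r} :=
    (isClosed_le hcont continuous_const).measurableSet
  have hVr : volume {y : Eu d | p y ≤ r} = ENNReal.ofReal (r ^ d) * V := vol_ball' p r hr0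
  -- the bad set of the linear map
  set B : Set (Eu d) := {w | p (T w) ≤ r} with hB
  have hBm : MeasurableSet B := (isClosed_le (hcont.comp hTc) continuous_const).measurableSet
  have hdet0 : LinearMap.det T ≠ 0 := by
    intro h
    rw [h, abs_zero] at hdet
    linarith
  have hBvol : ∫⁻ z in {z : Eu d | p z ≤ r}, B.indicator 1 z
      ≤ ENNReal.ofReal (Δ⁻¹) * (ENNReal.ofReal (r ^ d) * V) := by
    calc ∫⁻ z in {z : Eu d | p z ≤ r}, B.indicator 1 z ≤ ∫⁻ z, B.indicator 1 z :=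
          lintegral_mono' Measure.restrict_le_self le_rfl
      _ = volume B := lintegral_indicator_one hBm
      _ = volume (T ⁻¹' {y | p y ≤ r}) := rfl
      _ = ENNReal.ofReal |(LinearMap.det T)⁻¹| * volume {y : Eu d | p y ≤ r} :=
          Measure.addHaar_preimage_linearMap volume hdet0 _
      _ ≤ _ := by
          rw [hVr]
          refine mul_le_mul' (ENNReal.ofReal_le_ofReal ?_) le_rfl
          rw [abs_inv]
          exact inv_anti₀ hΔ0 hdet
  have hlaw := chain_law p hcont u hu r q D hr0 hr1 hq hD j (B.indicator 1)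
    (measurable_one.indicator hBm)
  -- the set where `p (P z)` is large
  set A : Set (Eu d) := {z | G < p (P z)} with hA
  have hAm : MeasurableSet A := (isOpen_lt continuous_const (hcont.comp hPc)).measurableSet
  have hAvol : volume ({z : Eu d | p z ≤ r} ∩ A)
      ≤ ENNReal.ofReal (1 / 4) * (ENNReal.ofReal (r ^ d) * V) := by
    have h1 : {z : Eu d | p z ≤ r} ∩ A ⊆ r • {z : Eu d | p z ≤ 1 ∧ G < p (P z)} := by
      rintro z ⟨hz1, hz2⟩
      refine ⟨r⁻¹ • z, ⟨?_, ?_⟩, ?_⟩
      · rw [map_smul_eq_mul, Real.norm_of_nonneg (by positivity), inv_mul_le_iff₀ hr0, mul_one]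
        exact hz1
      · show G < p (P (r⁻¹ • z))
        rw [map_smul, map_smul_eq_mul, Real.norm_of_nonneg (by positivity)]
        have h2 : G < p (P z) := hz2
        have h3 : 1 ≤ r⁻¹ := (one_le_inv₀ hr0).2 hr1
        nlinarith
      · show r • r⁻¹ • z = z
        rw [smul_smul, mul_inv_cancel₀ hr0.ne', one_smul]
    refine (measure_mono h1).trans ?_
    rw [Measure.addHaar_smul, finrank_euclideanSpace_fin, abs_of_nonneg (by positivity)]
    calc ENNReal.ofReal (r ^ d) * volume {z : Eu d | p z ≤ 1 ∧ G < p (P z)}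
        ≤ ENNReal.ofReal (r ^ d) * (ENNReal.ofReal (1 / 4) * V) := by gcongr
      _ = _ := by ring
  -- pointwise
  set S : ι → Set (Eu d) := fun a => {z : Eu d | p z ≤ 1 ∧ 1 + e ≤ p (z + t • P (u a))} with hS
  have hSm : ∀ a, MeasurableSet (S a) := fun a =>
    ((isClosed_le hcont continuous_const).inter
      (isClosed_le continuous_const (hcont.comp (continuous_id.add continuous_const)))).measurableSet
  have hcov : ∀ i : Fin j → ι, ENNReal.ofReal (r ^ d) * V
      ≤ (∫⁻ z in {z : Eu d | p z ≤ r}, B.indicator 1 (chain α u j i z))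
        + (ENNReal.ofReal (1 / 4) * (ENNReal.ofReal (r ^ d) * V) + ∑ l, volume (S (i l))) := by
    intro i
    have h1 : {z : Eu d | p z ≤ r} ⊆ ({z : Eu d | p z ≤ r} ∩ (chain α u j i) ⁻¹' B)
        ∪ (({z : Eu d | p z ≤ r} ∩ A) ∪ ⋃ l, S (i l)) := by
      intro z hz
      by_cases hzB : chain α u j i z ∈ B
      · exact Or.inl ⟨hz, hzB⟩
      · right
        by_cases hzA : z ∈ A
        · exact Or.inl ⟨hz, hzA⟩
        · right
          have hzA' : p (P z) ≤ G := by
            have : ¬ G < p (P z) := hzA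
            linarith
          have hzB' : r < p (T (chain α u j i z)) := by
            have : ¬ p (T (chain α u j i z)) ≤ r := hzB
            linarith
          obtain ⟨l, hl⟩ := geometric p u hu r s τ G t e hr0 hr1 hs0 hs1 hτ ht P j i z hz hzA' hGj
            ht2 (by linarith) (by rw [← hTa]; exact hzB')
          rw [mem_iUnion]
          have hz' : p z ≤ r := hz
          exact ⟨l, by show p z ≤ 1; linarith, hl⟩
    rw [← hVr]
    refine (measure_mono h1).trans ((measure_union_le _ _).trans ?_)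
    refine add_le_add (le_of_eq ?_) ((measure_union_le _ _).trans (add_le_add ?_ ?_))
    · have hpm : MeasurableSet ((chain α u j i) ⁻¹' B) :=
        (chain_cont α u j i).measurable hBm
      have e1 : (fun z => B.indicator (1 : Eu d → ℝ≥0∞) (chain α u j i z))
          = ((chain α u j i) ⁻¹' B).indicator 1 := by
        ext z
        by_cases h : chain α u j i z ∈ B
        · rw [indicator_of_mem h, indicator_of_mem (show z ∈ (chain α u j i) ⁻¹' B from h)]
          rfl
        · rw [indicator_of_notMem h, indicator_of_notMem (show z ∉ (chain α u j i) ⁻¹' B from h)]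
      rw [e1, lintegral_indicator_one hpm, Measure.restrict_apply hpm, inter_comm]
    · exact hAvol.trans (le_of_eq (by rw [hVr]))
    · exact (measure_iUnion_le _).trans (le_of_eq (tsum_fintype _))
  -- sum over all chains
  have hsum : m ^ j * (ENNReal.ofReal (r ^ d) * V)
      ≤ ENNReal.ofReal (D * Fintype.card ι) ^ j *
          (ENNReal.ofReal (Δ⁻¹) * (ENNReal.ofReal (r ^ d) * V))
        + (m ^ j * (ENNReal.ofReal (1 / 4) * (ENNReal.ofReal (r ^ d) * V))
          + ∑ i : Fin j → ι, ∑ l, volume (S (i l))) := by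
    calc m ^ j * (ENNReal.ofReal (r ^ d) * V)
        = ∑ _i : Fin j → ι, ENNReal.ofReal (r ^ d) * V := by
          simp [hmdef]
      _ ≤ ∑ i : Fin j → ι, ((∫⁻ z in {z : Eu d | p z ≤ r}, B.indicator 1 (chain α u j i z))
        + (ENNReal.ofReal (1 / 4) * (ENNReal.ofReal (r ^ d) * V) + ∑ l, volume (S (i l)))) :=
          Finset.sum_le_sum fun i _ => hcov i
      _ = (∑ i : Fin j → ι, ∫⁻ z in {z : Eu d | p z ≤ r}, B.indicator 1 (chain α u j i z))
        + (m ^ j * (ENNReal.ofReal (1 / 4) * (ENNReal.ofReal (r ^ d) * V))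
          + ∑ i : Fin j → ι, ∑ l, volume (S (i l))) := by
          rw [Finset.sum_add_distrib, Finset.sum_add_distrib]
          simp [hmdef]
      _ ≤ _ := by
          refine add_le_add (hlaw.trans ?_) le_rfl
          exact mul_le_mul' le_rfl hBvol
  have hproj : m * ∑ i : Fin j → ι, ∑ l, volume (S (i l))
      ≤ m ^ j * (j * (ENNReal.ofReal (Fintype.card ι * κ) * V)) := by
    rw [Finset.sum_comm, Finset.mul_sum]
    calc ∑ l : Fin j, m * ∑ i : Fin j → ι, volume (S (i l))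
        = ∑ _l : Fin j, m ^ j * ∑ a, volume (S a) :=
          Finset.sum_congr rfl fun l _ => sum_proj (fun a => volume (S a)) j l
      _ = j * (m ^ j * ∑ a, volume (S a)) := by simp
      _ ≤ j * (m ^ j * (ENNReal.ofReal (Fintype.card ι * κ) * V)) := by gcongr
      _ = _ := by ring
  have hproj2 : ∑ i : Fin j → ι, ∑ l, volume (S (i l))
      ≤ m ^ j * (j * (ENNReal.ofReal κ * V)) := by
    rw [← ENNReal.mul_le_mul_iff_right hm0 hmt]
    refine hproj.trans (le_of_eq ?_)
    rw [ENNReal.ofReal_mul hm.le, ← hmR]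
    ring
  have hfinal : m ^ j * (ENNReal.ofReal (r ^ d) * V)
      ≤ m ^ j * (ENNReal.ofReal (D ^ j * (Δ⁻¹ * r ^ d) + (1 / 4 * r ^ d + j * κ)) * V) := by
    refine hsum.trans ?_
    calc ENNReal.ofReal (D * Fintype.card ι) ^ j *
          (ENNReal.ofReal (Δ⁻¹) * (ENNReal.ofReal (r ^ d) * V))
        + (m ^ j * (ENNReal.ofReal (1 / 4) * (ENNReal.ofReal (r ^ d) * V))
          + ∑ i : Fin j → ι, ∑ l, volume (S (i l)))
        ≤ ENNReal.ofReal (D * Fintype.card ι) ^ j *
          (ENNReal.ofReal (Δ⁻¹) * (ENNReal.ofReal (r ^ d) * V))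
        + (m ^ j * (ENNReal.ofReal (1 / 4) * (ENNReal.ofReal (r ^ d) * V))
          + m ^ j * (j * (ENNReal.ofReal κ * V))) := by gcongr
      _ = _ := by
          rw [ENNReal.ofReal_mul hD0.le, ← hmR, mul_pow, ← ENNReal.ofReal_pow hD0.le,
            ENNReal.ofReal_add (by positivity) (by positivity),
            ENNReal.ofReal_add (p := 1 / 4 * r ^ d) (by positivity) (by positivity),
            ENNReal.ofReal_mul (p := D ^ j) (by positivity),
            ENNReal.ofReal_mul (p := Δ⁻¹) (by positivity),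
            ENNReal.ofReal_mul (p := 1 / 4) (by positivity),
            ENNReal.ofReal_mul (p := (j : ℝ)) (by positivity), ENNReal.ofReal_natCast]
          ring
  have hmj0 : m ^ j ≠ 0 := pow_ne_zero _ hm0
  have hmjt : m ^ j ≠ ⊤ := ENNReal.pow_ne_top hmt
  rw [ENNReal.mul_le_mul_iff_right hmj0 hmjt, ENNReal.mul_le_mul_iff_left h0 hfin,
    ENNReal.ofReal_le_ofReal_iff (by positivity)] at hfinal
  have e5 : D ^ j * (Δ⁻¹ * r ^ d) = r ^ d * (D ^ j / Δ) := by ring
  rw [e5] at hfinal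
  nlinarith

end Pool.Agent.J4H21.FL
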