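import Mathlib
import Pool.Agent.J4H21.FL.Core

set_option autoImplicit false

/-!
The local flatness criterion.
-/

namespace Pool.Agent.J4H21.FL

open MeasureTheory Set Module
open scoped ENNReal Pointwise NNReal
open Pool.Agent.H815R2.Flat

variable {d : ℕ}

theorem det_idem {E : Type*} [AddCommGroup E] [Module ℝ E] [FiniteDimensional ℝ E]
    (P : E →ₗ[ℝ] E) (hP : ∀ x, P (P x) = P x) (a b : ℝ) :
    LinearMap.det (a • (LinearMap.id : E →ₗ[ℝ] E) + b • P)
      = (a + b) ^ finrank ℝ (LinearMap.range P) * a ^ finrank ℝ (LinearMap.ker P) := by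
  have hc : IsCompl (LinearMap.range P) (LinearMap.ker P) := by
    constructor
    · rw [Submodule.disjoint_def]
      rintro x ⟨y, rfl⟩ hx
      rw [LinearMap.mem_ker, hP] at hx
      exact hx
    · rw [codisjoint_iff, eq_top_iff]
      intro x _
      rw [Submodule.mem_sup]
      refine ⟨P x, ⟨x, rfl⟩, x - P x, ?_, by abel⟩
      rw [LinearMap.mem_ker, map_sub, hP, sub_self]
  set e := Submodule.prodEquivOfIsCompl _ _ hc with he
  set f := LinearMap.prodMap ((a + b) • (LinearMap.id : LinearMap.range P →ₗ[ℝ] _))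
    (a • (LinearMap.id : LinearMap.ker P →ₗ[ℝ] _)) with hf
  have h1 : a • (LinearMap.id : E →ₗ[ℝ] E) + b • P
      = (e : _ →ₗ[ℝ] E) ∘ₗ f ∘ₗ (e.symm : E →ₗ[ℝ] _) := by
    apply LinearMap.ext
    intro x
    obtain ⟨⟨⟨y, hy⟩, ⟨z, hz⟩⟩, rfl⟩ := e.surjective x
    have h2 : e (⟨y, hy⟩, ⟨z, hz⟩) = y + z := by
      rw [he, Submodule.coe_prodEquivOfIsCompl']
    have hPy : P y = y := by
      obtain ⟨w, rfl⟩ := hy
      exact hP w
    have hPz : P z = 0 := hz
    simp only [LinearMap.comp_apply, LinearEquiv.coe_coe, LinearEquiv.symm_apply_apply,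
      LinearMap.add_apply, LinearMap.smul_apply, LinearMap.id_apply, hf, LinearMap.prodMap_apply]
    rw [h2, map_add, hPy, hPz, he, Submodule.coe_prodEquivOfIsCompl']
    simp only [Submodule.coe_smul]
    rw [add_zero, smul_add, add_smul]
    abel
  rw [h1, LinearMap.det_conj, hf, LinearMap.det_prodMap, LinearMap.det_smul, LinearMap.det_smul]
  simp

theorem det_lower (d k : ℕ) (hkd : k ≤ d) (s τ A : ℝ) (hτ0 : 0 ≤ τ) (hτ1 : τ ≤ 1) (hs0 : 0 ≤ s)
    (hs1 : s ≤ 1 / 4) (hτ : k * τ = 3 * A) (hs : d * s = 3 / 4 * A) (hA : 0 ≤ A) :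
    Real.exp A ≤ |(1 - s + τ) ^ k * (1 - s) ^ (d - k)| := by
  have h1s : 0 < 1 - s := by linarith
  rw [abs_of_nonneg (by positivity)]
  have h1 : (1 - s) * (1 + τ) ≤ 1 - s + τ := by nlinarith
  have h2 : (2 : ℝ) ^ τ ≤ 1 + τ := by
    have := rpow_one_add_le_one_add_mul_self (s := 1) (by norm_num) hτ0 hτ1
    norm_num at this
    linarith
  have h3 : Real.exp (-(4 / 3 * s)) ≤ 1 - s := by
    rw [Real.exp_neg, inv_le_comm₀ (Real.exp_pos _) h1s]
    have h4 := Real.add_one_le_exp (4 / 3 * s)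
    refine le_trans ?_ h4
    rw [inv_le_iff_one_le_mul₀ h1s]
    nlinarith
  have h5 : Real.exp (2 * A) ≤ (1 + τ) ^ k := by
    calc Real.exp (2 * A) ≤ Real.exp (Real.log 2 * τ * k) := by
          apply Real.exp_le_exp.mpr
          have := Real.log_two_gt_d9
          have e : Real.log 2 * τ * k = Real.log 2 * (3 * A) := by rw [← hτ]; ring
          rw [e]
          nlinarith
      _ = ((2 : ℝ) ^ τ) ^ k := by
          rw [Real.rpow_def_of_pos (by norm_num), ← Real.exp_nat_mul]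
          congr 1
          ring
      _ ≤ _ := by gcongr
  have h6 : Real.exp (-A) ≤ (1 - s) ^ d := by
    calc Real.exp (-A) = Real.exp (-(4 / 3 * s)) ^ d := by
          rw [← Real.exp_nat_mul]
          congr 1
          have : (d : ℝ) * -(4 / 3 * s) = -(4 / 3) * (d * s) := by ring
          rw [this, hs]
          ring
      _ ≤ _ := by gcongr
  calc Real.exp A = Real.exp (2 * A) * Real.exp (-A) := by
        rw [← Real.exp_add]; congr 1; ring
    _ ≤ (1 + τ) ^ k * (1 - s) ^ d := by gcongr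
    _ = ((1 - s) * (1 + τ)) ^ k * (1 - s) ^ (d - k) := by
        rw [mul_pow]
        have : (1 - s) ^ d = (1 - s) ^ k * (1 - s) ^ (d - k) := by
          rw [← pow_add]; congr 1; omega
        rw [this]
        ring
    _ ≤ _ := by gcongr

/-- numerics: the powers of `α` -/
theorem alpha_pow (d j : ℕ) (hd : 2 ≤ d) (hj : 3 * j ≤ d) :
    1 / (((1 - 1 / (d : ℝ)) / (1 + (1 - 1 / (d : ℝ)))) ^ j) ≤ 1.4 * 2 ^ j := by
  have hd' : (2 : ℝ) ≤ d := by exact_mod_cast hd
  have hj' : 3 * (j : ℝ) ≤ d := by exact_mod_cast hj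
  have hdm1 : (0 : ℝ) < d - 1 := by linarith
  have e1 : ((1 - 1 / (d : ℝ)) / (1 + (1 - 1 / (d : ℝ)))) = (2 * (1 + 1 / (2 * ((d : ℝ) - 1))))⁻¹ := by
    have h2 : (2 * (d : ℝ) - 1) ≠ 0 := by linarith
    field_simp
    ring
  rw [e1, inv_pow, one_div, inv_inv, mul_pow]
  have h1 : (1 + 1 / (2 * ((d : ℝ) - 1))) ^ j ≤ Real.exp (1 / 3) := by
    calc (1 + 1 / (2 * ((d : ℝ) - 1))) ^ j ≤ Real.exp (1 / (2 * ((d : ℝ) - 1))) ^ j := by
          gcongr
          have := Real.add_one_le_exp (1 / (2 * ((d : ℝ) - 1)))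
          linarith
      _ = Real.exp (j * (1 / (2 * ((d : ℝ) - 1)))) := by rw [← Real.exp_nat_mul]
      _ ≤ _ := by
          apply Real.exp_le_exp.mpr
          rw [mul_one_div, div_le_div_iff₀ (by positivity) (by norm_num)]
          linarith
  have h2 : Real.exp (1 / 3) ≤ 1.4 := by
    have h3 : Real.exp (1 / 3) ^ 3 = Real.exp 1 := by
      rw [← Real.exp_nat_mul]; norm_num
    have h4 := Real.exp_one_lt_d9
    by_contra hcon
    push Not at hcon
    have h5 : (1.4 : ℝ) ^ 3 < Real.exp (1 / 3) ^ 3 := by gcongr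
    rw [h3] at h5
    norm_num at h5
    linarith
  calc (2 : ℝ) ^ j * (1 + 1 / (2 * ((d : ℝ) - 1))) ^ j ≤ 2 ^ j * 1.4 := by
        gcongr
        exact h1.trans h2
    _ = _ := by ring

/-- The core contradiction. -/
theorem core {ι : Type*} [Fintype ι] [Nonempty ι] (hd : 2 ≤ d)
    (p : Seminorm ℝ (Eu d)) (hcont : Continuous p)
    (h0 : volume {y : Eu d | p y ≤ 1} ≠ 0)
    (hfin : volume {y : Eu d | p y ≤ 1} ≠ ⊤)
    (P : Eu d →ₗ[ℝ] Eu d) (hP : ∀ x, P (P x) = P x) (k : ℕ) (hk : finrank ℝ (LinearMap.range P) = k)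
    (G ω lam : ℝ) (j : ℕ) (hG0 : 0 ≤ G)
    (hG : volume {z : Eu d | p z ≤ 1 ∧ G < p (P z)}
      ≤ ENNReal.ofReal (1 / 4) * volume {y : Eu d | p y ≤ 1})
    (hω0 : 0 ≤ ω) (hlam1 : 1 ≤ lam) (hj4 : 4 ≤ j) (hjk : 3 * j * lam ≤ k)
    (hGj : 16 * d * G ≤ k * 2 ^ j) (hH : 2500 * 2 ^ j * j ^ 2 * lam ^ 2 * d * ω ≤ k)
    (hF : ∫⁻ z in {y : Eu d | p y ≤ 1}, ∫⁻ z' in {y : Eu d | p y ≤ 1},
      ENNReal.ofReal |fderiv ℝ p z (P z')|
      ≤ ENNReal.ofReal ω * (volume {y : Eu d | p y ≤ 1} * volume {y : Eu d | p y ≤ 1}))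
    (u : ι → Eu d) (hu : ∀ i, p (u i) ≤ 1) (θ : ℝ)
    (hθ : θ = Real.exp lam / 3 * ((1 - 1 / (d : ℝ)) / 2) ^ d)
    (hq : ∀ y : Eu d,
      (∑ i : ι, if p (u i - y) ≤ 1 - 1 / (d : ℝ) then (1 : ℝ) else 0) ≤ θ * Fintype.card ι) :
    False := by
  classical
  set V := volume {y : Eu d | p y ≤ 1} with hV
  have hd' : (2 : ℝ) ≤ d := by exact_mod_cast hd
  have hd0 : (0 : ℝ) < d := by linarith
  set r : ℝ := 1 - 1 / (d : ℝ) with hr
  have hdi : 1 / (d : ℝ) ≤ 1 / 2 := one_div_le_one_div_of_le (by norm_num) hd'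
  have hdi0 : 0 < 1 / (d : ℝ) := by positivity
  have hr2 : 1 / 2 ≤ r := by rw [hr]; linarith
  have hr0 : 0 < r := by linarith
  have hr1 : r ≤ 1 := by rw [hr]; linarith
  have hj0 : (0 : ℝ) < j := by exact_mod_cast (by omega : 0 < j)
  have hj4' : (4 : ℝ) ≤ j := by exact_mod_cast hj4
  have hlam0 : 0 < lam := by linarith
  set D : ℝ := Real.exp lam / 3 with hD
  have hD0 : 0 < D := by positivity
  have hm : (0 : ℝ) < Fintype.card ι := by exact_mod_cast Fintype.card_pos
  have hqD : θ * Fintype.card ι * 2 ^ d = D * Fintype.card ι * r ^ d := by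
    rw [hθ, div_pow]
    field_simp
  have hlog : Real.log (3 * D) = lam := by
    rw [hD]
    rw [show 3 * (Real.exp lam / 3) = Real.exp lam by ring, Real.log_exp]
  -- ranks
  have hrank : finrank ℝ (LinearMap.range P) + finrank ℝ (LinearMap.ker P) = d := by
    rw [LinearMap.finrank_range_add_finrank_ker, finrank_euclideanSpace_fin]
  have hkd : k ≤ d := by omega
  have hker : finrank ℝ (LinearMap.ker P) = d - k := by omega
  have hkd' : (k : ℝ) ≤ d := by exact_mod_cast hkd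
  have hjlam : 0 < (j : ℝ) * lam := by positivity
  have hk0 : (0 : ℝ) < k := by
    have : 0 < 3 * (j : ℝ) * lam := by positivity
    linarith
  have hj3 : 3 * j ≤ d := by
    have : (3 * j : ℝ) ≤ d := by nlinarith
    exact_mod_cast this
  -- parameters
  set A : ℝ := j * lam with hA
  set τ : ℝ := 3 * A / k with hτ
  have hτ0 : 0 < τ := by positivity
  have hτ1 : τ ≤ 1 := by
    rw [hτ, div_le_one hk0, hA]
    linarith
  set s : ℝ := 3 / 4 * A / d with hs
  have hs0 : 0 < s := by positivity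
  have hs1 : s ≤ 1 / 4 := by
    rw [hs, div_le_iff₀ hd0, hA]
    linarith
  set α : ℝ := r / (1 + r) with hα
  have hα0 : 0 < α := by positivity
  have hα2 : α ≤ 1 / 2 := by
    rw [hα, div_le_div_iff₀ (by positivity) (by norm_num)]
    linarith
  have hαj0 : 0 < α ^ j := by positivity
  have hαj : 1 / α ^ j ≤ 1.4 * 2 ^ j := alpha_pow d j hd hj3
  have h2j : (16 : ℝ) ≤ 2 ^ j := by
    calc (16 : ℝ) = 2 ^ 4 := by norm_num
      _ ≤ 2 ^ j := pow_le_pow_right₀ (by norm_num) hj4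
  have hsτ : s / τ = k / (4 * d) := by
    rw [hs, hτ]
    field_simp
  set t : ℝ := 2 * (τ / ((1 - s) * α ^ j) + 2 / d * τ / (s * r)) with ht
  have h1s : 0 < 1 - s := by linarith
  have ht0 : 0 < t := by positivity
  have htle : t ≤ 11.7 * A * 2 ^ j / k := by
    have h1 : τ / ((1 - s) * α ^ j) ≤ (4 / 3) * τ * (1.4 * 2 ^ j) := by
      calc τ / ((1 - s) * α ^ j) = (1 / (1 - s)) * τ * (1 / α ^ j) := by field_simp
        _ ≤ (4 / 3) * τ * (1.4 * 2 ^ j) := by
            have h3 : 1 / (1 - s) ≤ 4 / 3 := by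
              rw [div_le_div_iff₀ h1s (by norm_num)]
              linarith
            have h4 : 0 ≤ 1 / α ^ j := by positivity
            exact mul_le_mul (mul_le_mul_of_nonneg_right h3 hτ0.le) hαj h4 (by positivity)
    have h2 : 2 / d * τ / (s * r) ≤ 16 / k := by
      have e : 2 / d * τ / (s * r) = 2 / (d * (s / τ) * r) := by
        field_simp
      rw [e, hsτ]
      have e2 : 2 / (d * ((k : ℝ) / (4 * d)) * r) = 8 / (k * r) := by
        field_simp
        norm_num
      rw [e2, div_le_div_iff₀ (by positivity) hk0]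
      nlinarith
    calc t ≤ 2 * ((4 / 3) * τ * (1.4 * 2 ^ j) + 16 / k) := by
          rw [ht]
          gcongr
      _ = (11.2 * A * 2 ^ j + 32) / k := by
          rw [hτ]
          field_simp
          ring
      _ ≤ _ := by
          gcongr
          have h3 : (64 : ℝ) ≤ A * 2 ^ j := by
            have hA4 : 4 ≤ A := by rw [hA]; nlinarith
            nlinarith
          linarith
  -- determinant
  have hdet : Real.exp A ≤ |LinearMap.det ((1 - s) • (LinearMap.id : Eu d →ₗ[ℝ] Eu d) + τ • P)| := by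
    rw [det_idem P hP, hk, hker]
    refine det_lower d k hkd s τ A hτ0.le hτ1 hs0.le hs1 ?_ ?_ (by positivity)
    · rw [hτ]; field_simp
    · rw [hs]; field_simp
  set κ : ℝ := t / (1 / d) * (1 + 1 / d + 1 / (10 * d)) ^ d * (8 / Real.log 2 * lam) * ω with hκ
  have hlog2 : 0.6931471803 < Real.log 2 := Real.log_two_gt_d9
  have hκ0 : 0 ≤ κ := by
    have : 0 < Real.log 2 := by linarith
    positivity
  have hesc := esc_total' p hcont h0 hfin u hu r _ D hr0 hr1 hq hqD.le
    (by rw [hlog]; exact hlam0) P ω hF t (1 / d) (1 / (10 * d)) ht0 (by positivity) (by positivity)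
  rw [hlog] at hesc
  have hcount := count p hcont h0 hfin u hu r _ D hr0 hr1 hD0 hq hqD.le P s τ G t (1 / d)
    (Real.exp A) κ hs0 (by linarith) hτ0 ht0 (by positivity) hG hG0 (Real.exp_pos _) hdet j
    (by
      have e : s * r / (2 * τ) = (s / τ) * r / 2 := by field_simp
      rw [e, hsτ]
      have h1 : α ^ j ≤ 1 / 2 ^ j := by
        calc α ^ j ≤ (1 / 2) ^ j := by gcongr
          _ = _ := by rw [one_div_pow]
      calc α ^ j * G ≤ 1 / 2 ^ j * G := by gcongr
        _ ≤ (k : ℝ) / (4 * d) * (1 / 2) / 2 := by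
            rw [div_mul_eq_mul_div, div_le_iff₀ (by positivity)]
            have e3 : (k : ℝ) / (4 * d) * (1 / 2) / 2 * 2 ^ j = (k * 2 ^ j) / (16 * d) := by
              field_simp
              norm_num
            rw [e3, le_div_iff₀ (by positivity)]
            linarith
        _ ≤ _ := by gcongr)
    (by
      have e : (1 : ℝ) + 1 / d - r = 2 / d := by rw [hr]; ring
      rw [e, ht]
      linarith)
    hκ0
    (by
      refine hesc.trans (le_of_eq ?_)
      congr 2
      rw [hκ]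
      ring)
  -- numerics
  have hl2 : 8 / Real.log 2 ≤ 11.5416 := by
    rw [div_le_iff₀ (by linarith)]
    nlinarith
  have hpow : (1 + 1 / (d : ℝ) + 1 / (10 * d)) ^ d ≤ 3.03 := by
    refine le_trans (le_of_eq ?_) (exp_le_303 d (by omega))
    congr 1
    field_simp
    norm_num
    ring
  have hκle : j * κ ≤ 0.165 := by
    have h1 : κ ≤ 35 * t * d * lam * ω := by
      calc κ ≤ t / (1 / d) * 3.03 * (11.5416 * lam) * ω := by
            rw [hκ]
            gcongr
        _ = (3.03 * 11.5416) * (t * d * lam * ω) := by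
            field_simp
        _ ≤ 35 * (t * d * lam * ω) := by
            apply mul_le_mul_of_nonneg_right (by norm_num)
            positivity
        _ = _ := by ring
    calc (j : ℝ) * κ ≤ j * (35 * t * d * lam * ω) := by gcongr
      _ ≤ j * (35 * (11.7 * A * 2 ^ j / k) * d * lam * ω) := by gcongr
      _ = 409.5 / 2500 * ((2500 * 2 ^ j * j ^ 2 * lam ^ 2 * d * ω) / k) := by
          rw [hA]
          field_simp
          ring
      _ ≤ 409.5 / 2500 * 1 := by
          gcongr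
          rw [div_le_one hk0]
          exact hH
      _ ≤ _ := by norm_num
  have hDj : D ^ j / Real.exp A ≤ 1 / 81 := by
    have e1 : D ^ j = Real.exp A / 3 ^ j := by
      rw [hD, div_pow, ← Real.exp_nat_mul, hA]
    rw [e1]
    have h3j : (81 : ℝ) ≤ 3 ^ j := by
      calc (81 : ℝ) = 3 ^ 4 := by norm_num
        _ ≤ 3 ^ j := pow_le_pow_right₀ (by norm_num) hj4
    have := Real.exp_pos A
    rw [div_div, div_le_div_iff₀ (by positivity) (by norm_num)]
    nlinarith
  have hrd := quarter_le d hd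
  rw [← hr] at hrd
  have h5 : (1 / 4 : ℝ) * (3 / 4 - 1 / 81) ≤ r ^ d * (3 / 4 - D ^ j / Real.exp A) := by
    apply mul_le_mul hrd (by linarith) (by norm_num) (by positivity)
  have := h5.trans (hcount.trans hκle)
  norm_num at this

/-- The local flatness criterion (covering form). -/
theorem cover_local (hd : 2 ≤ d)
    (p : Seminorm ℝ (Eu d)) (hcont : Continuous p)
    (h0 : volume {y : Eu d | p y ≤ 1} ≠ 0)
    (hfin : volume {y : Eu d | p y ≤ 1} ≠ ⊤)
    (P : Eu d →ₗ[ℝ] Eu d) (hP : ∀ x, P (P x) = P x) (k : ℕ) (hk : finrank ℝ (LinearMap.range P) = k)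
    (G ω lam : ℝ) (j : ℕ) (hG0 : 0 ≤ G)
    (hG : volume {z : Eu d | p z ≤ 1 ∧ G < p (P z)}
      ≤ ENNReal.ofReal (1 / 4) * volume {y : Eu d | p y ≤ 1})
    (hω0 : 0 ≤ ω) (hlam1 : 1 ≤ lam) (hj4 : 4 ≤ j) (hjk : 3 * j * lam ≤ k)
    (hGj : 16 * d * G ≤ k * 2 ^ j) (hH : 2500 * 2 ^ j * j ^ 2 * lam ^ 2 * d * ω ≤ k)
    (hF : ∫⁻ z in {y : Eu d | p y ≤ 1}, ∫⁻ z' in {y : Eu d | p y ≤ 1},
      ENNReal.ofReal |fderiv ℝ p z (P z')|
      ≤ ENNReal.ofReal ω * (volume {y : Eu d | p y ≤ 1} * volume {y : Eu d | p y ≤ 1})) :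
    ∃ Y : Finset (Eu d),
      (Y.card : ℝ) ≤ 1 + 12 * d * Real.log (4 * d + 1) * 2 ^ d * Real.exp (-lam) ∧
      ∀ x, p x ≤ 1 → ∃ y ∈ Y, p (x - y) < 1 := by
  classical
  have hd' : (2 : ℝ) ≤ d := by exact_mod_cast hd
  have hdi : 1 / (d : ℝ) ≤ 1 / 2 := one_div_le_one_div_of_le (by norm_num) hd'
  have hdi0 : 0 < 1 / (d : ℝ) := by positivity
  set η : ℝ := 1 / (d : ℝ) with hη
  set θ : ℝ := Real.exp lam / 3 * ((1 - η) / 2) ^ d with hθ
  have hθ0 : 0 < θ := by
    have : 0 < 1 - η := by linarith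
    positivity
  have hcore : ∀ {ι : Type} [Fintype ι] [Nonempty ι] (u : ι → Eu d), (∀ i, p (u i) ≤ 1) →
      (∀ y : Eu d, (∑ i : ι, if p (u i - y) ≤ 1 - 1 / (d : ℝ) then (1 : ℝ) else 0)
        ≤ θ * Fintype.card ι) → False := fun u hu hq =>
    core hd p hcont h0 hfin P hP k hk G ω lam j hG0 hG hω0 hlam1 hj4 hjk hGj hH hF u hu θ hθ hq
  have hθ1 : θ ≤ 1 := by
    by_contra hcon
    push Not at hcon
    refine hcore (ι := Unit) (fun _ => 0) (by simp) ?_
    intro y
    simp only [Finset.univ_unique, Finset.sum_singleton, Fintype.card_unit, Nat.cast_one, mul_one]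
    split_ifs <;> linarith
  obtain ⟨S, hS1, hS2, hS3⟩ := Pool.Agent.H815R2.Had.exists_net volume p hcont h0 hfin (η / 2)
    (by positivity)
  rw [finrank_euclideanSpace_fin] at hS3
  have hM : (1 + 2 / (η / 2)) = 4 * d + 1 := by
    rw [hη]
    field_simp
    ring
  rw [hM] at hS3
  obtain ⟨Y, hY1, hY2⟩ := Pool.Agent.H815R2.Had.greedy_cover (S := S)
    (E := Eu d) (fun y s => p ((s : Eu d) - y) ≤ 1 - η) θ
    hθ0 hθ1 (by
      intro A hA
      have : Nonempty A := hA.to_subtype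
      by_contra hcon
      push Not at hcon
      refine core (ι := A) hd p hcont h0 hfin P hP k hk G ω lam j hG0 hG hω0 hlam1 hj4 hjk hGj hH hF
        (fun a => ((a : S) : Eu d)) (fun a => hS1 _ (a : S).2) θ hθ ?_
      intro y
      have h1 := hcon y
      rw [Fintype.card_coe]
      refine le_trans (le_of_eq ?_) h1.le
      rw [Finset.card_filter]
      push_cast
      rw [← Finset.sum_coe_sort A])
    ((4 * d + 1) ^ d) (by rw [Fintype.card_coe]; exact hS3)
    (one_le_pow₀ (by linarith))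
  refine ⟨Y, hY1.trans ?_, ?_⟩
  · rw [Real.log_pow]
    have hq := quarter_le d hd
    rw [← hη] at hq
    have hlogpos : 0 ≤ Real.log (4 * d + 1) := Real.log_nonneg (by linarith)
    have h1 : 1 / θ ≤ 12 * 2 ^ d * Real.exp (-lam) := by
      rw [hθ, div_pow, Real.exp_neg]
      have he := Real.exp_pos lam
      have hpow : 0 < (1 - η) ^ d := by linarith
      rw [div_le_iff₀ (by positivity)]
      have : 12 * 2 ^ d * (Real.exp lam)⁻¹ * (Real.exp lam / 3 * ((1 - η) ^ d / 2 ^ d))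
          = 4 * (1 - η) ^ d := by
        field_simp
        ring
      rw [this]
      linarith
    calc (d : ℝ) * Real.log (4 * d + 1) / θ + 1
        = (d : ℝ) * Real.log (4 * d + 1) * (1 / θ) + 1 := by ring
      _ ≤ (d : ℝ) * Real.log (4 * d + 1) * (12 * 2 ^ d * Real.exp (-lam)) + 1 := by gcongr
      _ = _ := by ring
  · intro x hx
    obtain ⟨s, hs, hxs⟩ := hS2 x hx
    obtain ⟨y, hy, hsy⟩ := hY2 ⟨s, hs⟩
    refine ⟨y, hy, ?_⟩
    calc p (x - y) = p ((x - s) + (s - y)) := by congr 1; abel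
      _ ≤ p (x - s) + p (s - y) := map_add_le_add _ _ _
      _ ≤ η / 2 + (1 - η) := add_le_add hxs hsy
      _ < 1 := by linarith

end Pool.Agent.J4H21.FL
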