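import Mathlib
import Pool.Agent.J4H21.FL.Cover

set_option autoImplicit false

/-!
Moments of linear functionals over a symmetric convex body in isotropic position.
-/

namespace Pool.Agent.J4H21.FL

open MeasureTheory Set Module
open scoped ENNReal Pointwise NNReal
open Pool.Agent.H815R2.Flat

variable {d : ℕ}

/-- isotropic position -/
def Iso (p : Seminorm ℝ (Eu d)) : Prop :=
  ∀ v : Eu d, ∫⁻ z in {y : Eu d | p y ≤ 1}, ENNReal.ofReal ((inner ℝ v z) ^ 2)
    = ENNReal.ofReal (‖v‖ ^ 2) * volume {y : Eu d | p y ≤ 1}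

theorem rpow_le_exp (x e c : ℝ) (hx : 0 ≤ x) (he : 1 ≤ e) (hc : 0 < c) :
    x ^ e ≤ (e / (c * Real.exp 1)) ^ e * Real.exp (c * x) := by
  have he0 : 0 < e := by linarith
  have h1 : c * x ≤ e * Real.exp (c * x / e - 1) := by
    have h2 := Real.add_one_le_exp (c * x / e - 1)
    calc c * x = e * (c * x / e - 1 + 1) := by field_simp; ring
      _ ≤ _ := by gcongr
  have h2 : (c * x) ^ e ≤ (e * Real.exp (c * x / e - 1)) ^ e :=
    Real.rpow_le_rpow (by positivity) h1 he0.le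
  rw [Real.mul_rpow hc.le hx, Real.mul_rpow he0.le (Real.exp_pos _).le, ← Real.exp_mul] at h2
  have e1 : (c * x / e - 1) * e = c * x - e := by field_simp
  rw [e1, Real.exp_sub] at h2
  have hce : 0 < c ^ e := Real.rpow_pos_of_pos hc e
  have h3 : (e / (c * Real.exp 1)) ^ e = e ^ e / (c ^ e * Real.exp e) := by
    rw [Real.div_rpow he0.le (by positivity), Real.mul_rpow hc.le (Real.exp_pos _).le,
      ← Real.exp_mul, one_mul]
  rw [h3]
  calc x ^ e = (c ^ e * x ^ e) / c ^ e := by field_simp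
    _ ≤ (e ^ e * (Real.exp (c * x) / Real.exp e)) / c ^ e := by gcongr
    _ = _ := by field_simp

/-- the moments of a functional -/
theorem moment (p : Seminorm ℝ (Eu d)) (hcont : Continuous p)
    (hfin : volume {y : Eu d | p y ≤ 1} ≠ ⊤)
    (φ : Eu d →L[ℝ] ℝ) (s : ℝ) (hs : 0 < s)
    (hφ : ∫⁻ z in {y : Eu d | p y ≤ 1}, ENNReal.ofReal |φ z|
      ≤ ENNReal.ofReal s * volume {y : Eu d | p y ≤ 1}) (e : ℝ) (he : 1 ≤ e) :
    ∫⁻ z in {y : Eu d | p y ≤ 1}, ENNReal.ofReal (|φ z| ^ e)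
      ≤ ENNReal.ofReal (3 * (2.2 * e * s) ^ e) * volume {y : Eu d | p y ≤ 1} := by
  have hl := Real.log_two_gt_d9
  have hl2 : 0 < Real.log 2 := by linarith
  have hexp := Real.exp_one_gt_d9
  have he0 : 0 < e := by linarith
  set c : ℝ := Real.log 2 / (4 * s) with hc
  have hc0 : 0 < c := by positivity
  have h1 := expMoment p hcont hfin φ s hs hφ
  rw [← hc] at h1
  have hC0 : 0 ≤ (e / (c * Real.exp 1)) ^ e := by positivity
  calc ∫⁻ z in {y : Eu d | p y ≤ 1}, ENNReal.ofReal (|φ z| ^ e)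
      ≤ ∫⁻ z in {y : Eu d | p y ≤ 1}, ENNReal.ofReal ((e / (c * Real.exp 1)) ^ e)
        * ENNReal.ofReal (Real.exp (c * |φ z|)) := by
        refine lintegral_mono fun z => ?_
        rw [← ENNReal.ofReal_mul hC0]
        exact ENNReal.ofReal_le_ofReal (rpow_le_exp _ e c (abs_nonneg _) he hc0)
    _ = ENNReal.ofReal ((e / (c * Real.exp 1)) ^ e) *
        ∫⁻ z in {y : Eu d | p y ≤ 1}, ENNReal.ofReal (Real.exp (c * |φ z|)) :=
        lintegral_const_mul' _ _ ENNReal.ofReal_ne_top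
    _ ≤ ENNReal.ofReal ((e / (c * Real.exp 1)) ^ e) * (3 * volume {y : Eu d | p y ≤ 1}) := by
        gcongr
    _ = ENNReal.ofReal (3 * (e / (c * Real.exp 1)) ^ e) * volume {y : Eu d | p y ≤ 1} := by
        rw [ENNReal.ofReal_mul (by norm_num : (0 : ℝ) ≤ 3)]
        have : ENNReal.ofReal 3 = 3 := by norm_num
        rw [this]
        ring
    _ ≤ _ := by
        refine mul_le_mul' (ENNReal.ofReal_le_ofReal ?_) le_rfl
        gcongr
        rw [hc, div_le_iff₀ (by positivity)]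
        have e2 : 2.2 * e * s * (Real.log 2 / (4 * s) * Real.exp 1)
            = e * (0.55 * (Real.log 2 * Real.exp 1)) := by
          field_simp
          ring
        rw [e2]
        have h3 : (1.88 : ℝ) ≤ Real.log 2 * Real.exp 1 := by
          calc (1.88 : ℝ) ≤ 0.693 * 2.718 := by norm_num
            _ ≤ _ := mul_le_mul (by linarith) (by linarith) (by norm_num) (by linarith)
        nlinarith

theorem iso_first (p : Seminorm ℝ (Eu d)) (hiso : Iso p) (v : Eu d) :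
    ∫⁻ z in {y : Eu d | p y ≤ 1}, ENNReal.ofReal |inner ℝ v z|
      ≤ ENNReal.ofReal ‖v‖ * volume {y : Eu d | p y ≤ 1} := by
  rcases eq_or_ne v 0 with rfl | hv
  · simp
  have hn : 0 < ‖v‖ := norm_pos_iff.2 hv
  have hm : Measurable fun z : Eu d => ENNReal.ofReal ((inner ℝ v z) ^ 2) := by fun_prop
  calc ∫⁻ z in {y : Eu d | p y ≤ 1}, ENNReal.ofReal |inner ℝ v z|
      ≤ ∫⁻ z in {y : Eu d | p y ≤ 1}, (ENNReal.ofReal (1 / (2 * ‖v‖)) *
          ENNReal.ofReal ((inner ℝ v z) ^ 2) + ENNReal.ofReal (‖v‖ / 2)) := by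
        refine lintegral_mono fun z => ?_
        rw [← ENNReal.ofReal_mul (by positivity), ← ENNReal.ofReal_add (by positivity)
          (by positivity)]
        apply ENNReal.ofReal_le_ofReal
        rw [← sq_abs (inner ℝ v z)]
        set x := |inner ℝ v z| with hx
        have h1 : 0 ≤ (x - ‖v‖) ^ 2 / (2 * ‖v‖) := by positivity
        have h2 : (x - ‖v‖) ^ 2 / (2 * ‖v‖) = 1 / (2 * ‖v‖) * x ^ 2 + ‖v‖ / 2 - x := by
          field_simp
          ring
        linarith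
    _ = ENNReal.ofReal (1 / (2 * ‖v‖)) * (ENNReal.ofReal (‖v‖ ^ 2) * volume {y : Eu d | p y ≤ 1})
        + ENNReal.ofReal (‖v‖ / 2) * volume {y : Eu d | p y ≤ 1} := by
        rw [lintegral_add_left (hm.const_mul _), lintegral_const_mul _ hm, hiso v,
          setLIntegral_const]
    _ = _ := by
        rw [← mul_assoc, ← ENNReal.ofReal_mul (by positivity), ← add_mul,
          ← ENNReal.ofReal_add (by positivity) (by positivity)]
        congr 2
        field_simp
        ring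

/-- the moments of linear functionals in isotropic position -/
theorem iso_moment (p : Seminorm ℝ (Eu d)) (hcont : Continuous p)
    (hfin : volume {y : Eu d | p y ≤ 1} ≠ ⊤) (hiso : Iso p) (v : Eu d) (e : ℝ) (he : 1 ≤ e) :
    ∫⁻ z in {y : Eu d | p y ≤ 1}, ENNReal.ofReal (|inner ℝ v z| ^ e)
      ≤ ENNReal.ofReal (3 * (2.2 * e * ‖v‖) ^ e) * volume {y : Eu d | p y ≤ 1} := by
  rcases eq_or_ne v 0 with rfl | hv
  · have he0 : e ≠ 0 := by linarith
    simp [Real.zero_rpow he0]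
  exact moment p hcont hfin (innerSL ℝ v) ‖v‖ (norm_pos_iff.2 hv) (iso_first p hiso v) e he

/-- lower bound for the first moment in isotropic position -/
theorem iso_first_lower (p : Seminorm ℝ (Eu d)) (hcont : Continuous p)
    (h0 : volume {y : Eu d | p y ≤ 1} ≠ 0)
    (hfin : volume {y : Eu d | p y ≤ 1} ≠ ⊤) (hiso : Iso p) (v : Eu d) :
    ENNReal.ofReal (‖v‖ / 7.7) * volume {y : Eu d | p y ≤ 1}
      ≤ ∫⁻ z in {y : Eu d | p y ≤ 1}, ENNReal.ofReal |inner ℝ v z| := by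
  rcases eq_or_ne v 0 with rfl | hv
  · simp
  have hn : 0 < ‖v‖ := norm_pos_iff.2 hv
  by_contra hcon
  push Not at hcon
  have h1 := moment p hcont hfin (innerSL ℝ v) (‖v‖ / 7.7) (by positivity) hcon.le 2 (by norm_num)
  have h2 : ∫⁻ z in {y : Eu d | p y ≤ 1}, ENNReal.ofReal (|(innerSL ℝ v) z| ^ (2 : ℝ))
      = ENNReal.ofReal (‖v‖ ^ 2) * volume {y : Eu d | p y ≤ 1} := by
    rw [← hiso v]
    refine lintegral_congr fun z => ?_
    have : |(innerSL ℝ v) z| ^ (2 : ℝ) = (inner ℝ v z) ^ 2 := by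
      rw [show (2 : ℝ) = ((2 : ℕ) : ℝ) by norm_num, Real.rpow_natCast, sq_abs]
      rfl
    rw [this]
  rw [h2, ENNReal.mul_le_mul_iff_left h0 hfin, ENNReal.ofReal_le_ofReal_iff (by positivity)] at h1
  have h3 : (2.2 * 2 * (‖v‖ / 7.7)) ^ (2 : ℝ) = (2.2 * 2 * (‖v‖ / 7.7)) ^ 2 := by
    rw [show (2 : ℝ) = ((2 : ℕ) : ℝ) by norm_num, Real.rpow_natCast]
  rw [h3] at h1
  have h4 : 3 * (2.2 * 2 * (‖v‖ / 7.7)) ^ 2 = (3 * (4.4 / 7.7) ^ 2) * ‖v‖ ^ 2 := by ring
  rw [h4] at h1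
  have h5 : 0 < ‖v‖ ^ 2 := by positivity
  have h6 : (3 * (4.4 / 7.7 : ℝ) ^ 2) < 1 := by norm_num
  nlinarith

/-- Jensen's inequality -/
theorem jensen {E : Type*} [MeasurableSpace E] (μ : Measure E) (K : Set E) (hfin : μ K ≠ ⊤)
    (f : E → ℝ) (hf : Measurable f) (hf0 : ∀ z, 0 ≤ f z) (s e : ℝ) (hs : 0 ≤ s) (he : 1 ≤ e)
    (h : ENNReal.ofReal s * μ K ≤ ∫⁻ z in K, ENNReal.ofReal (f z) ∂μ) :
    ENNReal.ofReal (s ^ e) * μ K ≤ ∫⁻ z in K, ENNReal.ofReal (f z ^ e) ∂μ := by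
  have he0 : 0 < e := by linarith
  rcases hs.eq_or_lt with rfl | hs
  · rw [Real.zero_rpow he0.ne']
    simp
  have hpt : ∀ z, e * s ^ (e - 1) * f z ≤ f z ^ e + (e - 1) * s ^ e := by
    intro z
    have h1 := one_add_mul_self_le_rpow_one_add (s := f z / s - 1) (p := e)
      (by have : 0 ≤ f z / s := div_nonneg (hf0 z) hs.le
          linarith) he
    rw [add_sub_cancel, Real.div_rpow (hf0 z) hs.le] at h1
    have hse : 0 < s ^ e := Real.rpow_pos_of_pos hs e
    rw [le_div_iff₀ hse] at h1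
    have e1 : s ^ (e - 1) = s ^ e / s := by
      rw [Real.rpow_sub hs, Real.rpow_one]
    rw [e1]
    calc e * (s ^ e / s) * f z = (1 + e * (f z / s - 1)) * s ^ e + (e - 1) * s ^ e := by
          field_simp
          ring
      _ ≤ _ := by linarith
  have h2 : ∫⁻ z in K, ENNReal.ofReal (e * s ^ (e - 1)) * ENNReal.ofReal (f z) ∂μ
      ≤ ∫⁻ z in K, (ENNReal.ofReal (f z ^ e) + ENNReal.ofReal ((e - 1) * s ^ e)) ∂μ := by
    refine lintegral_mono fun z => ?_
    rw [← ENNReal.ofReal_mul (by positivity), ← ENNReal.ofReal_add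
      (Real.rpow_nonneg (hf0 z) _) (mul_nonneg (by linarith) (by positivity))]
    exact ENNReal.ofReal_le_ofReal (hpt z)
  rw [lintegral_const_mul' _ _ ENNReal.ofReal_ne_top,
    lintegral_add_left (hf.pow_const e).ennreal_ofReal, setLIntegral_const] at h2
  have h3 : ENNReal.ofReal (e * s ^ (e - 1)) * (ENNReal.ofReal s * μ K)
      = ENNReal.ofReal (s ^ e) * μ K + ENNReal.ofReal ((e - 1) * s ^ e) * μ K := by
    rw [← mul_assoc, ← ENNReal.ofReal_mul (by positivity), ← add_mul,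
      ← ENNReal.ofReal_add (by positivity) (mul_nonneg (by linarith) (by positivity))]
    congr 2
    have e1 : s ^ (e - 1) = s ^ e / s := by
      rw [Real.rpow_sub hs, Real.rpow_one]
    rw [e1]
    field_simp
    ring
  have h4 : ENNReal.ofReal (s ^ e) * μ K + ENNReal.ofReal ((e - 1) * s ^ e) * μ K
      ≤ (∫⁻ z in K, ENNReal.ofReal (f z ^ e) ∂μ) + ENNReal.ofReal ((e - 1) * s ^ e) * μ K := by
    rw [← h3]
    refine le_trans ?_ h2
    gcongr
  exact (ENNReal.add_le_add_iff_right (ENNReal.mul_ne_top ENNReal.ofReal_ne_top hfin)).1 h4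

theorem iso_moment_lower (p : Seminorm ℝ (Eu d)) (hcont : Continuous p)
    (h0 : volume {y : Eu d | p y ≤ 1} ≠ 0)
    (hfin : volume {y : Eu d | p y ≤ 1} ≠ ⊤) (hiso : Iso p) (v : Eu d) (e : ℝ) (he : 1 ≤ e) :
    ENNReal.ofReal ((‖v‖ / 7.7) ^ e) * volume {y : Eu d | p y ≤ 1}
      ≤ ∫⁻ z in {y : Eu d | p y ≤ 1}, ENNReal.ofReal (|inner ℝ v z| ^ e) := by
  refine jensen volume _ hfin (fun z => |inner ℝ v z|) ?_ (fun z => abs_nonneg _) _ e
    (by positivity) he (iso_first_lower p hcont h0 hfin hiso v)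
  exact (continuous_const.inner continuous_id).abs.measurable

end Pool.Agent.J4H21.FL
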