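import Mathlib
import Pool.Agent.J4H21.FL.Mom

set_option autoImplicit false

/-!
Uncovered bodies in isotropic position: every subspace contains a unit vector of a large norm.
-/

namespace Pool.Agent.J4H21.FL

open MeasureTheory Set Module
open scoped ENNReal Pointwise NNReal
open Pool.Agent.H815R2.Flat

variable {d : ℕ}

/-- the ball of `p` is covered by few translates of its interior -/
def Good (p : Seminorm ℝ (Eu d)) (lam : ℝ) : Prop :=
  ∃ Y : Finset (Eu d),
    (Y.card : ℝ) ≤ 1 + 12 * d * Real.log (4 * d + 1) * 2 ^ d * Real.exp (-lam) ∧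
    ∀ x, p x ≤ 1 → ∃ y ∈ Y, p (x - y) < 1

/-- the lower bound for the norm -/
noncomputable def tau (d : ℕ) (G lam : ℝ) (k : ℕ) : ℝ :=
  ((k : ℝ) / d) ^ 2 / (8 * 10 ^ 6 * G * Real.log (d + 1) ^ 2 * lam ^ 2)

/-- the Riesz vector of a linear functional -/
theorem exists_riesz (φ : Eu d →ₗ[ℝ] ℝ) : ∃ v : Eu d, ∀ x, φ x = inner ℝ v x := by
  refine ⟨(InnerProductSpace.toDual ℝ (Eu d)).symm (LinearMap.toContinuousLinearMap φ), fun x => ?_⟩
  rw [InnerProductSpace.toDual_symm_apply]
  rfl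

theorem inner_star (F : Submodule ℝ (Eu d)) (v y : Eu d) :
    inner ℝ v (F.starProjection y) = inner ℝ (F.starProjection v) y :=
  (Submodule.inner_starProjection_left_eq_right F v y).symm

/-- the radius of the body -/
theorem iso_radius (p : Seminorm ℝ (Eu d)) (hcont : Continuous p)
    (h0 : volume {y : Eu d | p y ≤ 1} ≠ 0)
    (hfin : volume {y : Eu d | p y ≤ 1} ≠ ⊤) (hiso : Iso p) (u : Eu d) (hu : p u ≤ 1) :
    ‖u‖ ≤ 8 * (d + 2) := by
  rcases eq_or_ne u 0 with rfl | hu0
  · rw [norm_zero]; positivity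
  have hn : 0 < ‖u‖ := norm_pos_iff.2 hu0
  have hl := Real.log_two_gt_d9
  have hl2 : 0 < Real.log 2 := by linarith
  set x : Eu d := ‖u‖⁻¹ • u with hx
  have hx1 : ‖x‖ = 1 := by
    rw [hx, norm_smul, norm_inv, norm_norm, inv_mul_cancel₀ hn.ne']
  have hlog : Real.log (3 * 2 ^ d) = Real.log 3 + d * Real.log 2 := by
    rw [Real.log_mul (by norm_num) (by positivity), Real.log_pow]
  have h3 : Real.log 3 ≤ 2 * Real.log 2 := by
    rw [show 2 * Real.log 2 = Real.log (2 ^ 2) by rw [Real.log_pow]; norm_num]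
    exact Real.log_le_log (by norm_num) (by norm_num)
  have h3' : 0 < Real.log 3 := Real.log_pos (by norm_num)
  have h1 := avg_gen (ι := Unit) p hcont h0 hfin (fun _ => u) (fun _ => hu) 1 1 (2 ^ d) one_pos
    le_rfl (by
      intro y
      simp only [Finset.univ_unique, Finset.sum_singleton]
      split_ifs <;> norm_num) (by simp) (by rw [hlog]; positivity) (innerSL ℝ x)
  simp only [Finset.univ_unique, Finset.sum_singleton, Fintype.card_unit, Nat.cast_one, one_mul]
    at h1
  have h2 : ENNReal.ofReal |(innerSL ℝ x) u| * volume {y : Eu d | p y ≤ 1}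
      ≤ ENNReal.ofReal (8 / Real.log 2 * Real.log (3 * 2 ^ d)) *
        (ENNReal.ofReal ‖x‖ * volume {y : Eu d | p y ≤ 1}) := by
    refine h1.trans ?_
    gcongr
    exact iso_first p hiso x
  rw [hx1, ENNReal.ofReal_one, one_mul, ENNReal.mul_le_mul_iff_left h0 hfin,
    ENNReal.ofReal_le_ofReal_iff (by rw [hlog]; positivity)] at h2
  have h4 : (innerSL ℝ x) u = ‖u‖ := by
    show inner ℝ x u = ‖u‖
    rw [hx, real_inner_smul_left, real_inner_self_eq_norm_sq]
    field_simp
  rw [h4, abs_of_pos hn, hlog] at h2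
  refine h2.trans ?_
  rw [div_mul_eq_mul_div, div_le_iff₀ hl2]
  nlinarith

theorem iso_lower (p : Seminorm ℝ (Eu d)) (hcont : Continuous p)
    (h0 : volume {y : Eu d | p y ≤ 1} ≠ 0)
    (hfin : volume {y : Eu d | p y ≤ 1} ≠ ⊤) (hiso : Iso p) (x : Eu d) :
    ‖x‖ ≤ 8 * (d + 2) * p x := by
  have h1 : ∀ e : ℝ, 0 < e → ‖x‖ ≤ 8 * (d + 2) * p x + e := by
    intro e he
    set e' : ℝ := e / (8 * (d + 2)) with he'
    have he0 : 0 < e' := by positivity
    have hp0 : 0 ≤ p x := apply_nonneg p x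
    set c := p x + e' with hc
    have hc0 : 0 < c := by positivity
    have h2 := iso_radius p hcont h0 hfin hiso (c⁻¹ • x) (by
      rw [map_smul_eq_mul, Real.norm_of_nonneg (by positivity), inv_mul_le_iff₀ hc0]
      linarith)
    rw [norm_smul, Real.norm_of_nonneg (by positivity), inv_mul_le_iff₀ hc0] at h2
    calc ‖x‖ ≤ c * (8 * (d + 2)) := h2
      _ = 8 * (d + 2) * p x + e := by
        rw [hc, he']
        field_simp
  exact le_of_forall_pos_le_add h1

/-- the body contains the unit ball -/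
theorem iso_upper (p : Seminorm ℝ (Eu d)) (hcont : Continuous p)
    (h0 : volume {y : Eu d | p y ≤ 1} ≠ 0)
    (hfin : volume {y : Eu d | p y ≤ 1} ≠ ⊤) (hiso : Iso p) (x : Eu d) : p x ≤ ‖x‖ := by
  obtain ⟨φ, hφ1, hφ2⟩ := exists_norming p x
  obtain ⟨v, hv⟩ := exists_riesz φ
  have h1 : ENNReal.ofReal (‖v‖ ^ 2) * volume {y : Eu d | p y ≤ 1}
      ≤ ENNReal.ofReal 1 * volume {y : Eu d | p y ≤ 1} := by
    rw [← hiso v, ← setLIntegral_const]
    refine setLIntegral_mono' ?_ fun z hz => ?_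
    · exact (isClosed_le hcont continuous_const).measurableSet
    · apply ENNReal.ofReal_le_ofReal
      rw [← hv z, sq_le_one_iff_abs_le_one, abs_le]
      have hz' : p z ≤ 1 := hz
      have h2 := hφ2 z
      have h3 := hφ2 (-z)
      rw [map_neg, map_neg_eq_map] at h3
      constructor <;> linarith
  rw [ENNReal.mul_le_mul_iff_left h0 hfin, ENNReal.ofReal_le_ofReal_iff (by norm_num)] at h1
  have h2 : ‖v‖ ≤ 1 := by
    have := norm_nonneg v
    nlinarith
  calc p x = inner ℝ v x := by rw [← hφ1, hv]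
    _ ≤ ‖v‖ * ‖x‖ := real_inner_le_norm v x
    _ ≤ 1 * ‖x‖ := by gcongr
    _ = ‖x‖ := one_mul _

/-- from a functional with a large projection to the data of a step -/
theorem from_vec (p : Seminorm ℝ (Eu d)) (F : Submodule ℝ (Eu d)) (φ : Eu d →ₗ[ℝ] ℝ)
    (hφ : ∀ x, φ x ≤ p x) (v : Eu d) (hv : ∀ x, φ x = inner ℝ v x) (t : ℝ) (ht : 0 < t)
    (hw : t ≤ ‖F.starProjection v‖) :
    ∃ φ : Eu d →ₗ[ℝ] ℝ, (∀ x, |φ x| ≤ p x) ∧ ∃ x ∈ F, ‖x‖ = 1 ∧
      (∀ y ∈ F, φ y = φ x * inner ℝ x y) ∧ t ≤ φ x := by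
  set w := F.starProjection v with hwd
  have hw0 : 0 < ‖w‖ := lt_of_lt_of_le ht hw
  have hwF : w ∈ F := F.starProjection_apply_mem v
  have hin : ∀ y ∈ F, inner ℝ v y = inner ℝ w y := by
    intro y hy
    rw [hwd, ← inner_star, Submodule.starProjection_eq_self_iff.2 hy]
  have hx : φ (‖w‖⁻¹ • w) = ‖w‖ := by
    rw [hv, hin _ (F.smul_mem _ hwF), inner_smul_right, real_inner_self_eq_norm_sq]
    field_simp
  refine ⟨φ, fun x => ?_, ‖w‖⁻¹ • w, F.smul_mem _ hwF, ?_, fun y hy => ?_, ?_⟩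
  · rw [abs_le]
    have h2 := hφ x
    have h3 := hφ (-x)
    rw [map_neg, map_neg_eq_map] at h3
    constructor <;> linarith
  · rw [norm_smul, norm_inv, norm_norm, inv_mul_cancel₀ hw0.ne']
  · rw [hx, hv, hin y hy, real_inner_smul_left]
    field_simp
  · rw [hx]
    exact hw

/-- the derivative is bounded by the norm -/
theorem fder_le (p : Seminorm ℝ (Eu d)) (z x : Eu d) : fderiv ℝ p z x ≤ p x :=
  (le_abs_self _).trans (fderiv_abs_le p z x)

theorem step_sub (hd : 2 ≤ d) (p : Seminorm ℝ (Eu d)) (hcont : Continuous p)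
    (h0 : volume {y : Eu d | p y ≤ 1} ≠ 0)
    (hfin : volume {y : Eu d | p y ≤ 1} ≠ ⊤) (hiso : Iso p) (G lam : ℝ) (hG4 : 4 ≤ G)
    (hGd : G ≤ 4 * d) (hlam : 1 ≤ lam) (F : Submodule ℝ (Eu d)) (k : ℕ)
    (hk : finrank ℝ F = k) (hk1 : 1 ≤ k)
    (hG : volume {z : Eu d | p z ≤ 1 ∧ G < p (F.starProjection z)}
      ≤ ENNReal.ofReal (1 / 4) * volume {y : Eu d | p y ≤ 1})
    (hnot : ¬ Good p lam) :
    ∃ φ : Eu d →ₗ[ℝ] ℝ, (∀ x, |φ x| ≤ p x) ∧ ∃ x ∈ F, ‖x‖ = 1 ∧
      (∀ y ∈ F, φ y = φ x * inner ℝ x y) ∧ tau d G lam k ≤ φ x := by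
  have hd' : (2 : ℝ) ≤ d := by exact_mod_cast hd
  have hd0 : (0 : ℝ) < d := by linarith
  have hk1' : (1 : ℝ) ≤ k := by exact_mod_cast hk1
  have hk0 : (0 : ℝ) < k := by linarith
  have hG0 : 0 < G := by linarith
  have hlam0 : 0 < lam := by linarith
  set L : ℝ := Real.log (d + 1) with hL
  have hL1 : 1 ≤ L := by
    rw [hL, Real.le_log_iff_exp_le (by positivity)]
    have := Real.exp_one_lt_d9
    linarith
  have hL0 : 0 < L := by linarith
  have hτ0 : 0 < tau d G lam k := by
    unfold tau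
    rw [← hL]
    positivity
  -- the number of steps
  set j : ℕ := ⌈Real.logb 2 (16 * d * G / k)⌉₊ with hj
  have hkd : (k : ℝ) ≤ d := by
    have h1 : finrank ℝ F ≤ finrank ℝ (Eu d) := Submodule.finrank_le F
    rw [finrank_euclideanSpace_fin, hk] at h1
    exact_mod_cast h1
  have h64 : 64 ≤ 16 * d * G / k := by
    rw [le_div_iff₀ hk0]
    nlinarith
  have hlogb6 : 6 ≤ Real.logb 2 (16 * d * G / k) := by
    rw [Real.le_logb_iff_rpow_le (by norm_num) (by positivity)]
    norm_num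
    exact h64
  have hj1 : Real.logb 2 (16 * d * G / k) ≤ j := Nat.le_ceil _
  have hj2 : (j : ℝ) < Real.logb 2 (16 * d * G / k) + 1 := Nat.ceil_lt_add_one (by linarith)
  have hj4 : 4 ≤ j := by
    have : (4 : ℝ) ≤ j := by linarith
    exact_mod_cast this
  have h2j1 : 16 * d * G / k ≤ 2 ^ j := by
    rw [← Real.rpow_natCast, ← Real.logb_le_iff_le_rpow (by norm_num) (by positivity)]
    exact hj1
  have h2j2 : (2 : ℝ) ^ j ≤ 32 * d * G / k := by
    have h1 : (2 : ℝ) ^ j ≤ 2 ^ (Real.logb 2 (16 * d * G / k) + 1) := by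
      rw [← Real.rpow_natCast]
      exact Real.rpow_le_rpow_of_exponent_le (by norm_num) hj2.le
    rw [Real.rpow_add (by norm_num), Real.rpow_logb (by norm_num) (by norm_num) (by positivity),
      Real.rpow_one] at h1
    refine h1.trans (le_of_eq ?_)
    ring
  have hj10 : (j : ℝ) ≤ 10 * L := by
    have h1 : Real.logb 2 (16 * d * G / k) ≤ Real.logb 2 (64 * d ^ 2) := by
      apply Real.logb_le_logb_of_le (by norm_num) (by positivity)
      rw [div_le_iff₀ hk0]
      nlinarith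
    have h2 : Real.logb 2 (64 * (d : ℝ) ^ 2) = 6 + 2 * (Real.log d / Real.log 2) := by
      rw [Real.logb_mul (by norm_num) (by positivity), Real.logb_pow]
      have : Real.logb 2 64 = 6 := by
        rw [show (64 : ℝ) = 2 ^ (6 : ℝ) by norm_num, Real.logb_rpow (by norm_num) (by norm_num)]
      rw [this]
      rfl
    have h3 : Real.log d ≤ L := Real.log_le_log hd0 (by linarith)
    have hl := Real.log_two_gt_d9
    have hl2 : 0 < Real.log 2 := by linarith
    have h4 : Real.log d / Real.log 2 ≤ 1.5 * L := by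
      rw [div_le_iff₀ hl2]
      nlinarith
    linarith
  by_cases hcase : 3 * j * lam ≤ k
  · -- the criterion
    set t : ℝ := k / (2500 * 2 ^ j * j ^ 2 * lam ^ 2 * d) with ht
    have hj0 : (0 : ℝ) < j := by exact_mod_cast (by omega : 0 < j)
    have ht0 : 0 < t := by positivity
    have htτ : tau d G lam k ≤ t := by
      unfold tau
      rw [ht, ← hL, div_pow, div_div, div_le_div_iff₀ (by positivity) (by positivity)]
      have h1 : (2 : ℝ) ^ j * k ≤ 32 * d * G := by
        rw [le_div_iff₀ hk0] at h2j2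
        exact h2j2
      have h2 : (j : ℝ) ^ 2 ≤ (10 * L) ^ 2 := by gcongr
      calc (k : ℝ) ^ 2 * (2500 * 2 ^ j * j ^ 2 * lam ^ 2 * d)
          = (2 ^ j * k) * (j ^ 2) * (2500 * lam ^ 2 * d * k) := by ring
        _ ≤ (32 * d * G) * ((10 * L) ^ 2) * (2500 * lam ^ 2 * d * k) := by gcongr
        _ = _ := by ring
    have hex : ∃ z : Eu d, ∃ v : Eu d, (∀ x, fderiv ℝ p z x = inner ℝ v x) ∧
        t ≤ ‖F.starProjection v‖ := by
      by_contra hcon
      push Not at hcon
      apply hnot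
      have hlam' := hlam
      refine cover_local hd p hcont h0 hfin (F.starProjection : Eu d →ₗ[ℝ] Eu d) ?_ k ?_ G t lam j
        hG0.le hG ht0.le hlam hj4 hcase ?_ ?_ ?_
      · intro x
        show F.starProjection (F.starProjection x) = F.starProjection x
        exact Submodule.starProjection_eq_self_iff.2 (F.starProjection_apply_mem x)
      · have : LinearMap.range (F.starProjection : Eu d →ₗ[ℝ] Eu d) = F :=
          Submodule.range_starProjection F
        rw [this, hk]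
      · rw [div_le_iff₀ hk0] at h2j1
        linarith
      · rw [ht]
        apply le_of_eq
        field_simp
      · have hz : ∀ z : Eu d, ∫⁻ z' in {y : Eu d | p y ≤ 1},
            ENNReal.ofReal |fderiv ℝ p z ((F.starProjection : Eu d →ₗ[ℝ] Eu d) z')|
            ≤ ENNReal.ofReal t * volume {y : Eu d | p y ≤ 1} := by
          intro z
          obtain ⟨v, hv⟩ := exists_riesz (fderiv ℝ p z : Eu d →ₗ[ℝ] ℝ)
          have h1 := hcon z v hv
          have h2 : ∀ z' : Eu d, fderiv ℝ p z ((F.starProjection : Eu d →ₗ[ℝ] Eu d) z')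
              = inner ℝ (F.starProjection v) z' := by
            intro z'
            have h3 := hv (F.starProjection z')
            rw [inner_star] at h3
            exact h3
          simp only [h2]
          refine (iso_first p hiso (F.starProjection v)).trans ?_
          gcongr
        calc ∫⁻ z in {y : Eu d | p y ≤ 1}, ∫⁻ z' in {y : Eu d | p y ≤ 1},
              ENNReal.ofReal |fderiv ℝ p z ((F.starProjection : Eu d →ₗ[ℝ] Eu d) z')|
            ≤ ∫⁻ _ in {y : Eu d | p y ≤ 1}, ENNReal.ofReal t * volume {y : Eu d | p y ≤ 1} :=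
              lintegral_mono fun z => hz z
          _ = _ := by
              rw [setLIntegral_const, mul_assoc]
    obtain ⟨z, v, hv, hw⟩ := hex
    obtain ⟨φ, h1, x, h2, h3, h4, h5⟩ := from_vec p F (fderiv ℝ p z : Eu d →ₗ[ℝ] ℝ)
      (fun x => fder_le p z x) v (fun x => hv x) t ht0 hw
    exact ⟨φ, h1, x, h2, h3, h4, htτ.trans h5⟩
  · -- small dimension
    push Not at hcase
    have hkL : (k : ℝ) ≤ 30 * L * lam := by
      refine hcase.le.trans ?_
      nlinarith
    have hne : F ≠ ⊥ := by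
      rintro rfl
      rw [finrank_bot] at hk
      omega
    obtain ⟨x₁, hx₁F, hx₁⟩ := Submodule.exists_mem_ne_zero_of_ne_bot hne
    set x₀ : Eu d := ‖x₁‖⁻¹ • x₁ with hx₀
    have hx₀F : x₀ ∈ F := F.smul_mem _ hx₁F
    have hx₀1 : ‖x₀‖ = 1 := by
      rw [hx₀, norm_smul, norm_inv, norm_norm, inv_mul_cancel₀ (norm_ne_zero_iff.2 hx₁)]
    obtain ⟨φ, hφ1, hφ2⟩ := exists_norming p x₀
    obtain ⟨v, hv⟩ := exists_riesz φ
    have hw : 1 / (8 * ((d : ℝ) + 2)) ≤ ‖F.starProjection v‖ := by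
      have h1 := iso_lower p hcont h0 hfin hiso x₀
      rw [hx₀1] at h1
      have h2 : φ x₀ = inner ℝ (F.starProjection v) x₀ := by
        rw [hv, ← inner_star, Submodule.starProjection_eq_self_iff.2 hx₀F]
      rw [div_le_iff₀ (by positivity)]
      calc 1 ≤ 8 * ((d : ℝ) + 2) * p x₀ := h1
        _ = 8 * ((d : ℝ) + 2) * inner ℝ (F.starProjection v) x₀ := by rw [← hφ1, h2]
        _ ≤ 8 * ((d : ℝ) + 2) * (‖F.starProjection v‖ * ‖x₀‖) := by
            gcongr
            exact real_inner_le_norm _ _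
        _ = _ := by rw [hx₀1]; ring
    obtain ⟨φ, h1, x, h2, h3, h4, h5⟩ := from_vec p F φ hφ2 v hv _ (by positivity) hw
    refine ⟨φ, h1, x, h2, h3, h4, le_trans ?_ h5⟩
    unfold tau
    rw [← hL, div_pow, div_div, div_le_div_iff₀ (by positivity) (by positivity)]
    calc (k : ℝ) ^ 2 * (8 * (d + 2)) ≤ (30 * L * lam) ^ 2 * (8 * (d + d)) := by gcongr
      _ = 14400 * (L ^ 2 * lam ^ 2 * d) := by ring
      _ ≤ (8 * 10 ^ 6 * 4 * 2) * (L ^ 2 * lam ^ 2 * d) := by
          apply mul_le_mul_of_nonneg_right (by norm_num)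
          positivity
      _ ≤ (8 * 10 ^ 6 * G * d) * (L ^ 2 * lam ^ 2 * d) := by
          apply mul_le_mul_of_nonneg_right _ (by positivity)
          nlinarith
      _ = _ := by ring

end Pool.Agent.J4H21.FL
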