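import Mathlib
import Pool.Agent.J4H21.FL.Step

set_option autoImplicit false

/-!
Uncovered bodies in isotropic position: a triangular system of functionals, and the
parallelotope.
-/

namespace Pool.Agent.J4H21.FL

open MeasureTheory Set Module
open scoped ENNReal Pointwise NNReal
open Pool.Agent.H815R2.Flat

variable {d : ℕ}

theorem tau_mono (d : ℕ) (G lam : ℝ) (hG : 0 ≤ G) (k l : ℕ) (h : k ≤ l) :
    tau d G lam k ≤ tau d G lam l := by
  unfold tau
  gcongr

theorem greedy (hd : 2 ≤ d) (p : Seminorm ℝ (Eu d)) (hcont : Continuous p)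
    (h0 : volume {y : Eu d | p y ≤ 1} ≠ 0)
    (hfin : volume {y : Eu d | p y ≤ 1} ≠ ⊤) (hiso : Iso p) (G lam : ℝ) (hG4 : 4 ≤ G)
    (hGd : G ≤ 4 * d) (hlam : 1 ≤ lam)
    (hG : ∀ F : Submodule ℝ (Eu d), volume {z : Eu d | p z ≤ 1 ∧ G < p (F.starProjection z)}
      ≤ ENNReal.ofReal (1 / 4) * volume {y : Eu d | p y ≤ 1})
    (hnot : ¬ Good p lam) (n : ℕ) (hn : n ≤ d) :
    ∃ x : ℕ → Eu d, ∃ φ : ℕ → (Eu d →ₗ[ℝ] ℝ), ∀ i < n, ‖x i‖ = 1 ∧
      (∀ l < i, inner ℝ (x l) (x i) = 0) ∧ (∀ y, |φ i y| ≤ p y) ∧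
      (∀ y, (∀ l < i, inner ℝ (x l) y = 0) → φ i y = φ i (x i) * inner ℝ (x i) y) ∧
      tau d G lam (d - i) ≤ φ i (x i) := by
  classical
  induction n with
  | zero => exact ⟨fun _ => 0, fun _ => 0, fun i hi => absurd hi (by omega)⟩
  | succ n ih =>
    obtain ⟨x, φ, hx⟩ := ih (by omega)
    set W : Submodule ℝ (Eu d) := Submodule.span ℝ ((Finset.range n).image x : Finset (Eu d)) with hW
    have hWrank : finrank ℝ W ≤ n := by
      refine (finrank_span_finset_le_card _).trans ?_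
      exact Finset.card_image_le.trans (by simp)
    have hsum := Submodule.finrank_add_finrank_orthogonal W
    rw [finrank_euclideanSpace_fin] at hsum
    have hFrank : d - n ≤ finrank ℝ Wᗮ := by omega
    obtain ⟨φ', h1, x', h2, h3, h4, h5⟩ := step_sub hd p hcont h0 hfin hiso G lam hG4 hGd hlam Wᗮ
      (finrank ℝ Wᗮ) rfl (by omega) (hG _) hnot
    have hmem : ∀ y : Eu d, (∀ l < n, inner ℝ (x l) y = 0) → y ∈ Wᗮ := by
      intro y hy
      rw [Submodule.mem_orthogonal]
      intro u hu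
      induction hu using Submodule.span_induction with
      | mem u hu =>
        rw [Finset.mem_coe, Finset.mem_image] at hu
        obtain ⟨l, hl, rfl⟩ := hu
        exact hy l (Finset.mem_range.1 hl)
      | zero => simp
      | add u v _ _ hu hv => rw [inner_add_left, hu, hv, add_zero]
      | smul a u _ hu => rw [real_inner_smul_left, hu, mul_zero]
    have hx'0 : ∀ l < n, inner ℝ (x l) x' = 0 := by
      intro l hl
      rw [Submodule.mem_orthogonal] at h2
      apply h2
      apply Submodule.subset_span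
      rw [Finset.mem_coe, Finset.mem_image]
      exact ⟨l, Finset.mem_range.2 hl, rfl⟩
    refine ⟨fun i => if i < n then x i else x', fun i => if i < n then φ i else φ', ?_⟩
    intro i hi
    by_cases hin : i < n
    · obtain ⟨g1, g2, g3, g4, g5⟩ := hx i hin
      have hl : ∀ l < i, (if l < n then x l else x') = x l := fun l hl => if_pos (by omega)
      simp only [if_pos hin]
      refine ⟨g1, fun l hl' => ?_, g3, fun y hy => g4 y fun l hl' => ?_, g5⟩
      · rw [hl l hl']
        exact g2 l hl'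
      · have := hy l hl'
        rwa [hl l hl'] at this
    · have hine : i = n := by omega
      subst hine
      simp only [lt_irrefl, if_false]
      have hl : ∀ l < i, (if l < i then x l else x') = x l := fun l hl => if_pos hl
      refine ⟨h3, fun l hl' => ?_, h1, fun y hy => h4 y (hmem y fun l hl' => ?_), ?_⟩
      · rw [hl l hl']
        exact hx'0 l hl'
      · have := hy l hl'
        rwa [hl l hl'] at this
      · exact (tau_mono d G lam (by linarith) _ _ hFrank).trans h5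

/-- the covering theorem for norms with an upper estimate on orthonormal systems -/
theorem abs_cover (hd : 2 ≤ d) (p : Seminorm ℝ (Eu d)) (hcont : Continuous p)
    (h0 : volume {y : Eu d | p y ≤ 1} ≠ 0)
    (hfin : volume {y : Eu d | p y ≤ 1} ≠ ⊤) (hiso : Iso p) (G lam : ℝ) (hG4 : 4 ≤ G)
    (hGd : G ≤ 4 * d) (hlam : 1 ≤ lam)
    (hG : ∀ F : Submodule ℝ (Eu d), volume {z : Eu d | p z ≤ 1 ∧ G < p (F.starProjection z)}
      ≤ ENNReal.ofReal (1 / 4) * volume {y : Eu d | p y ≤ 1})
    (q B : ℝ) (hq : 0 < q) (hB0 : 0 < B)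
    (hB : ∀ (n : ℕ) (x : Fin n → Eu d) (t : ℝ), 0 < t → Orthonormal ℝ x → (∀ i, t ≤ p (x i)) →
      n * t ^ q ≤ B ^ q)
    (hcond : 2 * (3.2 * 10 ^ 7 * G * Real.log (d + 1) ^ 2 * lam ^ 2 * B) ^ q < d) :
    Good p lam := by
  by_contra hnot
  have hd' : (2 : ℝ) ≤ d := by exact_mod_cast hd
  have hd0 : (0 : ℝ) < d := by linarith
  have hG0 : 0 < G := by linarith
  have hlam0 : 0 < lam := by linarith
  have hL0 : 0 < Real.log ((d : ℝ) + 1) := Real.log_pos (by linarith)
  set n : ℕ := (d + 1) / 2 with hn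
  have hnd : n ≤ d := by omega
  have hnd2 : (d : ℝ) / 2 ≤ n := by
    have : d ≤ 2 * n := by omega
    have h' : (d : ℝ) ≤ 2 * n := by exact_mod_cast this
    linarith
  obtain ⟨x, φ, hx⟩ := greedy hd p hcont h0 hfin hiso G lam hG4 hGd hlam hG hnot n hnd
  set t : ℝ := 1 / (3.2 * 10 ^ 7 * G * Real.log (d + 1) ^ 2 * lam ^ 2) with ht
  have ht0 : 0 < t := by positivity
  have horth : Orthonormal ℝ (fun i : Fin n => x i) := by
    refine ⟨fun i => (hx i i.2).1, fun i l hil => ?_⟩
    rcases lt_or_gt_of_ne (Fin.val_injective.ne hil) with h | h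
    · exact (hx l l.2).2.1 i h
    · rw [real_inner_comm]
      exact (hx i i.2).2.1 l h
  have hlow : ∀ i : Fin n, t ≤ p (x i) := by
    intro i
    obtain ⟨g1, g2, g3, g4, g5⟩ := hx i i.2
    refine le_trans ?_ (g5.trans ((le_abs_self _).trans (g3 _)))
    unfold tau
    have h1 : (1 / 2 : ℝ) ≤ ((d - (i : ℕ) : ℕ) : ℝ) / d := by
      rw [div_le_div_iff₀ (by norm_num) hd0]
      have : d ≤ (d - (i : ℕ)) * 2 := by omega
      have h' : (d : ℝ) ≤ ((d - (i : ℕ) : ℕ) : ℝ) * 2 := by exact_mod_cast this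
      linarith
    rw [ht]
    calc 1 / (3.2 * 10 ^ 7 * G * Real.log (d + 1) ^ 2 * lam ^ 2)
        = (1 / 2) ^ 2 / (8 * 10 ^ 6 * G * Real.log (d + 1) ^ 2 * lam ^ 2) := by
          field_simp
          norm_num
      _ ≤ _ := by gcongr
  have h1 := hB n (fun i : Fin n => x i) t ht0 horth hlow
  have htq : 0 < t ^ q := Real.rpow_pos_of_pos ht0 q
  have h2 : (n : ℝ) ≤ (B / t) ^ q := by
    rw [Real.div_rpow hB0.le ht0.le, le_div_iff₀ htq]
    exact h1
  have h3 : B / t = 3.2 * 10 ^ 7 * G * Real.log (d + 1) ^ 2 * lam ^ 2 * B := by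
    rw [ht]
    field_simp
  rw [h3] at h2
  linarith

end Pool.Agent.J4H21.FL
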