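import Mathlib
import Pool.Agent.J4H21.FL.Greedy

set_option autoImplicit false

/-!
Norms given by `L_e` norms, isotropic position.
-/

namespace Pool.Agent.J4H21.FL

open MeasureTheory Set Module
open scoped ENNReal Pointwise NNReal
open Pool.Agent.H815R2.Flat

variable {d : ℕ} {Ω : Type*} [MeasurableSpace Ω]

/-- the `e`-th power of the `L_e` norm of `ω ↦ ⟨a ω, x⟩` -/
noncomputable def lpp (ν : Measure Ω) (a : Ω → Eu d) (e : ℝ) (x : Eu d) : ℝ≥0∞ :=
  ∫⁻ ω, ENNReal.ofReal (|inner ℝ (a ω) x| ^ e) ∂ν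

section
variable (ν : Measure Ω) [SFinite ν] (a : Ω → Eu d) (ha : Measurable a) (e : ℝ) (he : 1 ≤ e)

include ha in
theorem meas2 (T : Eu d →L[ℝ] Eu d) : Measurable (fun q : Eu d × Ω =>
    ENNReal.ofReal (|inner ℝ (a q.2) (T q.1)| ^ e)) := by
  have h1 : Measurable fun q : Eu d × Ω => inner ℝ (a q.2) (T q.1) :=
    (ha.comp measurable_snd).inner (T.measurable.comp measurable_fst)
  exact ((h1.abs).pow_const e).ennreal_ofReal

include ha in
theorem swap (T : Eu d →L[ℝ] Eu d) (S : Set (Eu d)) :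
    ∫⁻ z in S, lpp ν a e (T z)
      = ∫⁻ ω, (∫⁻ z in S, ENNReal.ofReal (|inner ℝ (a ω) (T z)| ^ e)) ∂ν := by
  unfold lpp
  exact lintegral_lintegral_swap (μ := volume.restrict S) (ν := ν)
    (f := fun z ω => ENNReal.ofReal (|inner ℝ (a ω) (T z)| ^ e)) (meas2 a ha e T).aemeasurable

include ha he in
/-- the mass -/
theorem mass (p : Seminorm ℝ (Eu d)) (hcont : Continuous p)
    (h0 : volume {y : Eu d | p y ≤ 1} ≠ 0)
    (hfin : volume {y : Eu d | p y ≤ 1} ≠ ⊤) (hiso : Iso p) (b : ℝ)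
    (hb : ∫⁻ z in {y : Eu d | p y ≤ 1}, lpp ν a e z
      ≤ ENNReal.ofReal (b ^ e) * volume {y : Eu d | p y ≤ 1}) :
    ∫⁻ ω, ENNReal.ofReal ((‖a ω‖ / 7.7) ^ e) ∂ν ≤ ENNReal.ofReal (b ^ e) := by
  rw [← ENNReal.mul_le_mul_iff_left h0 hfin, ← lintegral_mul_const' _ _ hfin]
  refine le_trans ?_ hb
  have h1 := swap ν a ha e (ContinuousLinearMap.id ℝ (Eu d)) {y : Eu d | p y ≤ 1}
  simp only [ContinuousLinearMap.id_apply] at h1
  rw [h1]
  exact lintegral_mono fun ω => iso_moment_lower p hcont h0 hfin hiso (a ω) e he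

include ha he in
theorem G_bound (p : Seminorm ℝ (Eu d)) (hcont : Continuous p)
    (h0 : volume {y : Eu d | p y ≤ 1} ≠ 0)
    (hfin : volume {y : Eu d | p y ≤ 1} ≠ ⊤) (hiso : Iso p) (b : ℝ) (hb0 : 0 < b)
    (hup : ∀ x, ENNReal.ofReal (p x ^ e) ≤ lpp ν a e x)
    (hb : ∫⁻ z in {y : Eu d | p y ≤ 1}, lpp ν a e z
      ≤ ENNReal.ofReal (b ^ e) * volume {y : Eu d | p y ≤ 1}) (F : Submodule ℝ (Eu d)) :
    volume {z : Eu d | p z ≤ 1 ∧ 204 * e * b < p (F.starProjection z)}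
      ≤ ENNReal.ofReal (1 / 4) * volume {y : Eu d | p y ≤ 1} := by
  have he0 : 0 < e := by linarith
  have hm := mass ν a ha e he p hcont h0 hfin hiso b hb
  set V := volume {y : Eu d | p y ≤ 1} with hV
  have hKm : MeasurableSet {y : Eu d | p y ≤ 1} :=
    (isClosed_le hcont continuous_const).measurableSet
  -- the mean
  have h1 : ∫⁻ z in {y : Eu d | p y ≤ 1}, lpp ν a e (F.starProjection z)
      ≤ ENNReal.ofReal (3 * (16.94 * e * b) ^ e) * V := by
    rw [swap ν a ha e F.starProjection]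
    have h2 : ∀ ω, ∫⁻ z in {y : Eu d | p y ≤ 1},
        ENNReal.ofReal (|inner ℝ (a ω) (F.starProjection z)| ^ e)
        ≤ (ENNReal.ofReal (3 * (16.94 * e) ^ e) * V) * ENNReal.ofReal ((‖a ω‖ / 7.7) ^ e) := by
      intro ω
      have h3 : ∀ z, inner ℝ (a ω) (F.starProjection z) = inner ℝ (F.starProjection (a ω)) z :=
        fun z => inner_star F (a ω) z
      simp only [h3]
      refine (iso_moment p hcont hfin hiso _ e he).trans ?_
      rw [mul_right_comm (ENNReal.ofReal (3 * (16.94 * e) ^ e)), ← ENNReal.ofReal_mul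
        (by positivity)]
      refine mul_le_mul' (ENNReal.ofReal_le_ofReal ?_) le_rfl
      have h4 : ‖F.starProjection (a ω)‖ ≤ ‖a ω‖ := F.norm_starProjection_apply_le (a ω)
      calc 3 * (2.2 * e * ‖F.starProjection (a ω)‖) ^ e ≤ 3 * (2.2 * e * ‖a ω‖) ^ e := by gcongr
        _ = 3 * ((16.94 * e) * (‖a ω‖ / 7.7)) ^ e := by
            congr 2
            ring
        _ = _ := by
            rw [Real.mul_rpow (by positivity) (by positivity)]
            ring
    calc ∫⁻ ω, (∫⁻ z in {y : Eu d | p y ≤ 1},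
          ENNReal.ofReal (|inner ℝ (a ω) (F.starProjection z)| ^ e)) ∂ν
        ≤ ∫⁻ ω, (ENNReal.ofReal (3 * (16.94 * e) ^ e) * V)
          * ENNReal.ofReal ((‖a ω‖ / 7.7) ^ e) ∂ν := lintegral_mono h2
      _ = (ENNReal.ofReal (3 * (16.94 * e) ^ e) * V)
          * ∫⁻ ω, ENNReal.ofReal ((‖a ω‖ / 7.7) ^ e) ∂ν :=
          lintegral_const_mul' _ _ (ENNReal.mul_ne_top ENNReal.ofReal_ne_top hfin)
      _ ≤ (ENNReal.ofReal (3 * (16.94 * e) ^ e) * V) * ENNReal.ofReal (b ^ e) := by gcongr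
      _ = _ := by
          rw [mul_right_comm, ← ENNReal.ofReal_mul (by positivity), mul_assoc,
            ← Real.mul_rpow (by positivity) hb0.le]
  -- Markov
  set A : Set (Eu d) := {z : Eu d | p z ≤ 1 ∧ 204 * e * b < p (F.starProjection z)} with hA
  have hAm : MeasurableSet A :=
    (isClosed_le hcont continuous_const).measurableSet.inter
      (isOpen_lt continuous_const (hcont.comp F.starProjection.continuous)).measurableSet
  have h2 : ENNReal.ofReal ((204 * e * b) ^ e) * volume A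
      ≤ ENNReal.ofReal (3 * (16.94 * e * b) ^ e) * V := by
    refine le_trans ?_ h1
    calc ENNReal.ofReal ((204 * e * b) ^ e) * volume A
        = ∫⁻ _ in A, ENNReal.ofReal ((204 * e * b) ^ e) := by rw [setLIntegral_const]
      _ ≤ ∫⁻ z in A, lpp ν a e (F.starProjection z) := by
          refine setLIntegral_mono' hAm fun z hz => ?_
          refine le_trans (ENNReal.ofReal_le_ofReal ?_) (hup _)
          exact Real.rpow_le_rpow (by positivity) hz.2.le he0.le
      _ ≤ _ := lintegral_mono_set fun z hz => hz.1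
  have h3 : 3 * (16.94 * e * b) ^ e ≤ (204 * e * b) ^ e * (1 / 4) := by
    have e1 : 204 * e * b = (204 / 16.94) * (16.94 * e * b) := by ring
    have e2 : (204 * e * b) ^ e = (204 / 16.94) ^ e * (16.94 * e * b) ^ e := by
      rw [e1]
      exact Real.mul_rpow (by norm_num) (by positivity)
    rw [e2]
    have h4 : (12 : ℝ) ≤ (204 / 16.94) ^ e := by
      calc (12 : ℝ) ≤ (204 / 16.94) ^ (1 : ℝ) := by norm_num
        _ ≤ _ := Real.rpow_le_rpow_of_exponent_le (by norm_num) he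
    have h5 : 0 ≤ (16.94 * e * b) ^ e := by positivity
    nlinarith
  have h6 : 0 < (204 * e * b) ^ e := by positivity
  have h7 : ENNReal.ofReal ((204 * e * b) ^ e) * volume A
      ≤ ENNReal.ofReal ((204 * e * b) ^ e) * (ENNReal.ofReal (1 / 4) * V) := by
    refine h2.trans ?_
    rw [← mul_assoc, ← ENNReal.ofReal_mul h6.le]
    exact mul_le_mul' (ENNReal.ofReal_le_ofReal h3) le_rfl
  exact (ENNReal.mul_le_mul_iff_right (ENNReal.ofReal_pos.2 h6).ne' ENNReal.ofReal_ne_top).1 h7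

omit [MeasurableSpace Ω] in
include he in
/-- the pointwise inequality for orthonormal systems -/
theorem orth_pt (n : ℕ) (x : Fin n → Eu d) (hx : Orthonormal ℝ x) (v : Eu d) :
    ∑ i, |inner ℝ v (x i)| ^ e ≤ (n : ℝ) ^ (1 - e / (max e 2)) * ‖v‖ ^ e := by
  have he0 : 0 < e := by linarith
  have hB : ∑ i, |inner ℝ v (x i)| ^ 2 ≤ ‖v‖ ^ 2 := by
    have h1 := hx.sum_inner_products_le v (s := Finset.univ)
    refine le_trans (le_of_eq ?_) h1
    refine Finset.sum_congr rfl fun i _ => ?_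
    rw [real_inner_comm, Real.norm_eq_abs]
  rcases Nat.eq_zero_or_pos n with rfl | hn
  · simp only [Finset.univ_eq_empty, Finset.sum_empty]
    positivity
  have hn0 : (0 : ℝ) < n := by exact_mod_cast hn
  rcases le_total 2 e with h2 | h2
  · rw [max_eq_left h2, div_self he0.ne', sub_self, Real.rpow_zero, one_mul]
    rcases eq_or_ne v 0 with rfl | hv
    · simp [Real.zero_rpow he0.ne']
    have hvn : 0 < ‖v‖ := norm_pos_iff.2 hv
    have h3 : ∀ i, |inner ℝ v (x i)| ^ e ≤ |inner ℝ v (x i)| ^ 2 * ‖v‖ ^ (e - 2) := by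
      intro i
      rcases (abs_nonneg (inner ℝ v (x i))).eq_or_lt with h4 | h4
      · rw [← h4, Real.zero_rpow he0.ne']
        positivity
      · have h5 : |inner ℝ v (x i)| ≤ ‖v‖ := by
          have := abs_real_inner_le_norm v (x i)
          rwa [hx.1 i, mul_one] at this
        have e1 : |inner ℝ v (x i)| ^ e = |inner ℝ v (x i)| ^ 2 * |inner ℝ v (x i)| ^ (e - 2) := by
          rw [← Real.rpow_natCast, ← Real.rpow_add h4]
          congr 1
          push_cast
          ring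
        rw [e1]
        have h6 : |inner ℝ v (x i)| ^ (e - 2) ≤ ‖v‖ ^ (e - 2) :=
          Real.rpow_le_rpow h4.le h5 (by linarith)
        gcongr
    calc ∑ i, |inner ℝ v (x i)| ^ e ≤ ∑ i, |inner ℝ v (x i)| ^ 2 * ‖v‖ ^ (e - 2) :=
          Finset.sum_le_sum fun i _ => h3 i
      _ = (∑ i, |inner ℝ v (x i)| ^ 2) * ‖v‖ ^ (e - 2) := by rw [Finset.sum_mul]
      _ ≤ ‖v‖ ^ 2 * ‖v‖ ^ (e - 2) := by gcongr
      _ = ‖v‖ ^ e := by
          rw [← Real.rpow_natCast, ← Real.rpow_add hvn]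
          congr 1
          push_cast
          ring
  · rw [max_eq_right h2]
    have h3 := Real.rpow_sum_le_const_mul_sum_rpow_of_nonneg (s := Finset.univ)
      (f := fun i : Fin n => |inner ℝ v (x i)| ^ e) (p := 2 / e)
      (by rw [le_div_iff₀ he0]; linarith) (fun i _ => by positivity)
    have h4 : ∀ i, (|inner ℝ v (x i)| ^ e) ^ (2 / e) = |inner ℝ v (x i)| ^ 2 := by
      intro i
      rw [← Real.rpow_mul (abs_nonneg _), mul_div_cancel₀ _ he0.ne']
      exact Real.rpow_natCast _ 2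
    simp only [h4, Finset.card_univ, Fintype.card_fin] at h3
    have h5 : (∑ i, |inner ℝ v (x i)| ^ e) ^ (2 / e) ≤ (n : ℝ) ^ (2 / e - 1) * ‖v‖ ^ 2 :=
      h3.trans (by gcongr)
    have hS0 : 0 ≤ ∑ i, |inner ℝ v (x i)| ^ e := by positivity
    have h6 := Real.rpow_le_rpow (by positivity) h5 (show 0 ≤ e / 2 by positivity)
    rw [← Real.rpow_mul hS0, Real.mul_rpow (by positivity) (by positivity),
      ← Real.rpow_mul hn0.le] at h6
    have e2 : 2 / e * (e / 2) = 1 := by field_simp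
    have e3 : (2 / e - 1) * (e / 2) = 1 - e / 2 := by field_simp
    rw [e2, Real.rpow_one, e3] at h6
    have e4 : (‖v‖ ^ 2) ^ (e / 2) = ‖v‖ ^ e := by
      rw [← Real.rpow_natCast, ← Real.rpow_mul (norm_nonneg v)]
      congr 1
      push_cast
      field_simp
    rw [e4] at h6
    exact h6

include ha he in
/-- the upper estimate on orthonormal systems -/
theorem orth_bound (p : Seminorm ℝ (Eu d)) (b : ℝ) (hb0 : 0 < b)
    (hup : ∀ x, ENNReal.ofReal (p x ^ e) ≤ lpp ν a e x)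
    (hm : ∫⁻ ω, ENNReal.ofReal ((‖a ω‖ / 7.7) ^ e) ∂ν ≤ ENNReal.ofReal (b ^ e))
    (n : ℕ) (x : Fin n → Eu d) (t : ℝ) (ht : 0 < t) (hx : Orthonormal ℝ x)
    (hpx : ∀ i, t ≤ p (x i)) : n * t ^ (max e 2) ≤ (7.7 * b) ^ (max e 2) := by
  have he0 : 0 < e := by linarith
  set q := max e 2 with hq
  have hq0 : 0 < q := lt_of_lt_of_le he0 (le_max_left _ _)
  have hqe : e ≤ q := le_max_left _ _
  rcases Nat.eq_zero_or_pos n with rfl | hn
  · simp only [Nat.cast_zero, zero_mul]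
    positivity
  have hn0 : (0 : ℝ) < n := by exact_mod_cast hn
  have h1 : ENNReal.ofReal (n * t ^ e) ≤ ENNReal.ofReal ((n : ℝ) ^ (1 - e / q) * (7.7 * b) ^ e) := by
    calc ENNReal.ofReal (n * t ^ e) = ∑ _i : Fin n, ENNReal.ofReal (t ^ e) := by
          rw [ENNReal.ofReal_mul hn0.le, ENNReal.ofReal_natCast]
          simp
      _ ≤ ∑ i : Fin n, lpp ν a e (x i) := by
          refine Finset.sum_le_sum fun i _ => le_trans (ENNReal.ofReal_le_ofReal ?_) (hup (x i))
          exact Real.rpow_le_rpow ht.le (hpx i) he0.le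
      _ = ∫⁻ ω, ∑ i : Fin n, ENNReal.ofReal (|inner ℝ (a ω) (x i)| ^ e) ∂ν := by
          unfold lpp
          rw [lintegral_finsetSum]
          intro i _
          have : Measurable fun ω => inner ℝ (a ω) (x i) := ha.inner measurable_const
          exact ((this.abs).pow_const e).ennreal_ofReal
      _ ≤ ∫⁻ ω, ENNReal.ofReal ((n : ℝ) ^ (1 - e / q) * 7.7 ^ e)
            * ENNReal.ofReal ((‖a ω‖ / 7.7) ^ e) ∂ν := by
          refine lintegral_mono fun ω => ?_
          rw [← ENNReal.ofReal_sum_of_nonneg fun i _ => by positivity,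
            ← ENNReal.ofReal_mul (by positivity)]
          apply ENNReal.ofReal_le_ofReal
          refine (orth_pt e he n x hx (a ω)).trans (le_of_eq ?_)
          rw [← hq, Real.div_rpow (norm_nonneg _) (by norm_num)]
          have : (0 : ℝ) < 7.7 ^ e := by positivity
          field_simp
      _ = ENNReal.ofReal ((n : ℝ) ^ (1 - e / q) * 7.7 ^ e)
            * ∫⁻ ω, ENNReal.ofReal ((‖a ω‖ / 7.7) ^ e) ∂ν :=
          lintegral_const_mul' _ _ ENNReal.ofReal_ne_top
      _ ≤ ENNReal.ofReal ((n : ℝ) ^ (1 - e / q) * 7.7 ^ e) * ENNReal.ofReal (b ^ e) := by gcongr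
      _ = _ := by
          rw [← ENNReal.ofReal_mul (by positivity), Real.mul_rpow (by norm_num) hb0.le, mul_assoc]
  rw [ENNReal.ofReal_le_ofReal_iff (by positivity)] at h1
  have h2 : (n : ℝ) ^ (e / q) * t ^ e ≤ (7.7 * b) ^ e := by
    have h3 : (n : ℝ) = (n : ℝ) ^ (1 - e / q) * (n : ℝ) ^ (e / q) := by
      rw [← Real.rpow_add hn0, sub_add_cancel, Real.rpow_one]
    have h4 : (n : ℝ) ^ (1 - e / q) * ((n : ℝ) ^ (e / q) * t ^ e)
        ≤ (n : ℝ) ^ (1 - e / q) * (7.7 * b) ^ e := by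
      rw [← mul_assoc, ← h3]
      exact h1
    exact le_of_mul_le_mul_left h4 (by positivity)
  have h3 := Real.rpow_le_rpow (by positivity) h2 (show 0 ≤ q / e by positivity)
  rw [Real.mul_rpow (by positivity) (by positivity), ← Real.rpow_mul hn0.le,
    ← Real.rpow_mul ht.le, ← Real.rpow_mul (by positivity)] at h3
  have e1 : e / q * (q / e) = 1 := by field_simp
  have e2 : e * (q / e) = q := by field_simp
  rw [e1, e2, Real.rpow_one] at h3
  exact h3

include ha he in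
/-- the covering theorem in isotropic position -/
theorem lp_iso (hd : 2 ≤ d) (p : Seminorm ℝ (Eu d)) (hcont : Continuous p)
    (h0 : volume {y : Eu d | p y ≤ 1} ≠ 0)
    (hfin : volume {y : Eu d | p y ≤ 1} ≠ ⊤) (hiso : Iso p) (b : ℝ) (hb1 : 1 ≤ b)
    (hup : ∀ x, ENNReal.ofReal (p x ^ e) ≤ lpp ν a e x)
    (hb : ∫⁻ z in {y : Eu d | p y ≤ 1}, lpp ν a e z
      ≤ ENNReal.ofReal (b ^ e) * volume {y : Eu d | p y ≤ 1})
    (lam : ℝ) (hlam : 1 ≤ lam)
    (hcond : (10 ^ 11 * e * b ^ 2 * lam ^ 2 * Real.log (d + 1) ^ 2) ^ (max e 2) ≤ d) :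
    Good p lam := by
  have he0 : 0 < e := by linarith
  have hb0 : 0 < b := by linarith
  have hd' : (2 : ℝ) ≤ d := by exact_mod_cast hd
  have hL1 : 1 ≤ Real.log ((d : ℝ) + 1) := by
    rw [Real.le_log_iff_exp_le (by positivity)]
    have := Real.exp_one_lt_d9
    linarith
  set L := Real.log ((d : ℝ) + 1) with hL
  set q := max e 2 with hq
  have hq2 : 2 ≤ q := le_max_right _ _
  set X : ℝ := 10 ^ 11 * e * b ^ 2 * lam ^ 2 * L ^ 2 with hX
  have hb2 : b ≤ b ^ 2 := by nlinarith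
  have hlam2 : 1 ≤ lam ^ 2 := one_le_pow₀ hlam
  have hL2 : 1 ≤ L ^ 2 := one_le_pow₀ hL1
  have heb : 1 ≤ e * b := by nlinarith
  have hXeb : 10 ^ 11 * (e * b) ≤ X := by
    calc 10 ^ 11 * (e * b) ≤ 10 ^ 11 * (e * b ^ 2) * 1 * 1 := by
          rw [mul_one, mul_one]
          gcongr
      _ ≤ 10 ^ 11 * (e * b ^ 2) * lam ^ 2 * L ^ 2 := by gcongr
      _ = X := by rw [hX]; ring
  have hX1 : 1 ≤ X := by
    have : (1 : ℝ) ≤ 10 ^ 11 * (e * b) := by nlinarith
    linarith
  have hX0 : 0 < X := by linarith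
  have hXd : X ≤ d := by
    calc X = X ^ (1 : ℝ) := (Real.rpow_one X).symm
      _ ≤ X ^ q := Real.rpow_le_rpow_of_exponent_le hX1 (by linarith)
      _ ≤ d := hcond
  refine abs_cover hd p hcont h0 hfin hiso (204 * e * b) lam (by nlinarith) (by nlinarith) hlam
    (G_bound ν a ha e he p hcont h0 hfin hiso b hb0 hup hb) q (7.7 * b) (by linarith)
    (by positivity)
    (orth_bound ν a ha e he p b hb0 hup (mass ν a ha e he p hcont h0 hfin hiso b hb)) ?_
  rw [← hL]
  have e1 : 3.2 * 10 ^ 7 * (204 * e * b) * L ^ 2 * lam ^ 2 * (7.7 * b)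
      = (3.2 * 10 ^ 7 * 204 * 7.7 / 10 ^ 11) * X := by
    rw [hX]
    ring
  rw [e1, Real.mul_rpow (by norm_num) hX0.le]
  have h1 : (3.2 * 10 ^ 7 * 204 * 7.7 / 10 ^ 11 : ℝ) ^ q < 1 / 2 := by
    calc (3.2 * 10 ^ 7 * 204 * 7.7 / 10 ^ 11 : ℝ) ^ q
        ≤ (3.2 * 10 ^ 7 * 204 * 7.7 / 10 ^ 11 : ℝ) ^ (2 : ℝ) :=
          Real.rpow_le_rpow_of_exponent_ge (by norm_num) (by norm_num) hq2
      _ < 1 / 2 := by
          rw [show (2 : ℝ) = ((2 : ℕ) : ℝ) by norm_num, Real.rpow_natCast]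
          norm_num
  have h2 : 0 < X ^ q := by positivity
  calc 2 * ((3.2 * 10 ^ 7 * 204 * 7.7 / 10 ^ 11 : ℝ) ^ q * X ^ q)
      < 2 * (1 / 2 * X ^ q) := by gcongr
    _ = X ^ q := by ring
    _ ≤ d := hcond

end

end Pool.Agent.J4H21.FL
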