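import Mathlib
import Pool.Agent.J4H21.FL.Step

set_option autoImplicit false

/-!
The isotropic position.
-/

namespace Pool.Agent.J4H21.FL

open MeasureTheory Set Module
open scoped ENNReal Pointwise NNReal
open Pool.Agent.H815R2.Flat

variable {d : ℕ}

/-- the norm in new coordinates -/
noncomputable def tr (p : Seminorm ℝ (Eu d)) (S : Eu d ≃L[ℝ] Eu d) : Seminorm ℝ (Eu d) :=
  p.comp (S.symm : Eu d →ₗ[ℝ] Eu d)

theorem tr_apply (p : Seminorm ℝ (Eu d)) (S : Eu d ≃L[ℝ] Eu d) (y : Eu d) :
    tr p S y = p (S.symm y) := rfl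

/-- change of variables -/
theorem change (p : Seminorm ℝ (Eu d)) (hcont : Continuous p) (S : Eu d ≃L[ℝ] Eu d) :
    ∃ c : ℝ≥0∞, c ≠ 0 ∧ c ≠ ⊤ ∧ ∀ F : Eu d → ℝ≥0∞, Measurable F →
      ∫⁻ x in {y : Eu d | p y ≤ 1}, F (S x) = c * ∫⁻ y in {y : Eu d | tr p S y ≤ 1}, F y := by
  have hdet : LinearMap.det (S : Eu d →ₗ[ℝ] Eu d) ≠ 0 :=
    (LinearEquiv.isUnit_det' S.toLinearEquiv).ne_zero
  refine ⟨ENNReal.ofReal |(LinearMap.det (S : Eu d →ₗ[ℝ] Eu d))⁻¹|, ?_, ENNReal.ofReal_ne_top,
    fun F hF => ?_⟩
  · rw [Ne, ENNReal.ofReal_eq_zero, not_le]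
    exact abs_pos.2 (inv_ne_zero hdet)
  have hmap := Measure.map_linearMap_addHaar_eq_smul_addHaar (volume : Measure (Eu d)) hdet
  have hm' : MeasurableSet {y : Eu d | tr p S y ≤ 1} :=
    (isClosed_le (hcont.comp S.symm.continuous) continuous_const).measurableSet
  have hm : MeasurableSet {y : Eu d | p y ≤ 1} :=
    (isClosed_le hcont continuous_const).measurableSet
  have hSm : Measurable (S : Eu d →ₗ[ℝ] Eu d) := S.continuous.measurable
  rw [← lintegral_indicator hm, ← lintegral_indicator hm']
  have h1 : ∫⁻ x, ({y : Eu d | tr p S y ≤ 1}).indicator F x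
      ∂(Measure.map (S : Eu d →ₗ[ℝ] Eu d) volume)
      = ∫⁻ x, ({y : Eu d | tr p S y ≤ 1}).indicator F ((S : Eu d →ₗ[ℝ] Eu d) x) :=
    lintegral_map (hF.indicator hm') hSm
  rw [hmap, lintegral_smul_measure, smul_eq_mul] at h1
  rw [h1]
  refine lintegral_congr fun x => ?_
  have hiff : p x ≤ 1 ↔ tr p S (S x) ≤ 1 := by
    rw [tr_apply, ContinuousLinearEquiv.symm_apply_apply]
  by_cases hx : p x ≤ 1
  · rw [indicator_of_mem (show x ∈ {y : Eu d | p y ≤ 1} from hx), indicator_of_mem]
    · rfl
    · exact hiff.1 hx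
  · rw [indicator_of_notMem (show x ∉ {y : Eu d | p y ≤ 1} from hx), indicator_of_notMem]
    intro h
    exact hx (hiff.2 h)

theorem change_vol (p : Seminorm ℝ (Eu d)) (S : Eu d ≃L[ℝ] Eu d) (c : ℝ≥0∞)
    (h : ∀ F : Eu d → ℝ≥0∞, Measurable F →
      ∫⁻ x in {y : Eu d | p y ≤ 1}, F (S x) = c * ∫⁻ y in {y : Eu d | tr p S y ≤ 1}, F y) :
    volume {y : Eu d | p y ≤ 1} = c * volume {y : Eu d | tr p S y ≤ 1} := by
  have h1 := h (fun _ => 1) measurable_const
  rwa [setLIntegral_one, setLIntegral_one] at h1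

theorem good_tr (p : Seminorm ℝ (Eu d)) (S : Eu d ≃L[ℝ] Eu d) (lam : ℝ)
    (h : Good (tr p S) lam) : Good p lam := by
  classical
  obtain ⟨Y, h1, h2⟩ := h
  refine ⟨Y.image S.symm, ?_, fun x hx => ?_⟩
  · refine le_trans ?_ h1
    exact_mod_cast Finset.card_image_le
  · obtain ⟨y, hy, hxy⟩ := h2 (S x) (by rw [tr_apply, ContinuousLinearEquiv.symm_apply_apply]; exact hx)
    refine ⟨S.symm y, Finset.mem_image_of_mem _ hy, ?_⟩
    rw [tr_apply, map_sub, ContinuousLinearEquiv.symm_apply_apply] at hxy
    exact hxy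

/-- the covariance form -/
theorem exists_iso (p : Seminorm ℝ (Eu d)) (hcont : Continuous p)
    (h0 : volume {y : Eu d | p y ≤ 1} ≠ 0) (hcomp : IsCompact {y : Eu d | p y ≤ 1}) :
    ∃ S : Eu d ≃L[ℝ] Eu d, Iso (tr p S) := by
  classical
  set K : Set (Eu d) := {y : Eu d | p y ≤ 1} with hK
  have hfin : volume K ≠ ⊤ := hcomp.measure_lt_top.ne
  have hVr : 0 < (volume K).toReal := ENNReal.toReal_pos h0 hfin
  have hint : ∀ v w : Eu d, IntegrableOn (fun z : Eu d => inner ℝ v z * inner ℝ w z) K := by
    intro v w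
    refine ContinuousOn.integrableOn_compact hcomp ?_
    fun_prop
  -- the bilinear form
  let B : LinearMap.BilinForm ℝ (Eu d) := LinearMap.mk₂ ℝ
    (fun v w => ∫ z in K, inner ℝ v z * inner ℝ w z)
    (fun v v' w => by
      rw [← integral_add (hint v w) (hint v' w)]
      congr 1
      funext z
      rw [inner_add_left]
      ring)
    (fun s v w => by
      rw [smul_eq_mul, ← integral_const_mul]
      congr 1
      funext z
      rw [real_inner_smul_left]
      ring)
    (fun v w w' => by
      rw [← integral_add (hint v w) (hint v w')]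
      congr 1
      funext z
      rw [inner_add_left]
      ring)
    (fun s v w => by
      rw [smul_eq_mul, ← integral_const_mul]
      congr 1
      funext z
      rw [real_inner_smul_left]
      ring)
  have hB : ∀ v w, B v w = ∫ z in K, inner ℝ v z * inner ℝ w z := fun v w => rfl
  have hsym : LinearMap.IsSymm B := by
    refine ⟨fun v w => ?_⟩
    show B v w = B w v
    rw [hB, hB]
    congr 1
    funext z
    ring
  -- `K` is a neighbourhood of `0`
  have hnhds : K ∈ nhds (0 : Eu d) := by
    have h1 : {y : Eu d | p y < 1} ⊆ K := by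
      intro y hy
      have hy' : p y < 1 := hy
      exact hy'.le
    refine Filter.mem_of_superset (IsOpen.mem_nhds (isOpen_lt hcont continuous_const) ?_) h1
    show p 0 < 1
    rw [map_zero]
    exact one_pos
  have hpos : ∀ v : Eu d, v ≠ 0 → 0 < B v v := by
    intro v hv
    rw [hB]
    have hnn : ∀ z : Eu d, 0 ≤ inner ℝ v z * inner ℝ v z := fun z => mul_self_nonneg _
    rw [integral_pos_iff_support_of_nonneg hnn (hint v v)]
    rw [Measure.restrict_apply₀']
    · have hopen : IsOpen {z : Eu d | inner ℝ v z ≠ 0 ∧ p z < 1} := by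
        refine IsOpen.inter ?_ (isOpen_lt hcont continuous_const)
        exact isOpen_ne_fun (by fun_prop) continuous_const
      have hne : {z : Eu d | inner ℝ v z ≠ 0 ∧ p z < 1}.Nonempty := by
        refine ⟨(1 / (p v + 1)) • v, ?_, ?_⟩
        · rw [inner_smul_right, real_inner_self_eq_norm_sq]
          have h1 : 0 ≤ p v := apply_nonneg p v
          have h2 : 0 < ‖v‖ := norm_pos_iff.2 hv
          positivity
        · have h1 : 0 ≤ p v := apply_nonneg p v
          rw [map_smul_eq_mul, Real.norm_of_nonneg (by positivity), one_div, inv_mul_lt_iff₀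
            (by positivity)]
          linarith
      refine lt_of_lt_of_le (hopen.measure_pos volume hne) (measure_mono ?_)
      rintro z ⟨hz1, hz2⟩
      refine ⟨?_, hz2.le⟩
      rw [Function.mem_support]
      exact mul_self_ne_zero.2 hz1
    · exact hcomp.measurableSet.nullMeasurableSet
  have : Invertible (2 : ℝ) := invertibleOfNonzero two_ne_zero
  obtain ⟨v, hv⟩ := LinearMap.BilinForm.exists_orthogonal_basis hsym
  have hrank : finrank ℝ (Eu d) = d := finrank_euclideanSpace_fin
  set V := (volume K).toReal with hV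
  set e := finCongr hrank with he
  -- normalised vectors
  set u : Fin d → Eu d := fun i => (√(V / B (v (e.symm i)) (v (e.symm i)))) • v (e.symm i) with hu
  have hBi : ∀ i, 0 < B (v i) (v i) := fun i => hpos _ (v.ne_zero i)
  have huu : ∀ i l, B (u i) (u l) = if i = l then V else 0 := by
    intro i l
    rw [hu]
    simp only [map_smul, LinearMap.smul_apply, smul_eq_mul]
    split_ifs with h
    · subst h
      have h1 := hBi (e.symm i)
      rw [← mul_assoc, Real.mul_self_sqrt (by positivity)]
      field_simp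
    · have h1 : B (v (e.symm i)) (v (e.symm l)) = 0 :=
        hv (fun h' => h (e.symm.injective h'))
      rw [h1]
      ring
  have hcomb : ∀ w : Eu d, B (∑ i, w i • u i) (∑ i, w i • u i) = V * ‖w‖ ^ 2 := by
    intro w
    rw [EuclideanSpace.norm_sq_eq, Finset.mul_sum]
    simp only [map_sum, map_smul, LinearMap.sum_apply, LinearMap.smul_apply, smul_eq_mul, huu]
    refine Finset.sum_congr rfl fun i _ => ?_
    rw [Real.norm_eq_abs, sq_abs]
    have h1 : ∑ l, w l * (if l = i then V else 0) = w i * V := by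
      simp
    rw [h1]
    ring
  -- the linear map
  let T : Eu d →ₗ[ℝ] Eu d :=
    { toFun := fun x => WithLp.toLp 2 fun i => inner ℝ (u i) x
      map_add' := fun x y => by
        ext i
        simp [inner_add_right]
      map_smul' := fun s x => by
        ext i
        simp [inner_smul_right] }
  have hT : ∀ x i, T x i = inner ℝ (u i) x := fun x i => rfl
  have hTin : ∀ w x : Eu d, inner ℝ w (T x) = inner ℝ (∑ i, w i • u i) x := by
    intro w x
    rw [sum_inner, PiLp.inner_apply]
    refine Finset.sum_congr rfl fun i _ => ?_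
    have h1 : inner ℝ (w i • u i) x = w i * inner ℝ (u i) x := real_inner_smul_left _ _ _
    rw [hT, h1]
    show inner ℝ (u i) x * w i = w i * inner ℝ (u i) x
    ring
  have hinj : Function.Injective T := by
    rw [injective_iff_map_eq_zero]
    intro x hx
    have h1 : ∀ i, inner ℝ (u i) x = 0 := by
      intro i
      rw [← hT, hx]
      rfl
    have h2 : ∀ i, inner ℝ (v i) x = 0 := by
      intro i
      have h3 := h1 (e i)
      rw [hu] at h3
      simp only [Equiv.symm_apply_apply] at h3
      rw [real_inner_smul_left] at h3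
      have h4 := hBi i
      have h5 : 0 < √(V / B (v i) (v i)) := Real.sqrt_pos.2 (by positivity)
      exact (mul_eq_zero.1 h3).resolve_left h5.ne'
    have h3 : ∀ y : Eu d, inner ℝ y x = 0 := by
      intro y
      rw [← v.sum_repr y, sum_inner]
      refine Finset.sum_eq_zero fun i _ => ?_
      rw [real_inner_smul_left, h2, mul_zero]
    exact inner_self_eq_zero.1 (h3 x)
  set S : Eu d ≃L[ℝ] Eu d := (LinearEquiv.ofInjectiveEndo T hinj).toContinuousLinearEquiv with hS
  have hSx : ∀ x, S x = T x := fun x => rfl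
  refine ⟨S, fun w => ?_⟩
  obtain ⟨c, hc0, hct, hc⟩ := change p hcont S
  have hvol := change_vol p S c hc
  have hm : Measurable fun y : Eu d => ENNReal.ofReal ((inner ℝ w y) ^ 2) := by fun_prop
  have h1 := hc _ hm
  rw [← ENNReal.mul_right_inj hc0 hct, ← h1, mul_left_comm, ← hvol]
  have h2 : ∀ x, inner ℝ w (S x) = inner ℝ (∑ i, w i • u i) x := fun x => hTin w x
  simp only [h2]
  rw [← ofReal_integral_eq_lintegral_ofReal]
  · have h3 : ∫ x in K, (inner ℝ (∑ i, w i • u i) x) ^ 2 = V * ‖w‖ ^ 2 := by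
      rw [← hcomb w, hB]
      congr 1
      funext z
      ring
    rw [h3, ENNReal.ofReal_mul hVr.le, hV, ENNReal.ofReal_toReal hfin, mul_comm]
  · refine (hint (∑ i, w i • u i) (∑ i, w i • u i)).congr ?_
    filter_upwards with z
    ring
  · exact Filter.Eventually.of_forall fun z => sq_nonneg _

end Pool.Agent.J4H21.FL
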