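import Mathlib
import Pool.Agent.J4H21.FL.Pos
import Pool.Agent.J4H21.FL.Lp

set_option autoImplicit false

/-!
Norms given by `e`-concave function norms.
-/

namespace Pool.Agent.J4H21.FL

open MeasureTheory Set Module
open scoped ENNReal Pointwise NNReal
open Pool.Agent.H815R2.Flat

variable {d : ℕ} {Ω : Type*} [MeasurableSpace Ω]

/-- A lattice seminorm on the measurable functions which is `e`-concave with the constant `M`. -/
structure ConcaveNorm (ρ : (Ω → ℝ) → ℝ≥0∞) (e M : ℝ) : Prop where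
  mono : ∀ f g : Ω → ℝ, Measurable f → Measurable g → (∀ ω, |f ω| ≤ |g ω|) → ρ f ≤ ρ g
  smul : ∀ (c : ℝ) (f : Ω → ℝ), Measurable f → ρ (fun ω => c * f ω) = ENNReal.ofReal |c| * ρ f
  add : ∀ f g : Ω → ℝ, Measurable f → Measurable g → ρ (fun ω => f ω + g ω) ≤ ρ f + ρ g
  concave : ∀ (n : ℕ) (f : Fin n → Ω → ℝ), (∀ i, Measurable (f i)) →
    ∑ i, ρ (f i) ^ e ≤ ENNReal.ofReal M ^ e * ρ (fun ω => (∑ i, |f i ω| ^ e) ^ (1 / e)) ^ e

section
variable {ρ : (Ω → ℝ) → ℝ≥0∞} {e M : ℝ} (hρ : ConcaveNorm ρ e M)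

include hρ

theorem ConcaveNorm.abs (f : Ω → ℝ) (hf : Measurable f) : ρ (fun ω => |f ω|) = ρ f :=
  le_antisymm (hρ.mono _ _ hf.abs hf fun ω => by rw [abs_abs])
    (hρ.mono _ _ hf hf.abs fun ω => by rw [abs_abs])

theorem ConcaveNorm.zero : ρ (fun _ => 0) = 0 := by
  have h := hρ.smul 0 (fun _ => 0) measurable_const
  simpa using h

theorem ConcaveNorm.sum {ι : Type*} (s : Finset ι) (f : ι → Ω → ℝ) (hf : ∀ i, Measurable (f i)) :
    ρ (fun ω => ∑ i ∈ s, f i ω) ≤ ∑ i ∈ s, ρ (f i) := by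
  classical
  induction s using Finset.induction_on with
  | empty => simp [hρ.zero]
  | insert i s hi ih =>
    simp only [Finset.sum_insert hi]
    refine (hρ.add _ _ (hf i) (Finset.measurable_sum _ fun i _ => hf i)).trans ?_
    gcongr

theorem ConcaveNorm.concave' {ι : Type*} (s : Finset ι) (f : ι → Ω → ℝ)
    (hf : ∀ i, Measurable (f i)) :
    ∑ i ∈ s, ρ (f i) ^ e
      ≤ ENNReal.ofReal M ^ e * ρ (fun ω => (∑ i ∈ s, |f i ω| ^ e) ^ (1 / e)) ^ e := by
  classical
  have h := hρ.concave s.card (fun k => f (s.equivFin.symm k)) (fun k => hf _)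
  have e1 : ∑ k, ρ (f (s.equivFin.symm k)) ^ e = ∑ i ∈ s, ρ (f i) ^ e := by
    rw [← Finset.sum_coe_sort s]
    exact Fintype.sum_equiv s.equivFin.symm _ _ fun k => rfl
  have e2 : ∀ ω, ∑ k, |f (s.equivFin.symm k) ω| ^ e = ∑ i ∈ s, |f i ω| ^ e := by
    intro ω
    rw [← Finset.sum_coe_sort s]
    exact Fintype.sum_equiv s.equivFin.symm _ _ fun k => rfl
  simp only [e1, e2] at h
  exact h

end

/-- the norm on `ℝ^d` -/
noncomputable def nn (ρ : (Ω → ℝ) → ℝ≥0∞) (a : Ω → Eu d) (x : Eu d) : ℝ≥0∞ :=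
  ρ fun ω => inner ℝ (a ω) x

/-- a simple function close to the identity on a compact set -/
theorem exists_simple (K : Set (Eu d)) (hK : IsCompact K) (ε : ℝ) (hε : 0 < ε) :
    ∃ s : SimpleFunc (Eu d) (Eu d), ∀ z ∈ K, ‖s z - z‖ ≤ ε := by
  obtain ⟨N, hN⟩ : ∃ N : ℕ, K ⊆ ⋃ k ≤ N, Metric.ball (TopologicalSpace.denseSeq (Eu d) k) ε := by
    have h1 := hK.elim_finite_subcover
      (fun k : ℕ => Metric.ball (TopologicalSpace.denseSeq (Eu d) k) ε)
      (fun k => Metric.isOpen_ball) (by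
        intro z _
        obtain ⟨k, hk⟩ := (TopologicalSpace.denseRange_denseSeq (Eu d)).exists_dist_lt z hε
        exact mem_iUnion.2 ⟨k, by rwa [Metric.mem_ball]⟩)
    obtain ⟨t, ht⟩ := h1
    refine ⟨t.sup id, ht.trans ?_⟩
    intro z hz
    simp only [mem_iUnion] at hz ⊢
    obtain ⟨k, hk, hz⟩ := hz
    exact ⟨k, Finset.le_sup (f := id) hk, hz⟩
  refine ⟨SimpleFunc.nearestPt (TopologicalSpace.denseSeq (Eu d)) N, fun z hz => ?_⟩
  have h1 := hN hz
  simp only [mem_iUnion] at h1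
  obtain ⟨k, hk, hz'⟩ := h1
  have h2 := SimpleFunc.edist_nearestPt_le (TopologicalSpace.denseSeq (Eu d)) z hk
  rw [edist_dist, edist_dist, ENNReal.ofReal_le_ofReal_iff dist_nonneg] at h2
  rw [← dist_eq_norm]
  refine h2.trans ?_
  rw [Metric.mem_ball, dist_comm] at hz'
  exact hz'.le

theorem simple_int (K : Set (Eu d)) (s : SimpleFunc (Eu d) (Eu d)) (f : Eu d → ℝ≥0∞) :
    ∫⁻ z in K, f (s z) = ∑ y ∈ s.range, f y * (volume.restrict K) (s ⁻¹' {y}) := by
  have h1 := SimpleFunc.map_lintegral (μ := volume.restrict K) f s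
  rw [← h1, ← SimpleFunc.lintegral_eq_lintegral]
  rfl

section
variable {ρ : (Ω → ℝ) → ℝ≥0∞} {e M : ℝ} (hρ : ConcaveNorm ρ e M) (he : 1 ≤ e) (hM : 1 ≤ M)
  (a : Ω → Eu d) (ha : Measurable a) (hfi : ∀ i, ρ (fun ω => a ω i) ≠ ⊤)

include ha in
theorem meas_in (x : Eu d) : Measurable fun ω => inner ℝ (a ω) x := ha.inner measurable_const

include hρ ha in
theorem nn_sub (x y : Eu d) (t : ℝ) (ht : 0 ≤ t) (hxy : ‖x - y‖ ≤ t) :
    nn ρ a x ≤ nn ρ a y + ENNReal.ofReal t * ρ (fun ω => ‖a ω‖) := by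
  have hn : Measurable fun ω => ‖a ω‖ := ha.norm
  have h1 : nn ρ a x ≤ ρ (fun ω => |inner ℝ (a ω) y| + t * ‖a ω‖) := by
    refine hρ.mono _ _ (meas_in a ha x) ((meas_in a ha y).abs.add (hn.const_mul t)) fun ω => ?_
    rw [abs_of_nonneg (by positivity : 0 ≤ |inner ℝ (a ω) y| + t * ‖a ω‖)]
    have h2 : inner ℝ (a ω) x = inner ℝ (a ω) y + inner ℝ (a ω) (x - y) := by
      rw [← inner_add_right]
      congr 1
      abel
    rw [h2]
    refine (abs_add_le _ _).trans ?_
    gcongr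
    refine (abs_real_inner_le_norm _ _).trans ?_
    rw [mul_comm]
    gcongr
  refine h1.trans ((hρ.add _ _ (meas_in a ha y).abs (hn.const_mul t)).trans ?_)
  rw [hρ.abs _ (meas_in a ha y), hρ.smul _ _ hn, abs_of_nonneg ht]
  rfl

include hρ ha hfi in
/-- `ρ (‖a‖)` is finite -/
theorem mass_fin : ρ (fun ω => ‖a ω‖) ≠ ⊤ := by
  have hm : ∀ i : Fin d, Measurable fun ω => a ω i := fun i =>
    (EuclideanSpace.proj i : Eu d →L[ℝ] ℝ).measurable.comp ha
  have h1 : ρ (fun ω => ‖a ω‖) ≤ ∑ i, ρ (fun ω => |a ω i|) := by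
    refine le_trans (hρ.mono _ (fun ω => ∑ i, |a ω i|) ha.norm
      (Finset.measurable_sum _ fun i _ => (hm i).abs) fun ω => ?_)
      (hρ.sum Finset.univ (fun i ω => |a ω i|) fun i => (hm i).abs)
    rw [abs_of_nonneg (norm_nonneg _), abs_of_nonneg (by positivity)]
    have h2 : a ω = ∑ i, EuclideanSpace.single i (a ω i) := by
      ext j
      simp
    calc ‖a ω‖ = ‖∑ i, EuclideanSpace.single i (a ω i)‖ := by rw [← h2]
      _ ≤ ∑ i, ‖(EuclideanSpace.single i (a ω i) : Eu d)‖ := norm_sum_le _ _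
      _ = _ := by simp
  refine ne_top_of_le_ne_top ?_ h1
  rw [ENNReal.sum_ne_top]
  intro i _
  rw [hρ.abs _ (hm i)]
  exact hfi i

include hρ ha in
/-- the mass -/
theorem mass' (p : Seminorm ℝ (Eu d)) (hcont : Continuous p)
    (h0 : volume {y : Eu d | p y ≤ 1} ≠ 0) (hcomp : IsCompact {y : Eu d | p y ≤ 1})
    (hiso : Iso p) (b : ℝ) (hb0 : 0 ≤ b) (hR : ρ (fun ω => ‖a ω‖) ≠ ⊤)
    (hb : ∫⁻ z in {y : Eu d | p y ≤ 1}, nn ρ a z
      ≤ ENNReal.ofReal b * volume {y : Eu d | p y ≤ 1}) :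
    ρ (fun ω => ‖a ω‖) ≤ ENNReal.ofReal (9 * b) := by
  have hfin : volume {y : Eu d | p y ≤ 1} ≠ ⊤ := hcomp.measure_lt_top.ne
  set K : Set (Eu d) := {y : Eu d | p y ≤ 1} with hK
  have hKm : MeasurableSet K := hcomp.measurableSet
  set R := ρ (fun ω => ‖a ω‖) with hRdef
  obtain ⟨s, hs⟩ := exists_simple K hcomp 0.009 (by norm_num)
  set μ := volume.restrict K with hμ
  set v : ℝ := (volume K).toReal with hv
  have hv0 : 0 < v := ENNReal.toReal_pos h0 hfin
  have hVv : volume K = ENNReal.ofReal v := (ENNReal.ofReal_toReal hfin).symm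
  set m : Eu d → ℝ := fun y => (μ (s ⁻¹' {y})).toReal with hm
  have hmfin : ∀ y, μ (s ⁻¹' {y}) ≠ ⊤ := fun y =>
    ne_top_of_le_ne_top hfin ((measure_mono (subset_univ _)).trans
      (le_of_eq (Measure.restrict_apply_univ K)))
  have hmo : ∀ y, μ (s ⁻¹' {y}) = ENNReal.ofReal (m y) := fun y =>
    (ENNReal.ofReal_toReal (hmfin y)).symm
  have hm0 : ∀ y, 0 ≤ m y := fun y => ENNReal.toReal_nonneg
  have hmeas : ∀ y : Eu d, Measurable fun ω => |inner ℝ (a ω) y| := fun y => (meas_in a ha y).abs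
  -- pointwise
  have hpt : ∀ ω, (1 / 7.7 - 0.009) * v * ‖a ω‖ ≤ ∑ y ∈ s.range, m y * |inner ℝ (a ω) y| := by
    intro ω
    have h1 := iso_first_lower p hcont h0 hfin hiso (a ω)
    have h2 : ∫⁻ z in K, ENNReal.ofReal |inner ℝ (a ω) z|
        ≤ ∫⁻ z in K, (ENNReal.ofReal |inner ℝ (a ω) (s z)| + ENNReal.ofReal (0.009 * ‖a ω‖)) := by
      refine setLIntegral_mono' hKm fun z hz => ?_
      rw [← ENNReal.ofReal_add (abs_nonneg _) (by positivity)]
      apply ENNReal.ofReal_le_ofReal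
      have h3 : inner ℝ (a ω) z = inner ℝ (a ω) (s z) + inner ℝ (a ω) (z - s z) := by
        rw [← inner_add_right]
        congr 1
        abel
      rw [h3]
      refine (abs_add_le _ _).trans ?_
      gcongr
      refine (abs_real_inner_le_norm _ _).trans ?_
      rw [mul_comm, norm_sub_rev]
      gcongr
      exact hs z hz
    rw [lintegral_add_right _ measurable_const, setLIntegral_const,
      simple_int K s (fun y => ENNReal.ofReal |inner ℝ (a ω) y|)] at h2
    have h4 := h1.trans h2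
    rw [hVv] at h4
    have h5 : ∑ y ∈ s.range, ENNReal.ofReal |inner ℝ (a ω) y| * (volume.restrict K) (s ⁻¹' {y})
        = ENNReal.ofReal (∑ y ∈ s.range, m y * |inner ℝ (a ω) y|) := by
      rw [ENNReal.ofReal_sum_of_nonneg fun y _ => mul_nonneg (hm0 y) (abs_nonneg _)]
      refine Finset.sum_congr rfl fun y _ => ?_
      rw [← hμ, hmo y, ← ENNReal.ofReal_mul (abs_nonneg _), mul_comm]
    have hS0 : 0 ≤ ∑ y ∈ s.range, m y * |inner ℝ (a ω) y| :=
      Finset.sum_nonneg fun y _ => mul_nonneg (hm0 y) (abs_nonneg _)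
    rw [h5, ← ENNReal.ofReal_mul (by positivity), ← ENNReal.ofReal_mul (by positivity),
      ← ENNReal.ofReal_add hS0 (by positivity), ENNReal.ofReal_le_ofReal_iff (by positivity)] at h4
    have h6 : (1 / 7.7 - 0.009) * v * ‖a ω‖ = ‖a ω‖ / 7.7 * v - 0.009 * ‖a ω‖ * v := by ring
    rw [h6]
    linarith
  have h1 : ENNReal.ofReal ((1 / 7.7 - 0.009) * v) * R
      ≤ ∑ y ∈ s.range, ENNReal.ofReal (m y) * nn ρ a y := by
    calc ENNReal.ofReal ((1 / 7.7 - 0.009) * v) * R
        = ρ (fun ω => (1 / 7.7 - 0.009) * v * ‖a ω‖) := by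
          rw [hρ.smul _ _ ha.norm, abs_of_nonneg (by
            have : (0 : ℝ) ≤ 1 / 7.7 - 0.009 := by norm_num
            positivity)]
      _ ≤ ρ (fun ω => ∑ y ∈ s.range, m y * |inner ℝ (a ω) y|) := by
          refine hρ.mono _ _ (ha.norm.const_mul _)
            (Finset.measurable_sum _ fun y _ => (hmeas y).const_mul _) fun ω => ?_
          refine (abs_le_abs_of_nonneg ?_ (hpt ω))
          have : (0 : ℝ) ≤ 1 / 7.7 - 0.009 := by norm_num
          positivity
      _ ≤ ∑ y ∈ s.range, ρ (fun ω => m y * |inner ℝ (a ω) y|) :=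
          hρ.sum _ (fun y ω => m y * |inner ℝ (a ω) y|) fun y => (hmeas y).const_mul _
      _ = _ := by
          refine Finset.sum_congr rfl fun y _ => ?_
          rw [hρ.smul _ _ (hmeas y), abs_of_nonneg (hm0 y), hρ.abs _ (meas_in a ha y)]
          rfl
  have h2 : ∑ y ∈ s.range, ENNReal.ofReal (m y) * nn ρ a y
      ≤ ENNReal.ofReal b * volume K + ENNReal.ofReal 0.009 * R * volume K := by
    have h3 : ∑ y ∈ s.range, ENNReal.ofReal (m y) * nn ρ a y = ∫⁻ z in K, nn ρ a (s z) := by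
      rw [simple_int K s (fun y => nn ρ a y)]
      refine Finset.sum_congr rfl fun y _ => ?_
      rw [← hμ, hmo y, mul_comm]
    rw [h3]
    calc ∫⁻ z in K, nn ρ a (s z) ≤ ∫⁻ z in K, (nn ρ a z + ENNReal.ofReal 0.009 * R) := by
          refine setLIntegral_mono' hKm fun z hz => ?_
          exact nn_sub hρ a ha (s z) z 0.009 (by norm_num) (hs z hz)
      _ = (∫⁻ z in K, nn ρ a z) + ENNReal.ofReal 0.009 * R * volume K := by
          rw [lintegral_add_right _ measurable_const, setLIntegral_const]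
      _ ≤ _ := by gcongr
  -- real numbers
  have hR' : R = ENNReal.ofReal R.toReal := (ENNReal.ofReal_toReal hR).symm
  have hR0 : 0 ≤ R.toReal := ENNReal.toReal_nonneg
  have h3 := h1.trans h2
  rw [hVv, hR', ← ENNReal.ofReal_mul (by
      have : (0 : ℝ) ≤ 1 / 7.7 - 0.009 := by norm_num
      positivity), ← ENNReal.ofReal_mul hb0, ← ENNReal.ofReal_mul (by norm_num),
    ← ENNReal.ofReal_mul (by positivity), ← ENNReal.ofReal_add (by positivity) (by positivity),
    ENNReal.ofReal_le_ofReal_iff (by positivity)] at h3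
  rw [hR']
  apply ENNReal.ofReal_le_ofReal
  have h4 : ((1 / 7.7 - 0.009) * R.toReal) * v ≤ (b + 0.009 * R.toReal) * v := by linarith
  have h5 := le_of_mul_le_mul_right h4 hv0
  have h6 : (0.1118 : ℝ) ≤ 1 / 7.7 - 0.009 - 0.009 := by norm_num
  nlinarith

/-- moments with a shift -/
theorem moment_shift (p : Seminorm ℝ (Eu d)) (hcont : Continuous p)
    (hfin : volume {y : Eu d | p y ≤ 1} ≠ ⊤) (hiso : Iso p) (w : Eu d) (n e : ℝ) (hn : 0 < n)
    (hw : ‖w‖ ≤ n) (he : 1 ≤ e) :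
    ∫⁻ z in {y : Eu d | p y ≤ 1}, ENNReal.ofReal ((|inner ℝ w z| + 0.018 * n) ^ e)
      ≤ ENNReal.ofReal (3 * (2.2 * e * n) ^ e) * volume {y : Eu d | p y ≤ 1} := by
  have hl := Real.log_two_gt_d9
  have hl' := Real.log_two_lt_d9
  have hl2 : 0 < Real.log 2 := by linarith
  have hexp := Real.exp_one_gt_d9
  have he0 : 0 < e := by linarith
  set c : ℝ := Real.log 2 / (4 * n) with hc
  have hc0 : 0 < c := by positivity
  have hφ : ∫⁻ z in {y : Eu d | p y ≤ 1}, ENNReal.ofReal |(innerSL ℝ w) z|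
      ≤ ENNReal.ofReal n * volume {y : Eu d | p y ≤ 1} := by
    refine (iso_first p hiso w).trans ?_
    gcongr
  have h1 := expMoment p hcont hfin (innerSL ℝ w) n hn hφ
  rw [← hc] at h1
  have hcn : c * (0.018 * n) ≤ 0.0032 := by
    have : c * (0.018 * n) = Real.log 2 * 0.0045 := by
      rw [hc]
      field_simp
      norm_num
    rw [this]
    linarith
  have hC0 : 0 ≤ (e / (c * Real.exp 1)) ^ e * Real.exp 0.0032 := by positivity
  calc ∫⁻ z in {y : Eu d | p y ≤ 1}, ENNReal.ofReal ((|inner ℝ w z| + 0.018 * n) ^ e)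
      ≤ ∫⁻ z in {y : Eu d | p y ≤ 1}, ENNReal.ofReal ((e / (c * Real.exp 1)) ^ e * Real.exp 0.0032)
        * ENNReal.ofReal (Real.exp (c * |(innerSL ℝ w) z|)) := by
        refine lintegral_mono fun z => ?_
        rw [← ENNReal.ofReal_mul hC0]
        apply ENNReal.ofReal_le_ofReal
        refine (rpow_le_exp _ e c (by positivity) he hc0).trans ?_
        rw [mul_assoc, ← Real.exp_add]
        gcongr
        have h2 : (innerSL ℝ w) z = inner ℝ w z := rfl
        rw [h2, mul_add]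
        linarith
    _ = ENNReal.ofReal ((e / (c * Real.exp 1)) ^ e * Real.exp 0.0032) *
        ∫⁻ z in {y : Eu d | p y ≤ 1}, ENNReal.ofReal (Real.exp (c * |(innerSL ℝ w) z|)) :=
        lintegral_const_mul' _ _ ENNReal.ofReal_ne_top
    _ ≤ ENNReal.ofReal ((e / (c * Real.exp 1)) ^ e * Real.exp 0.0032) *
        (3 * volume {y : Eu d | p y ≤ 1}) := by
        gcongr
    _ = ENNReal.ofReal (3 * ((e / (c * Real.exp 1)) ^ e * Real.exp 0.0032)) *
        volume {y : Eu d | p y ≤ 1} := by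
        rw [ENNReal.ofReal_mul (by norm_num : (0 : ℝ) ≤ 3)]
        have : ENNReal.ofReal 3 = 3 := by norm_num
        rw [this]
        ring
    _ ≤ _ := by
        refine mul_le_mul' (ENNReal.ofReal_le_ofReal ?_) le_rfl
        gcongr
        have h3 : Real.exp 0.0032 ≤ Real.exp 0.0032 ^ e := by
          calc Real.exp 0.0032 = Real.exp 0.0032 ^ (1 : ℝ) := (Real.rpow_one _).symm
            _ ≤ _ := Real.rpow_le_rpow_of_exponent_le (Real.one_le_exp (by norm_num)) he
        have h4 : Real.exp 0.0032 ≤ 1.01 := by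
          have h5 := Real.add_one_le_exp (-0.0032 : ℝ)
          rw [Real.exp_neg] at h5
          have h6 : 0 < Real.exp 0.0032 := Real.exp_pos _
          have h7 : (0.9968 : ℝ) ≤ (Real.exp 0.0032)⁻¹ := by linarith
          rw [le_inv_comm₀ (by norm_num) h6] at h7
          refine h7.trans (by norm_num)
        calc (e / (c * Real.exp 1)) ^ e * Real.exp 0.0032
            ≤ (e / (c * Real.exp 1)) ^ e * Real.exp 0.0032 ^ e := by gcongr
          _ = (e / (c * Real.exp 1) * Real.exp 0.0032) ^ e :=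
              (Real.mul_rpow (by positivity) (Real.exp_pos _).le).symm
          _ ≤ (2.2 * e * n) ^ e := by
              apply Real.rpow_le_rpow (by positivity) _ he0.le
              calc e / (c * Real.exp 1) * Real.exp 0.0032 ≤ e / (c * Real.exp 1) * 1.01 := by gcongr
                _ ≤ 2.2 * e * n := by
                  rw [div_mul_eq_mul_div, div_le_iff₀ (by positivity), hc]
                  have e2 : 2.2 * e * n * (Real.log 2 / (4 * n) * Real.exp 1)
                      = e * (0.55 * (Real.log 2 * Real.exp 1)) := by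
                    field_simp
                    ring
                  rw [e2]
                  have h3 : (1.88 : ℝ) ≤ Real.log 2 * Real.exp 1 := by
                    calc (1.88 : ℝ) ≤ 0.693 * 2.718 := by norm_num
                      _ ≤ _ := mul_le_mul (by linarith) (by linarith) (by norm_num) (by linarith)
                  nlinarith

include hρ ha he hM in
/-- the norms of the projections -/
theorem G_bound' (p : Seminorm ℝ (Eu d)) (hcont : Continuous p)
    (h0 : volume {y : Eu d | p y ≤ 1} ≠ 0) (hcomp : IsCompact {y : Eu d | p y ≤ 1})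
    (hiso : Iso p) (b : ℝ) (hb0 : 0 < b)
    (hup : ∀ x, ENNReal.ofReal (p x) ≤ nn ρ a x)
    (hR : ρ (fun ω => ‖a ω‖) ≤ ENNReal.ofReal (9 * b)) (F : Submodule ℝ (Eu d)) :
    volume {z : Eu d | p z ≤ 1 ∧ 240 * e * M * b < p (F.starProjection z)}
      ≤ ENNReal.ofReal (1 / 4) * volume {y : Eu d | p y ≤ 1} := by
  have he0 : 0 < e := by linarith
  have hM0 : 0 < M := by linarith
  have hfin : volume {y : Eu d | p y ≤ 1} ≠ ⊤ := hcomp.measure_lt_top.ne
  set K : Set (Eu d) := {y : Eu d | p y ≤ 1} with hK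
  have hKm : MeasurableSet K := hcomp.measurableSet
  obtain ⟨s, hs⟩ := exists_simple K hcomp 0.009 (by norm_num)
  set μ := volume.restrict K with hμ
  set v : ℝ := (volume K).toReal with hv
  have hv0 : 0 < v := ENNReal.toReal_pos h0 hfin
  have hVv : volume K = ENNReal.ofReal v := (ENNReal.ofReal_toReal hfin).symm
  set m : Eu d → ℝ := fun y => (μ (s ⁻¹' {y})).toReal with hm
  have hmfin : ∀ y, μ (s ⁻¹' {y}) ≠ ⊤ := fun y =>
    ne_top_of_le_ne_top hfin ((measure_mono (subset_univ _)).trans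
      (le_of_eq (Measure.restrict_apply_univ K)))
  have hmo : ∀ y, μ (s ⁻¹' {y}) = ENNReal.ofReal (m y) := fun y =>
    (ENNReal.ofReal_toReal (hmfin y)).symm
  have hm0 : ∀ y, 0 ≤ m y := fun y => ENNReal.toReal_nonneg
  set P := F.starProjection with hP
  have hPn : ∀ x, ‖P x‖ ≤ ‖x‖ := fun x => F.norm_starProjection_apply_le x
  -- the functions
  set g : Eu d → Ω → ℝ := fun y ω => |inner ℝ (a ω) (P y)| + 0.009 * ‖a ω‖ with hg
  have hgm : ∀ y, Measurable (g y) := fun y =>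
    (meas_in a ha (P y)).abs.add (ha.norm.const_mul _)
  have hg0 : ∀ y ω, 0 ≤ g y ω := fun y ω => by
    show 0 ≤ |inner ℝ (a ω) (P y)| + 0.009 * ‖a ω‖
    positivity
  -- the mean of the norms
  have h1 : ∫⁻ z in K, ENNReal.ofReal (p (P z) ^ e) ≤ ∫⁻ z in K, ρ (g (s z)) ^ e := by
    refine setLIntegral_mono' hKm fun z hz => ?_
    rw [← ENNReal.ofReal_rpow_of_nonneg (apply_nonneg p _) he0.le]
    apply ENNReal.rpow_le_rpow _ he0.le
    refine (hup (P z)).trans ?_
    refine hρ.mono _ _ (meas_in a ha (P z)) (hgm (s z)) fun ω => ?_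
    rw [abs_of_nonneg (hg0 _ _)]
    have h3 : inner ℝ (a ω) (P z) = inner ℝ (a ω) (P (s z)) + inner ℝ (a ω) (P (z - s z)) := by
      rw [← inner_add_right, ← map_add]
      congr 2
      abel
    rw [h3]
    refine (abs_add_le _ _).trans ?_
    show _ ≤ |inner ℝ (a ω) (P (s z))| + 0.009 * ‖a ω‖
    gcongr
    refine (abs_real_inner_le_norm _ _).trans ?_
    rw [mul_comm]
    gcongr
    refine (hPn _).trans ?_
    rw [norm_sub_rev]
    exact hs z hz
  -- concavity
  have h2 : ∫⁻ z in K, ρ (g (s z)) ^ e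
      ≤ ENNReal.ofReal M ^ e * ρ (fun ω => (∑ y ∈ s.range, m y * g y ω ^ e) ^ (1 / e)) ^ e := by
    rw [simple_int K s (fun y => ρ (g y) ^ e)]
    have h3 := hρ.concave' s.range (fun y ω => m y ^ (1 / e) * g y ω)
      (fun y => (hgm y).const_mul _)
    have e1 : ∀ y, ρ (fun ω => m y ^ (1 / e) * g y ω) ^ e = ρ (g y) ^ e * μ (s ⁻¹' {y}) := by
      intro y
      rw [hρ.smul _ _ (hgm y), abs_of_nonneg (Real.rpow_nonneg (hm0 y) _),
        ENNReal.mul_rpow_of_nonneg _ _ he0.le, ENNReal.ofReal_rpow_of_nonneg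
          (Real.rpow_nonneg (hm0 y) _) he0.le, ← Real.rpow_mul (hm0 y), one_div_mul_cancel he0.ne',
        Real.rpow_one, hmo y, mul_comm]
    have e2 : ∀ ω, ∑ y ∈ s.range, |m y ^ (1 / e) * g y ω| ^ e
        = ∑ y ∈ s.range, m y * g y ω ^ e := by
      intro ω
      refine Finset.sum_congr rfl fun y _ => ?_
      rw [abs_of_nonneg (mul_nonneg (Real.rpow_nonneg (hm0 y) _) (hg0 y ω)),
        Real.mul_rpow (Real.rpow_nonneg (hm0 y) _) (hg0 y ω), ← Real.rpow_mul (hm0 y),
        one_div_mul_cancel he0.ne', Real.rpow_one]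
    simp only [e1, e2] at h3
    exact h3
  -- pointwise bound
  have hpt : ∀ ω, (∑ y ∈ s.range, m y * g y ω ^ e) ^ (1 / e)
      ≤ (3 * v) ^ (1 / e) * (2.2 * e) * ‖a ω‖ := by
    intro ω
    have hS0 : 0 ≤ ∑ y ∈ s.range, m y * g y ω ^ e :=
      Finset.sum_nonneg fun y _ => mul_nonneg (hm0 y) (Real.rpow_nonneg (hg0 y ω) _)
    have h4 : ∑ y ∈ s.range, m y * g y ω ^ e ≤ 3 * v * (2.2 * e * ‖a ω‖) ^ e := by
      rcases eq_or_ne (a ω) 0 with h | h
      · have : ∀ y, g y ω = 0 := by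
          intro y
          show |inner ℝ (a ω) (P y)| + 0.009 * ‖a ω‖ = 0
          rw [h]
          simp
        simp [this, h, Real.zero_rpow he0.ne']
      have hn : 0 < ‖a ω‖ := norm_pos_iff.2 h
      have h5 : ∫⁻ z in K, ENNReal.ofReal (g (s z) ω ^ e)
          ≤ ∫⁻ z in K, ENNReal.ofReal ((|inner ℝ (P (a ω)) z| + 0.018 * ‖a ω‖) ^ e) := by
        refine setLIntegral_mono' hKm fun z hz => ?_
        apply ENNReal.ofReal_le_ofReal
        apply Real.rpow_le_rpow (hg0 _ _) _ he0.le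
        show |inner ℝ (a ω) (P (s z))| + 0.009 * ‖a ω‖ ≤ _
        have h6 : inner ℝ (a ω) (P (s z)) = inner ℝ (P (a ω)) z + inner ℝ (a ω) (P (s z - z)) := by
          rw [← inner_star, ← inner_add_right, ← map_add]
          congr 2
          abel
        rw [h6]
        have h7 : |inner ℝ (a ω) (P (s z - z))| ≤ 0.009 * ‖a ω‖ := by
          refine (abs_real_inner_le_norm _ _).trans ?_
          rw [mul_comm]
          gcongr
          exact (hPn _).trans (hs z hz)
        have h8 := abs_add_le (inner ℝ (P (a ω)) z) (inner ℝ (a ω) (P (s z - z)))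
        linarith
      have h9 := h5.trans (moment_shift p hcont hfin hiso (P (a ω)) ‖a ω‖ e hn (hPn _) he)
      rw [simple_int K s (fun y => ENNReal.ofReal (g y ω ^ e))] at h9
      have h10 : ∑ y ∈ s.range, ENNReal.ofReal (g y ω ^ e) * (volume.restrict K) (s ⁻¹' {y})
          = ENNReal.ofReal (∑ y ∈ s.range, m y * g y ω ^ e) := by
        rw [ENNReal.ofReal_sum_of_nonneg fun y _ =>
          mul_nonneg (hm0 y) (Real.rpow_nonneg (hg0 y ω) _)]
        refine Finset.sum_congr rfl fun y _ => ?_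
        rw [← hμ, hmo y, ← ENNReal.ofReal_mul (Real.rpow_nonneg (hg0 y ω) _), mul_comm]
      rw [h10, ← hK, hVv, ← ENNReal.ofReal_mul (by positivity),
        ENNReal.ofReal_le_ofReal_iff (by positivity)] at h9
      linarith
    calc (∑ y ∈ s.range, m y * g y ω ^ e) ^ (1 / e)
        ≤ (3 * v * (2.2 * e * ‖a ω‖) ^ e) ^ (1 / e) := Real.rpow_le_rpow hS0 h4 (by positivity)
      _ = _ := by
          rw [Real.mul_rpow (by positivity) (by positivity), ← Real.rpow_mul (by positivity),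
            mul_one_div_cancel he0.ne', Real.rpow_one]
          ring
  have h3 : ρ (fun ω => (∑ y ∈ s.range, m y * g y ω ^ e) ^ (1 / e))
      ≤ ENNReal.ofReal ((3 * v) ^ (1 / e) * (2.2 * e) * (9 * b)) := by
    calc ρ (fun ω => (∑ y ∈ s.range, m y * g y ω ^ e) ^ (1 / e))
        ≤ ρ (fun ω => (3 * v) ^ (1 / e) * (2.2 * e) * ‖a ω‖) := by
          refine hρ.mono _ _ ?_ (ha.norm.const_mul _) fun ω => ?_
          · exact (Finset.measurable_sum _ fun y _ => ((hgm y).pow_const e).const_mul _).pow_const _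
          · refine abs_le_abs_of_nonneg ?_ (hpt ω)
            exact Real.rpow_nonneg (Finset.sum_nonneg fun y _ =>
              mul_nonneg (hm0 y) (Real.rpow_nonneg (hg0 y ω) _)) _
      _ = ENNReal.ofReal ((3 * v) ^ (1 / e) * (2.2 * e)) * ρ (fun ω => ‖a ω‖) := by
          rw [hρ.smul _ _ ha.norm, abs_of_nonneg (by positivity)]
      _ ≤ ENNReal.ofReal ((3 * v) ^ (1 / e) * (2.2 * e)) * ENNReal.ofReal (9 * b) := by gcongr
      _ = _ := by rw [← ENNReal.ofReal_mul (by positivity)]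
  have h4 : ∫⁻ z in K, ENNReal.ofReal (p (P z) ^ e)
      ≤ ENNReal.ofReal (3 * (19.8 * e * M * b) ^ e) * volume K := by
    refine h1.trans (h2.trans ?_)
    calc ENNReal.ofReal M ^ e * ρ (fun ω => (∑ y ∈ s.range, m y * g y ω ^ e) ^ (1 / e)) ^ e
        ≤ ENNReal.ofReal M ^ e * ENNReal.ofReal ((3 * v) ^ (1 / e) * (2.2 * e) * (9 * b)) ^ e := by
          gcongr
      _ = ENNReal.ofReal (M ^ e * ((3 * v) ^ (1 / e) * (2.2 * e) * (9 * b)) ^ e) := by
          rw [ENNReal.ofReal_rpow_of_nonneg hM0.le he0.le,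
            ENNReal.ofReal_rpow_of_nonneg (by positivity) he0.le,
            ← ENNReal.ofReal_mul (by positivity)]
      _ = ENNReal.ofReal (3 * (19.8 * e * M * b) ^ e * v) := by
          congr 1
          have e1 : (3 * v) ^ (1 / e) * (2.2 * e) * (9 * b)
              = (3 * v) ^ (1 / e) * (19.8 * e * b) := by ring
          rw [e1, Real.mul_rpow (by positivity) (by positivity), ← Real.rpow_mul (by positivity),
            one_div_mul_cancel he0.ne', Real.rpow_one]
          have e2 : 19.8 * e * M * b = M * (19.8 * e * b) := by ring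
          rw [e2, Real.mul_rpow hM0.le (by positivity)]
          ring
      _ = _ := by
          rw [ENNReal.ofReal_mul (by positivity), ← hVv]
  -- Markov
  set A : Set (Eu d) := {z : Eu d | p z ≤ 1 ∧ 240 * e * M * b < p (P z)} with hA
  have hAm : MeasurableSet A :=
    (isClosed_le hcont continuous_const).measurableSet.inter
      (isOpen_lt continuous_const (hcont.comp P.continuous)).measurableSet
  have h5 : ENNReal.ofReal ((240 * e * M * b) ^ e) * volume A
      ≤ ENNReal.ofReal (3 * (19.8 * e * M * b) ^ e) * volume K := by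
    refine le_trans ?_ h4
    calc ENNReal.ofReal ((240 * e * M * b) ^ e) * volume A
        = ∫⁻ _ in A, ENNReal.ofReal ((240 * e * M * b) ^ e) := by rw [setLIntegral_const]
      _ ≤ ∫⁻ z in A, ENNReal.ofReal (p (P z) ^ e) := by
          refine setLIntegral_mono' hAm fun z hz => ENNReal.ofReal_le_ofReal ?_
          exact Real.rpow_le_rpow (by positivity) hz.2.le he0.le
      _ ≤ _ := lintegral_mono_set fun z hz => hz.1
  have h6 : 3 * (19.8 * e * M * b) ^ e ≤ (240 * e * M * b) ^ e * (1 / 4) := by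
    have e1 : 240 * e * M * b = (240 / 19.8) * (19.8 * e * M * b) := by ring
    have e2 : (240 * e * M * b) ^ e = (240 / 19.8) ^ e * (19.8 * e * M * b) ^ e := by
      rw [e1]
      exact Real.mul_rpow (by norm_num) (by positivity)
    rw [e2]
    have h4 : (12 : ℝ) ≤ (240 / 19.8) ^ e := by
      calc (12 : ℝ) ≤ (240 / 19.8) ^ (1 : ℝ) := by norm_num
        _ ≤ _ := Real.rpow_le_rpow_of_exponent_le (by norm_num) he
    have h5 : 0 ≤ (19.8 * e * M * b) ^ e := by positivity
    nlinarith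
  have h7 : 0 < (240 * e * M * b) ^ e := by positivity
  have h8 : ENNReal.ofReal ((240 * e * M * b) ^ e) * volume A
      ≤ ENNReal.ofReal ((240 * e * M * b) ^ e) * (ENNReal.ofReal (1 / 4) * volume K) := by
    refine h5.trans ?_
    rw [← mul_assoc, ← ENNReal.ofReal_mul h7.le]
    exact mul_le_mul' (ENNReal.ofReal_le_ofReal h6) le_rfl
  exact (ENNReal.mul_le_mul_iff_right (ENNReal.ofReal_pos.2 h7).ne' ENNReal.ofReal_ne_top).1 h8

include hρ ha he hM in
/-- the upper estimate on orthonormal systems -/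
theorem orth_bound' (p : Seminorm ℝ (Eu d)) (b : ℝ) (hb0 : 0 < b)
    (hup : ∀ x, ENNReal.ofReal (p x) ≤ nn ρ a x)
    (hR : ρ (fun ω => ‖a ω‖) ≤ ENNReal.ofReal (9 * b))
    (n : ℕ) (x : Fin n → Eu d) (t : ℝ) (ht : 0 < t) (hx : Orthonormal ℝ x)
    (hpx : ∀ i, t ≤ p (x i)) : n * t ^ (max e 2) ≤ (9 * M * b) ^ (max e 2) := by
  have he0 : 0 < e := by linarith
  have hM0 : 0 < M := by linarith
  set q := max e 2 with hq
  have hq0 : 0 < q := lt_of_lt_of_le he0 (le_max_left _ _)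
  have hqe : e ≤ q := le_max_left _ _
  rcases Nat.eq_zero_or_pos n with rfl | hn
  · simp only [Nat.cast_zero, zero_mul]
    positivity
  have hn0 : (0 : ℝ) < n := by exact_mod_cast hn
  have hsm : ∀ ω, (∑ i, |inner ℝ (a ω) (x i)| ^ e) ^ (1 / e)
      ≤ ((n : ℝ) ^ (1 - e / q)) ^ (1 / e) * ‖a ω‖ := by
    intro ω
    calc (∑ i, |inner ℝ (a ω) (x i)| ^ e) ^ (1 / e)
        ≤ ((n : ℝ) ^ (1 - e / q) * ‖a ω‖ ^ e) ^ (1 / e) :=
          Real.rpow_le_rpow (by positivity) (orth_pt e he n x hx (a ω)) (by positivity)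
      _ = _ := by
          rw [Real.mul_rpow (by positivity) (by positivity), ← Real.rpow_mul (norm_nonneg _),
            mul_one_div_cancel he0.ne', Real.rpow_one]
  have h1 : ENNReal.ofReal (n * t ^ e)
      ≤ ENNReal.ofReal ((n : ℝ) ^ (1 - e / q) * (9 * M * b) ^ e) := by
    calc ENNReal.ofReal (n * t ^ e) = ∑ _i : Fin n, ENNReal.ofReal (t ^ e) := by
          rw [ENNReal.ofReal_mul hn0.le, ENNReal.ofReal_natCast]
          simp
      _ ≤ ∑ i : Fin n, ρ (fun ω => inner ℝ (a ω) (x i)) ^ e := by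
          refine Finset.sum_le_sum fun i _ => ?_
          rw [← ENNReal.ofReal_rpow_of_nonneg ht.le he0.le]
          exact ENNReal.rpow_le_rpow ((ENNReal.ofReal_le_ofReal (hpx i)).trans (hup (x i))) he0.le
      _ ≤ ENNReal.ofReal M ^ e
            * ρ (fun ω => (∑ i, |inner ℝ (a ω) (x i)| ^ e) ^ (1 / e)) ^ e :=
          hρ.concave n (fun i ω => inner ℝ (a ω) (x i)) fun i => meas_in a ha (x i)
      _ ≤ ENNReal.ofReal M ^ e
            * ρ (fun ω => ((n : ℝ) ^ (1 - e / q)) ^ (1 / e) * ‖a ω‖) ^ e := by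
          refine mul_le_mul' le_rfl (ENNReal.rpow_le_rpow ?_ he0.le)
          refine hρ.mono _ _ ?_ (ha.norm.const_mul _) fun ω => ?_
          · exact (Finset.measurable_sum _ fun i _ =>
              ((meas_in a ha (x i)).abs.pow_const e)).pow_const _
          · exact abs_le_abs_of_nonneg (by positivity) (hsm ω)
      _ ≤ ENNReal.ofReal M ^ e
            * (ENNReal.ofReal (((n : ℝ) ^ (1 - e / q)) ^ (1 / e)) * ENNReal.ofReal (9 * b)) ^ e := by
          rw [hρ.smul _ _ ha.norm, abs_of_nonneg (by positivity)]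
          gcongr
      _ = _ := by
          rw [← ENNReal.ofReal_mul (by positivity), ENNReal.ofReal_rpow_of_nonneg hM0.le he0.le,
            ENNReal.ofReal_rpow_of_nonneg (by positivity) he0.le,
            ← ENNReal.ofReal_mul (by positivity)]
          congr 1
          rw [Real.mul_rpow (by positivity) (by positivity), ← Real.rpow_mul (by positivity),
            one_div_mul_cancel he0.ne', Real.rpow_one]
          have e2 : 9 * M * b = M * (9 * b) := by ring
          rw [e2, Real.mul_rpow hM0.le (by positivity)]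
          ring
  rw [ENNReal.ofReal_le_ofReal_iff (by positivity)] at h1
  have h2 : (n : ℝ) ^ (e / q) * t ^ e ≤ (9 * M * b) ^ e := by
    have h3 : (n : ℝ) = (n : ℝ) ^ (1 - e / q) * (n : ℝ) ^ (e / q) := by
      rw [← Real.rpow_add hn0, sub_add_cancel, Real.rpow_one]
    have h4 : (n : ℝ) ^ (1 - e / q) * ((n : ℝ) ^ (e / q) * t ^ e)
        ≤ (n : ℝ) ^ (1 - e / q) * (9 * M * b) ^ e := by
      rw [← mul_assoc, ← h3]
      exact h1
    exact le_of_mul_le_mul_left h4 (by positivity)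
  have h3 := Real.rpow_le_rpow (by positivity) h2 (show 0 ≤ q / e by positivity)
  rw [Real.mul_rpow (by positivity) (by positivity), ← Real.rpow_mul hn0.le,
    ← Real.rpow_mul ht.le, ← Real.rpow_mul (by positivity)] at h3
  have e1 : e / q * (q / e) = 1 := by field_simp
  have e2 : e * (q / e) = q := by field_simp
  rw [e1, e2, Real.rpow_one] at h3
  exact h3

include hρ ha he hM in
/-- the covering theorem in isotropic position -/
theorem lat_iso_R (hd : 2 ≤ d) (p : Seminorm ℝ (Eu d)) (hcont : Continuous p)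
    (h0 : volume {y : Eu d | p y ≤ 1} ≠ 0) (hcomp : IsCompact {y : Eu d | p y ≤ 1})
    (hiso : Iso p) (b : ℝ) (hb1 : 1 ≤ b)
    (hup : ∀ x, ENNReal.ofReal (p x) ≤ nn ρ a x)
    (hR : ρ (fun ω => ‖a ω‖) ≤ ENNReal.ofReal (9 * b))
    (lam : ℝ) (hlam : 1 ≤ lam)
    (hcond : (10 ^ 11 * e * M ^ 2 * b ^ 2 * lam ^ 2 * Real.log (d + 1) ^ 2) ^ (max e 2) ≤ d) :
    Good p lam := by
  have he0 : 0 < e := by linarith
  have hM0 : 0 < M := by linarith
  have hb0 : 0 < b := by linarith
  have hfin : volume {y : Eu d | p y ≤ 1} ≠ ⊤ := hcomp.measure_lt_top.ne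
  have hd' : (2 : ℝ) ≤ d := by exact_mod_cast hd
  have hL1 : 1 ≤ Real.log ((d : ℝ) + 1) := by
    rw [Real.le_log_iff_exp_le (by positivity)]
    have := Real.exp_one_lt_d9
    linarith
  set L := Real.log ((d : ℝ) + 1) with hL
  set q := max e 2 with hq
  have hq2 : 2 ≤ q := le_max_right _ _
  set X : ℝ := 10 ^ 11 * e * M ^ 2 * b ^ 2 * lam ^ 2 * L ^ 2 with hX
  have hb2 : b ≤ b ^ 2 := by nlinarith
  have hM2 : M ≤ M ^ 2 := by nlinarith
  have hlam2 : 1 ≤ lam ^ 2 := one_le_pow₀ hlam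
  have hL2 : 1 ≤ L ^ 2 := one_le_pow₀ hL1
  have heb : 1 ≤ e * M * b := by
    calc (1 : ℝ) = 1 * 1 * 1 := by norm_num
      _ ≤ e * M * b := by gcongr
  have hXeb : 10 ^ 11 * (e * M * b) ≤ X := by
    calc 10 ^ 11 * (e * M * b) ≤ 10 ^ 11 * (e * M ^ 2 * b ^ 2) * 1 * 1 := by
          rw [mul_one, mul_one]
          gcongr
      _ ≤ 10 ^ 11 * (e * M ^ 2 * b ^ 2) * lam ^ 2 * L ^ 2 := by gcongr
      _ = X := by rw [hX]; ring
  have hX1 : 1 ≤ X := by linarith
  have hX0 : 0 < X := by linarith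
  have hXd : X ≤ d := by
    calc X = X ^ (1 : ℝ) := (Real.rpow_one X).symm
      _ ≤ X ^ q := Real.rpow_le_rpow_of_exponent_le hX1 (by linarith)
      _ ≤ d := hcond
  refine abs_cover hd p hcont h0 hfin hiso (240 * e * M * b) lam (by linarith) (by linarith) hlam
    (G_bound' hρ he hM a ha p hcont h0 hcomp hiso b hb0 hup hR) q (9 * M * b) (by linarith)
    (by positivity) (orth_bound' hρ he hM a ha p b hb0 hup hR) ?_
  rw [← hL]
  have e1 : 3.2 * 10 ^ 7 * (240 * e * M * b) * L ^ 2 * lam ^ 2 * (9 * M * b)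
      = (3.2 * 10 ^ 7 * 240 * 9 / 10 ^ 11) * X := by
    rw [hX]
    ring
  rw [e1, Real.mul_rpow (by norm_num) hX0.le]
  have h1 : (3.2 * 10 ^ 7 * 240 * 9 / 10 ^ 11 : ℝ) ^ q < 1 / 2 := by
    calc (3.2 * 10 ^ 7 * 240 * 9 / 10 ^ 11 : ℝ) ^ q
        ≤ (3.2 * 10 ^ 7 * 240 * 9 / 10 ^ 11 : ℝ) ^ (2 : ℝ) :=
          Real.rpow_le_rpow_of_exponent_ge (by norm_num) (by norm_num) hq2
      _ < 1 / 2 := by
          rw [show (2 : ℝ) = ((2 : ℕ) : ℝ) by norm_num, Real.rpow_natCast]
          norm_num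
  have h2 : 0 < X ^ q := by positivity
  calc 2 * ((3.2 * 10 ^ 7 * 240 * 9 / 10 ^ 11 : ℝ) ^ q * X ^ q)
      < 2 * (1 / 2 * X ^ q) := by gcongr
    _ = X ^ q := by ring
    _ ≤ d := hcond

include hρ ha he hM hfi in
/-- the covering theorem in isotropic position -/
theorem lat_iso (hd : 2 ≤ d) (p : Seminorm ℝ (Eu d)) (hcont : Continuous p)
    (h0 : volume {y : Eu d | p y ≤ 1} ≠ 0) (hcomp : IsCompact {y : Eu d | p y ≤ 1})
    (hiso : Iso p) (b : ℝ) (hb1 : 1 ≤ b)
    (hup : ∀ x, ENNReal.ofReal (p x) ≤ nn ρ a x)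
    (hb : ∫⁻ z in {y : Eu d | p y ≤ 1}, nn ρ a z
      ≤ ENNReal.ofReal b * volume {y : Eu d | p y ≤ 1})
    (lam : ℝ) (hlam : 1 ≤ lam)
    (hcond : (10 ^ 11 * e * M ^ 2 * b ^ 2 * lam ^ 2 * Real.log (d + 1) ^ 2) ^ (max e 2) ≤ d) :
    Good p lam :=
  lat_iso_R hρ he hM a ha hd p hcont h0 hcomp hiso b hb1 hup
    (mass' hρ a ha p hcont h0 hcomp hiso b (by linarith) (mass_fin hρ a ha hfi) hb) lam hlam hcond

end

end Pool.Agent.J4H21.FL
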