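import Mathlib
import Pool.Agent.J4H21.FL.Lat

set_option autoImplicit false

/-!
The covering theorem for subspaces of concave function spaces, in general position; the case
of the spaces `L_q`.
-/

namespace Pool.Agent.J4H21.FL

open MeasureTheory Set Module
open scoped ENNReal Pointwise NNReal
open Pool.Agent.H815R2.Flat

variable {d : ℕ} {Ω : Type*} [MeasurableSpace Ω]

section
variable {ρ : (Ω → ℝ) → ℝ≥0∞} {e M : ℝ} (hρ : ConcaveNorm ρ e M) (he : 1 ≤ e) (hM : 1 ≤ M)
  (a : Ω → Eu d) (ha : Measurable a) (hfi : ∀ i, ρ (fun ω => a ω i) ≠ ⊤)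

include hρ ha in
theorem nn_le (x : Eu d) : nn ρ a x ≤ ENNReal.ofReal ‖x‖ * ρ (fun ω => ‖a ω‖) := by
  have h1 := nn_sub hρ a ha x 0 ‖x‖ (norm_nonneg _) (by rw [sub_zero])
  have h2 : nn ρ a 0 = 0 := by
    unfold nn
    simp only [inner_zero_right]
    exact hρ.zero
  rwa [h2, zero_add] at h1

include hρ ha hfi in
theorem nn_fin (x : Eu d) : nn ρ a x ≠ ⊤ :=
  ne_top_of_le_ne_top (ENNReal.mul_ne_top ENNReal.ofReal_ne_top (mass_fin hρ a ha hfi))
    (nn_le hρ a ha x)

include hρ ha hfi in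
theorem nn_meas : Measurable (nn ρ a) := by
  have hR := mass_fin hρ a ha hfi
  set R : ℝ := (ρ (fun ω => ‖a ω‖)).toReal with hRd
  have hRe : ρ (fun ω => ‖a ω‖) = ENNReal.ofReal R := (ENNReal.ofReal_toReal hR).symm
  have hR0 : 0 ≤ R := ENNReal.toReal_nonneg
  set f : Eu d → ℝ := fun x => (nn ρ a x).toReal with hf
  have hfe : nn ρ a = fun x => ENNReal.ofReal (f x) := by
    funext x
    exact (ENNReal.ofReal_toReal (nn_fin hρ a ha hfi x)).symm
  have hlip : LipschitzWith R.toNNReal f := by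
    apply LipschitzWith.of_le_add_mul
    intro x y
    rw [Real.coe_toNNReal _ hR0, dist_eq_norm]
    have h1 := nn_sub hρ a ha x y ‖x - y‖ (norm_nonneg _) le_rfl
    have hx := congrFun hfe x
    have hy := congrFun hfe y
    rw [hx, hy, hRe, ← ENNReal.ofReal_mul (norm_nonneg _),
      ← ENNReal.ofReal_add ENNReal.toReal_nonneg (by positivity),
      ENNReal.ofReal_le_ofReal_iff (by
        have : 0 ≤ f y := ENNReal.toReal_nonneg
        positivity)] at h1
    linarith
  rw [hfe]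
  exact hlip.continuous.measurable.ennreal_ofReal

include hρ ha he hM hfi in
/-- the covering theorem in general position -/
theorem lat_gen (hd : 2 ≤ d) (p : Seminorm ℝ (Eu d)) (hcont : Continuous p)
    (h0 : volume {y : Eu d | p y ≤ 1} ≠ 0) (hcomp : IsCompact {y : Eu d | p y ≤ 1})
    (b : ℝ) (hb1 : 1 ≤ b)
    (hup : ∀ x, ENNReal.ofReal (p x) ≤ nn ρ a x)
    (hb : ∫⁻ z in {y : Eu d | p y ≤ 1}, nn ρ a z
      ≤ ENNReal.ofReal b * volume {y : Eu d | p y ≤ 1})
    (lam : ℝ) (hlam : 1 ≤ lam)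
    (hcond : (10 ^ 11 * e * M ^ 2 * b ^ 2 * lam ^ 2 * Real.log (d + 1) ^ 2) ^ (max e 2) ≤ d) :
    Good p lam := by
  obtain ⟨S, hiso⟩ := exists_iso p hcont h0 hcomp
  obtain ⟨c, hc0, hct, hc⟩ := change p hcont S
  have hvol := change_vol p S c hc
  apply good_tr p S lam
  set a' : Ω → Eu d := fun ω => ContinuousLinearMap.adjoint (S.symm : Eu d →L[ℝ] Eu d) (a ω)
    with ha'
  have ha'm : Measurable a' :=
    (ContinuousLinearMap.adjoint (S.symm : Eu d →L[ℝ] Eu d)).measurable.comp ha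
  have hin : ∀ ω y, inner ℝ (a' ω) y = inner ℝ (a ω) (S.symm y) := by
    intro ω y
    rw [ha']
    exact ContinuousLinearMap.adjoint_inner_left _ _ _
  have hnn : ∀ y, nn ρ a' y = nn ρ a (S.symm y) := by
    intro y
    unfold nn
    simp only [hin]
  have hfi' : ∀ i, ρ (fun ω => a' ω i) ≠ ⊤ := by
    intro i
    have h1 : ∀ ω, a' ω i = inner ℝ (a' ω) (EuclideanSpace.single i (1 : ℝ)) := by
      intro ω
      rw [EuclideanSpace.inner_single_right]
      simp
    simp only [h1]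
    have h2 := nn_fin hρ a ha hfi (S.symm (EuclideanSpace.single i (1 : ℝ)))
    rwa [← hnn] at h2
  have hcomp' : IsCompact {y : Eu d | tr p S y ≤ 1} := by
    have h1 := hcomp.image S.continuous
    convert h1 using 1
    ext y
    constructor
    · intro hy
      exact ⟨S.symm y, hy, S.apply_symm_apply y⟩
    · rintro ⟨x, hx, rfl⟩
      show tr p S (S x) ≤ 1
      rw [tr_apply, ContinuousLinearEquiv.symm_apply_apply]
      exact hx
  refine lat_iso hρ he hM a' ha'm hfi' hd (tr p S) (hcont.comp S.symm.continuous) ?_ hcomp' hiso b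
    hb1 (fun y => ?_) ?_ lam hlam hcond
  · intro h
    rw [h, mul_zero] at hvol
    exact h0 hvol
  · rw [hnn, tr_apply]
    exact hup _
  · rw [← ENNReal.mul_le_mul_iff_right hc0 hct, ← hc _ (nn_meas hρ a' ha'm hfi'), mul_left_comm,
      ← hvol]
    refine le_trans (le_of_eq ?_) hb
    refine lintegral_congr fun x => ?_
    rw [hnn, ContinuousLinearEquiv.symm_apply_apply]

end

/-- the `L_q` norm -/
noncomputable def lq (ν : Measure Ω) (q : ℝ) (f : Ω → ℝ) : ℝ≥0∞ :=
  (∫⁻ ω, ENNReal.ofReal |f ω| ^ q ∂ν) ^ (1 / q)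

theorem lq_concave (ν : Measure Ω) (q : ℝ) (hq : 1 ≤ q) : ConcaveNorm (lq ν q) q 1 := by
  have hq0 : 0 < q := by linarith
  refine ⟨fun f g _ _ h => ?_, fun c f hf => ?_, fun f g hf hg => ?_, fun n f hf => ?_⟩
  · unfold lq
    exact ENNReal.rpow_le_rpow (lintegral_mono fun ω =>
      ENNReal.rpow_le_rpow (ENNReal.ofReal_le_ofReal (h ω)) hq0.le) (by positivity)
  · unfold lq
    have h1 : ∀ ω, ENNReal.ofReal |c * f ω| ^ q
        = ENNReal.ofReal |c| ^ q * ENNReal.ofReal |f ω| ^ q := by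
      intro ω
      rw [abs_mul, ENNReal.ofReal_mul (abs_nonneg _), ENNReal.mul_rpow_of_nonneg _ _ hq0.le]
    simp only [h1]
    rw [lintegral_const_mul' _ _ (ENNReal.rpow_ne_top_of_nonneg hq0.le ENNReal.ofReal_ne_top),
      ENNReal.mul_rpow_of_nonneg _ _ (by positivity), ← ENNReal.rpow_mul,
      mul_one_div_cancel hq0.ne', ENNReal.rpow_one]
  · unfold lq
    refine le_trans ?_ (ENNReal.lintegral_Lp_add_le (μ := ν)
      (f := fun ω => ENNReal.ofReal |f ω|) (g := fun ω => ENNReal.ofReal |g ω|)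
      hf.abs.ennreal_ofReal.aemeasurable hg.abs.ennreal_ofReal.aemeasurable hq)
    refine ENNReal.rpow_le_rpow (lintegral_mono fun ω =>
      ENNReal.rpow_le_rpow ?_ hq0.le) (by positivity)
    simp only [Pi.add_apply]
    rw [← ENNReal.ofReal_add (abs_nonneg _) (abs_nonneg _)]
    exact ENNReal.ofReal_le_ofReal (abs_add_le _ _)
  · unfold lq
    have h1 : ∀ g : Ω → ℝ, ((∫⁻ ω, ENNReal.ofReal |g ω| ^ q ∂ν) ^ (1 / q)) ^ q
        = ∫⁻ ω, ENNReal.ofReal |g ω| ^ q ∂ν := by
      intro g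
      rw [← ENNReal.rpow_mul, one_div_mul_cancel hq0.ne', ENNReal.rpow_one]
    rw [ENNReal.ofReal_one, ENNReal.one_rpow, one_mul, h1]
    simp only [h1]
    rw [← lintegral_finsetSum _ fun i _ => (hf i).abs.ennreal_ofReal.pow_const q]
    refine le_of_eq (lintegral_congr fun ω => ?_)
    have h2 : 0 ≤ ∑ i, |f i ω| ^ q := by positivity
    rw [abs_of_nonneg (by positivity), ENNReal.ofReal_rpow_of_nonneg (by positivity) hq0.le,
      ← Real.rpow_mul h2, one_div_mul_cancel hq0.ne', Real.rpow_one,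
      ENNReal.ofReal_sum_of_nonneg fun i _ => by positivity]
    refine Finset.sum_congr rfl fun i _ => ?_
    rw [ENNReal.ofReal_rpow_of_nonneg (abs_nonneg _) hq0.le]

end Pool.Agent.J4H21.FL
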