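import Mathlib
import Pool.Agent.J4H21.FL.LatFinal

set_option autoImplicit false

/-!
Subspaces of quotients of convex and concave function spaces.
-/

namespace Pool.Agent.J4H21.FL

open MeasureTheory Set Module
open scoped ENNReal Pointwise NNReal
open Pool.Agent.H815R2.Flat

variable {d : ℕ} {Ω : Type*} [MeasurableSpace Ω]

/-- `r`-convexity with the constant `M'` -/
def ConvexNorm (ρ : (Ω → ℝ) → ℝ≥0∞) (r M' : ℝ) : Prop :=
  ∀ (n : ℕ) (f : Fin n → Ω → ℝ), (∀ i, Measurable (f i)) →
    ρ (fun ω => (∑ i, |f i ω| ^ r) ^ (1 / r)) ≤ ENNReal.ofReal M' * (∑ i, ρ (f i) ^ r) ^ (1 / r)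

theorem convex' {ρ : (Ω → ℝ) → ℝ≥0∞} {r M' : ℝ} (h : ConvexNorm ρ r M') {ι : Type*}
    (s : Finset ι) (f : ι → Ω → ℝ) (hf : ∀ i, Measurable (f i)) :
    ρ (fun ω => (∑ i ∈ s, |f i ω| ^ r) ^ (1 / r))
      ≤ ENNReal.ofReal M' * (∑ i ∈ s, ρ (f i) ^ r) ^ (1 / r) := by
  classical
  have h := h s.card (fun k => f (s.equivFin.symm k)) (fun k => hf _)
  have e1 : ∑ k, ρ (f (s.equivFin.symm k)) ^ r = ∑ i ∈ s, ρ (f i) ^ r := by
    rw [← Finset.sum_coe_sort s]
    exact Fintype.sum_equiv s.equivFin.symm _ _ fun k => rfl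
  have e2 : ∀ ω, ∑ k, |f (s.equivFin.symm k) ω| ^ r = ∑ i ∈ s, |f i ω| ^ r := by
    intro ω
    rw [← Finset.sum_coe_sort s]
    exact Fintype.sum_equiv s.equivFin.symm _ _ fun k => rfl
  simp only [e1, e2] at h
  exact h

/-- the linear lifting -/
theorem exists_lift (p : Seminorm ℝ (Eu d)) (hcont : Continuous p)
    (h0 : volume {y : Eu d | p y ≤ 1} ≠ 0) (hcomp : IsCompact {y : Eu d | p y ≤ 1})
    (hiso : Iso p) {ρ : (Ω → ℝ) → ℝ≥0∞} {e M r r' M' : ℝ} (hρ : ConcaveNorm ρ e M)
    (hr : r.HolderConjugate r') (hconv : ConvexNorm ρ r M') (hM' : 1 ≤ M')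
    {Z : Type*} [AddCommGroup Z] [Module ℝ Z] (J : Z →ₗ[ℝ] (Ω → ℝ)) (hJ : ∀ ζ, Measurable (J ζ))
    (T : Z →ₗ[ℝ] Eu d) (h1 : ∀ ζ, ENNReal.ofReal (p (T ζ)) ≤ ρ (J ζ)) (b : ℝ) (hb : 1 ≤ b)
    (h2 : ∀ x, p x ≤ 1 → ∃ ζ, T ζ = x ∧ ρ (J ζ) ≤ ENNReal.ofReal b) :
    ∃ a : Ω → Eu d, Measurable a ∧ (∀ x, ENNReal.ofReal (p x) ≤ nn ρ a x) ∧
      ρ (fun ω => ‖a ω‖) ≤ ENNReal.ofReal (9 * (M' * r' * b)) := by
  classical
  have hr0 : 0 < r := hr.pos
  have hr1 : 1 < r := hr.lt
  have hr'0 : 0 < r' := hr.symm.pos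
  have hr'1 : 1 < r' := hr.symm.lt
  have hfin : volume {y : Eu d | p y ≤ 1} ≠ ⊤ := hcomp.measure_lt_top.ne
  set K : Set (Eu d) := {y : Eu d | p y ≤ 1} with hK
  have hKm : MeasurableSet K := hcomp.measurableSet
  obtain ⟨s, hs⟩ := exists_simple K hcomp 0.009 (by norm_num)
  set μ := volume.restrict K with hμ
  set v : ℝ := (volume K).toReal with hv
  have hv0 : 0 < v := ENNReal.toReal_pos h0 hfin
  have hVv : volume K = ENNReal.ofReal v := (ENNReal.ofReal_toReal hfin).symm
  set m : Eu d → ℝ := fun y => (μ (s ⁻¹' {y})).toReal with hm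
  have hmfin : ∀ y, μ (s ⁻¹' {y}) ≠ ⊤ := fun y =>
    ne_top_of_le_ne_top hfin ((measure_mono (subset_univ _)).trans
      (le_of_eq (Measure.restrict_apply_univ K)))
  have hmo : ∀ y, μ (s ⁻¹' {y}) = ENNReal.ofReal (m y) := fun y =>
    (ENNReal.ofReal_toReal (hmfin y)).symm
  have hm0 : ∀ y, 0 ≤ m y := fun y => ENNReal.toReal_nonneg
  -- integrals of functions of `s z`
  have hint : ∀ f : Eu d → ℝ, (∀ y, 0 ≤ f y) → ∫⁻ z in K, ENNReal.ofReal (f (s z))
      = ENNReal.ofReal (∑ y ∈ s.range, m y * f y) := by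
    intro f hf
    rw [simple_int K s (fun y => ENNReal.ofReal (f y)),
      ENNReal.ofReal_sum_of_nonneg fun y _ => mul_nonneg (hm0 y) (hf y)]
    refine Finset.sum_congr rfl fun y _ => ?_
    rw [← hμ, hmo y, ← ENNReal.ofReal_mul (hf y), mul_comm]
  -- the liftings
  have hlift : ∀ y : Eu d, ∃ ζ : Z, (m y ≠ 0 → T ζ = y) ∧ (m y = 0 → ζ = 0) ∧
      ρ (J ζ) ≤ ENNReal.ofReal (1.009 * b) := by
    intro y
    by_cases hmy : m y = 0
    · refine ⟨0, fun h => absurd hmy h, fun _ => rfl, ?_⟩
      have : J (0 : Z) = fun _ => 0 := by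
        rw [map_zero]
        rfl
      rw [this, hρ.zero]
      exact zero_le
    · have hne : (s ⁻¹' {y} ∩ K).Nonempty := by
        by_contra hcon
        rw [not_nonempty_iff_eq_empty] at hcon
        apply hmy
        show (μ (s ⁻¹' {y})).toReal = 0
        rw [hμ, Measure.restrict_apply (s.measurableSet_preimage {y}), hcon, measure_empty]
        rfl
      obtain ⟨z, hz1, hz2⟩ := hne
      have hzy : s z = y := hz1
      have hpy : p ((1.009 : ℝ)⁻¹ • y) ≤ 1 := by
        rw [map_smul_eq_mul, Real.norm_of_nonneg (by norm_num), inv_mul_le_iff₀ (by norm_num)]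
        have e1 : y = z + (y - z) := by abel
        calc p y = p (z + (y - z)) := by rw [← e1]
          _ ≤ p z + p (y - z) := map_add_le_add p _ _
          _ ≤ 1 + ‖y - z‖ := add_le_add hz2 (iso_upper p hcont h0 hfin hiso _)
          _ ≤ 1 + 0.009 := by
              have := hs z hz2
              rw [hzy] at this
              linarith
          _ = 1.009 * 1 := by norm_num
      obtain ⟨ζ, hζ1, hζ2⟩ := h2 _ hpy
      refine ⟨(1.009 : ℝ) • ζ, fun _ => ?_, fun h => absurd h hmy, ?_⟩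
      · rw [map_smul, hζ1, smul_smul, mul_inv_cancel₀ (by norm_num), one_smul]
      · have e1 : J ((1.009 : ℝ) • ζ) = fun ω => 1.009 * J ζ ω := by
          rw [map_smul]
          rfl
        rw [e1, hρ.smul _ _ (hJ ζ), abs_of_nonneg (by norm_num),
          ENNReal.ofReal_mul (by norm_num)]
        gcongr
  choose ζ hζ1 hζ2 hζ3 using hlift
  -- the second moments
  let A : Eu d →ₗ[ℝ] Eu d :=
    { toFun := fun x => ∑ y ∈ s.range, (m y / v * inner ℝ y x) • y
      map_add' := fun x x' => by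
        rw [← Finset.sum_add_distrib]
        refine Finset.sum_congr rfl fun y _ => ?_
        rw [inner_add_right, mul_add, add_smul]
      map_smul' := fun c x => by
        rw [RingHom.id_apply, Finset.smul_sum]
        refine Finset.sum_congr rfl fun y _ => ?_
        rw [inner_smul_right, smul_smul]
        congr 1
        ring }
  have hA : ∀ x, A x = ∑ y ∈ s.range, (m y / v * inner ℝ y x) • y := fun x => rfl
  have hAlow : ∀ x, 0.95 * ‖x‖ ^ 2 ≤ inner ℝ (A x) x := by
    intro x
    have e1 : inner ℝ (A x) x = (∑ y ∈ s.range, m y * (inner ℝ y x) ^ 2) / v := by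
      rw [hA, sum_inner, Finset.sum_div]
      refine Finset.sum_congr rfl fun y _ => ?_
      rw [real_inner_smul_left]
      ring
    have e2 := hint (fun y => (inner ℝ y x) ^ 2) fun y => sq_nonneg _
    have e3 : ENNReal.ofReal (‖x‖ ^ 2) * volume K
        ≤ ENNReal.ofReal 1.05 * (∫⁻ z in K, ENNReal.ofReal ((inner ℝ (s z) x) ^ 2))
          + ENNReal.ofReal (0.00171 * ‖x‖ ^ 2) * volume K := by
      rw [← hiso x, ← lintegral_const_mul' _ _ ENNReal.ofReal_ne_top, ← setLIntegral_const,
        ← lintegral_add_right _ measurable_const]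
      refine setLIntegral_mono' hKm fun z hz => ?_
      rw [← ENNReal.ofReal_mul (by norm_num), ← ENNReal.ofReal_add (by positivity) (by positivity)]
      apply ENNReal.ofReal_le_ofReal
      have h3 : inner ℝ x z = inner ℝ (s z) x + inner ℝ (z - s z) x := by
        rw [← inner_add_left, real_inner_comm]
        congr 1
        abel
      have h4 : |inner ℝ (z - s z) x| ≤ 0.009 * ‖x‖ := by
        refine (abs_real_inner_le_norm _ _).trans ?_
        rw [norm_sub_rev]
        gcongr
        exact hs z hz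
      rw [h3]
      have h5 : (inner ℝ (z - s z) x) ^ 2 ≤ (0.009 * ‖x‖) ^ 2 := by
        rw [← sq_abs]
        gcongr
      set α := inner ℝ (s z) x with hα
      set β := inner ℝ (z - s z) x with hβ
      have h6 : 0 ≤ (α - 20 * β) ^ 2 := sq_nonneg _
      nlinarith
    rw [e2, hVv, ← ENNReal.ofReal_mul (by positivity), ← ENNReal.ofReal_mul (by norm_num),
      ← ENNReal.ofReal_mul (by positivity)] at e3
    have hS0 : 0 ≤ ∑ y ∈ s.range, m y * (inner ℝ y x) ^ 2 :=
      Finset.sum_nonneg fun y _ => mul_nonneg (hm0 y) (sq_nonneg _)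
    rw [← ENNReal.ofReal_add (by positivity) (by positivity),
      ENNReal.ofReal_le_ofReal_iff (by positivity)] at e3
    rw [e1, le_div_iff₀ hv0]
    have hx2 : 0 ≤ ‖x‖ ^ 2 * v := by positivity
    nlinarith
  have hAnorm : ∀ x, 0.95 * ‖x‖ ≤ ‖A x‖ := by
    intro x
    rcases eq_or_ne x 0 with rfl | hx
    · simp
    have hx0 : 0 < ‖x‖ := norm_pos_iff.2 hx
    have h3 := (hAlow x).trans (real_inner_le_norm _ _)
    have h4 : (0.95 * ‖x‖) * ‖x‖ ≤ ‖A x‖ * ‖x‖ := by
      rw [mul_assoc, ← sq]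
      exact h3
    exact le_of_mul_le_mul_right h4 hx0
  have hinj : Function.Injective A := by
    rw [injective_iff_map_eq_zero]
    intro x hx
    have h3 := hAnorm x
    rw [hx, norm_zero] at h3
    have h4 : ‖x‖ ≤ 0 := by linarith
    exact norm_le_zero_iff.1 h4
  set S : Eu d ≃L[ℝ] Eu d := (LinearEquiv.ofInjectiveEndo A hinj).toContinuousLinearEquiv with hS
  have hSx : ∀ x, S x = A x := fun x => rfl
  set B : Eu d →L[ℝ] Eu d := (S.symm : Eu d →L[ℝ] Eu d) with hB
  have hBnorm : ‖B‖ ≤ 1 / 0.95 := by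
    apply ContinuousLinearMap.opNorm_le_bound _ (by norm_num)
    intro x
    have h3 := hAnorm (S.symm x)
    rw [← hSx, S.apply_symm_apply] at h3
    show ‖S.symm x‖ ≤ _
    rw [div_mul_eq_mul_div, one_mul, le_div_iff₀ (by norm_num)]
    linarith
  set a₀ : Ω → Eu d := fun ω => ∑ y ∈ s.range, (m y / v * J (ζ y) ω) • y with ha₀
  have ha₀m : Measurable a₀ :=
    Finset.measurable_sum _ fun y _ => ((hJ (ζ y)).const_mul _).smul_const y
  set a : Ω → Eu d := fun ω => ContinuousLinearMap.adjoint B (a₀ ω) with ha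
  have ham : Measurable a := (ContinuousLinearMap.adjoint B).measurable.comp ha₀m
  have hanorm : ∀ ω, ‖a ω‖ ≤ (1 / 0.95) * ‖a₀ ω‖ := by
    intro ω
    refine ((ContinuousLinearMap.adjoint B).le_opNorm (a₀ ω)).trans ?_
    rw [LinearIsometryEquiv.norm_map]
    gcongr
  refine ⟨a, ham, fun x => ?_, ?_⟩
  · -- the lifting of `x`
    set W : Z := ∑ y ∈ s.range, (m y / v * inner ℝ y (B x)) • ζ y with hW
    have hTW : T W = x := by
      rw [hW, map_sum]
      have h3 : ∀ y ∈ s.range, T ((m y / v * inner ℝ y (B x)) • ζ y)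
          = (m y / v * inner ℝ y (B x)) • y := by
        intro y _
        rw [map_smul]
        by_cases hmy : m y = 0
        · rw [hmy]; simp
        · rw [hζ1 y hmy]
      rw [Finset.sum_congr rfl h3, ← hA, ← hSx]
      exact S.apply_symm_apply x
    have hJW : J W = fun ω => inner ℝ (a ω) x := by
      funext ω
      have h3 : inner ℝ (a ω) x = inner ℝ (a₀ ω) (B x) := by
        rw [ha]
        exact ContinuousLinearMap.adjoint_inner_left _ _ _
      rw [h3, hW, map_sum, Finset.sum_apply, ha₀, sum_inner]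
      refine Finset.sum_congr rfl fun y _ => ?_
      rw [map_smul, Pi.smul_apply, smul_eq_mul, real_inner_smul_left]
      ring
    have h3 := h1 W
    rw [hTW, hJW] at h3
    exact h3
  · -- the norm
    have hpt : ∀ ω, ‖a₀ ω‖ ≤ 6.6 * r' * (∑ y ∈ s.range, (m y / v) * |J (ζ y) ω| ^ r) ^ (1 / r) := by
      intro ω
      have hS0 : 0 ≤ ∑ y ∈ s.range, (m y / v) * |J (ζ y) ω| ^ r :=
        Finset.sum_nonneg fun y _ => mul_nonneg (div_nonneg (hm0 y) hv0.le) (by positivity)
      rcases eq_or_ne (a₀ ω) 0 with h | h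
      · rw [h, norm_zero]
        positivity
      have hn : 0 < ‖a₀ ω‖ := norm_pos_iff.2 h
      have e1 : ‖a₀ ω‖ ^ 2 = ∑ y ∈ s.range, ((m y / v) ^ (1 / r) * |J (ζ y) ω|)
          * ((m y / v) ^ (1 / r') * (Real.sign (J (ζ y) ω) * inner ℝ y (a₀ ω))) := by
        rw [← real_inner_self_eq_norm_sq]
        conv_lhs => rw [show inner ℝ (a₀ ω) (a₀ ω)
          = inner ℝ (∑ y ∈ s.range, (m y / v * J (ζ y) ω) • y) (a₀ ω) from rfl]
        rw [sum_inner]
        refine Finset.sum_congr rfl fun y _ => ?_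
        rw [real_inner_smul_left]
        have e2 : (m y / v) ^ (1 / r) * (m y / v) ^ (1 / r') = m y / v := by
          rcases (div_nonneg (hm0 y) hv0.le).eq_or_lt with h3 | h3
          · rw [← h3, Real.zero_rpow (by positivity)]
            ring
          · rw [← Real.rpow_add h3, hr.one_div_add_one_div, one_div_one, Real.rpow_one]
        have e3 : |J (ζ y) ω| * Real.sign (J (ζ y) ω) = J (ζ y) ω := by
          rw [mul_comm]
          rcases lt_trichotomy (J (ζ y) ω) 0 with h | h | h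
          · rw [Real.sign_of_neg h, abs_of_neg h]; ring
          · rw [h]; simp
          · rw [Real.sign_of_pos h, abs_of_pos h]; ring
        calc m y / v * J (ζ y) ω * inner ℝ y (a₀ ω)
            = ((m y / v) ^ (1 / r) * (m y / v) ^ (1 / r'))
              * (|J (ζ y) ω| * Real.sign (J (ζ y) ω)) * inner ℝ y (a₀ ω) := by rw [e2, e3]
          _ = _ := by ring
      have e4 := Real.inner_le_Lp_mul_Lq s.range
        (fun y => (m y / v) ^ (1 / r) * |J (ζ y) ω|)
        (fun y => (m y / v) ^ (1 / r') * (Real.sign (J (ζ y) ω) * inner ℝ y (a₀ ω))) hr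
      rw [← e1] at e4
      have e5 : ∑ y ∈ s.range, |(m y / v) ^ (1 / r) * (|J (ζ y) ω|)| ^ r
          = ∑ y ∈ s.range, (m y / v) * |J (ζ y) ω| ^ r := by
        refine Finset.sum_congr rfl fun y _ => ?_
        have h3 := div_nonneg (hm0 y) hv0.le
        rw [abs_of_nonneg (by positivity), Real.mul_rpow (by positivity) (abs_nonneg _),
          ← Real.rpow_mul h3, one_div_mul_cancel hr0.ne', Real.rpow_one]
      have e6 : ∑ y ∈ s.range,
          |(m y / v) ^ (1 / r') * (Real.sign (J (ζ y) ω) * inner ℝ y (a₀ ω))| ^ r'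
          ≤ 3 * (2.2 * r' * ‖a₀ ω‖) ^ r' := by
        have h3 : ∑ y ∈ s.range,
            |(m y / v) ^ (1 / r') * (Real.sign (J (ζ y) ω) * inner ℝ y (a₀ ω))| ^ r'
            ≤ ∑ y ∈ s.range, (m y / v) * |inner ℝ y (a₀ ω)| ^ r' := by
          refine Finset.sum_le_sum fun y _ => ?_
          have h3 := div_nonneg (hm0 y) hv0.le
          rw [abs_mul, abs_mul, abs_of_nonneg (by positivity : 0 ≤ (m y / v) ^ (1 / r')),
            Real.mul_rpow (by positivity) (by positivity),
            ← Real.rpow_mul h3, one_div_mul_cancel hr'0.ne', Real.rpow_one]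
          gcongr
          have h4 : |Real.sign (J (ζ y) ω)| ≤ 1 := by
            rcases Real.sign_apply_eq (J (ζ y) ω) with h | h | h <;> rw [h] <;> norm_num
          calc |Real.sign (J (ζ y) ω)| * |inner ℝ y (a₀ ω)| ≤ 1 * |inner ℝ y (a₀ ω)| := by gcongr
            _ = _ := one_mul _
        refine h3.trans ?_
        have h4 := hint (fun y => |inner ℝ y (a₀ ω)| ^ r') fun y => by positivity
        have h5 : ∫⁻ z in K, ENNReal.ofReal (|inner ℝ (s z) (a₀ ω)| ^ r')
            ≤ ∫⁻ z in K, ENNReal.ofReal ((|inner ℝ (a₀ ω) z| + 0.018 * ‖a₀ ω‖) ^ r') := by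
          refine setLIntegral_mono' hKm fun z hz => ENNReal.ofReal_le_ofReal ?_
          apply Real.rpow_le_rpow (abs_nonneg _) _ hr'0.le
          have h6 : inner ℝ (s z) (a₀ ω) = inner ℝ (a₀ ω) z + inner ℝ (s z - z) (a₀ ω) := by
            rw [real_inner_comm z (a₀ ω), ← inner_add_left]
            congr 1
            abel
          rw [h6]
          refine (abs_add_le _ _).trans ?_
          gcongr
          refine (abs_real_inner_le_norm _ _).trans ?_
          gcongr
          exact (hs z hz).trans (by norm_num)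
        have h7 := h5.trans (moment_shift p hcont hfin hiso (a₀ ω) ‖a₀ ω‖ r' hn le_rfl hr'1.le)
        rw [h4, ← hK, hVv, ← ENNReal.ofReal_mul (by positivity),
          ENNReal.ofReal_le_ofReal_iff (by positivity)] at h7
        have h8 : ∑ y ∈ s.range, (m y / v) * |inner ℝ y (a₀ ω)| ^ r'
            = (∑ y ∈ s.range, m y * |inner ℝ y (a₀ ω)| ^ r') / v := by
          rw [Finset.sum_div]
          exact Finset.sum_congr rfl fun y _ => by ring
        rw [h8, div_le_iff₀ hv0]
        exact h7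
      rw [e5] at e4
      have e7 : (∑ y ∈ s.range,
          |(m y / v) ^ (1 / r') * (Real.sign (J (ζ y) ω) * inner ℝ y (a₀ ω))| ^ r') ^ (1 / r')
          ≤ 6.6 * r' * ‖a₀ ω‖ := by
        calc _ ≤ (3 * (2.2 * r' * ‖a₀ ω‖) ^ r') ^ (1 / r') :=
              Real.rpow_le_rpow (by positivity) e6 (by positivity)
          _ = 3 ^ (1 / r') * (2.2 * r' * ‖a₀ ω‖) := by
              rw [Real.mul_rpow (by norm_num) (by positivity), ← Real.rpow_mul (by positivity),
                mul_one_div_cancel hr'0.ne', Real.rpow_one]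
          _ ≤ 3 ^ (1 : ℝ) * (2.2 * r' * ‖a₀ ω‖) := by
              gcongr
              · norm_num
              · rw [div_le_one hr'0]
                exact hr'1.le
          _ = _ := by
              rw [Real.rpow_one]
              ring
      have e8 : ‖a₀ ω‖ * ‖a₀ ω‖ ≤ (6.6 * r' *
          (∑ y ∈ s.range, (m y / v) * |J (ζ y) ω| ^ r) ^ (1 / r)) * ‖a₀ ω‖ := by
        rw [← sq]
        refine e4.trans ?_
        calc _ ≤ (∑ y ∈ s.range, (m y / v) * |J (ζ y) ω| ^ r) ^ (1 / r)
              * (6.6 * r' * ‖a₀ ω‖) := by gcongr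
          _ = _ := by ring
      exact le_of_mul_le_mul_right e8 hn
    have hSm : Measurable fun ω =>
        (∑ y ∈ s.range, |(m y / v) ^ (1 / r) * J (ζ y) ω| ^ r) ^ (1 / r) :=
      (Finset.measurable_sum _ fun y _ =>
        (((hJ (ζ y)).const_mul _).abs.pow_const r)).pow_const _
    have e1 : ∀ ω, ∑ y ∈ s.range, |(m y / v) ^ (1 / r) * J (ζ y) ω| ^ r
        = ∑ y ∈ s.range, (m y / v) * |J (ζ y) ω| ^ r := by
      intro ω
      refine Finset.sum_congr rfl fun y _ => ?_
      have h3 := div_nonneg (hm0 y) hv0.le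
      rw [abs_mul, abs_of_nonneg (by positivity : 0 ≤ (m y / v) ^ (1 / r)),
        Real.mul_rpow (by positivity) (abs_nonneg _),
        ← Real.rpow_mul h3, one_div_mul_cancel hr0.ne', Real.rpow_one]
    have hwsum : ∑ y ∈ s.range, ENNReal.ofReal (m y / v) = 1 := by
      have h3 := hint (fun _ => 1) fun _ => zero_le_one
      simp only [mul_one, ENNReal.ofReal_one] at h3
      rw [setLIntegral_one, hVv] at h3
      have h4 : ∑ y ∈ s.range, m y = v := by
        have h5 := congrArg ENNReal.toReal h3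
        rw [ENNReal.toReal_ofReal hv0.le,
          ENNReal.toReal_ofReal (Finset.sum_nonneg fun y _ => hm0 y)] at h5
        exact h5.symm
      rw [← ENNReal.ofReal_sum_of_nonneg fun y _ => div_nonneg (hm0 y) hv0.le, ← Finset.sum_div,
        h4, div_self hv0.ne', ENNReal.ofReal_one]
    have e2 : (∑ y ∈ s.range, ρ (fun ω => (m y / v) ^ (1 / r) * J (ζ y) ω) ^ r) ^ (1 / r)
        ≤ ENNReal.ofReal (1.009 * b) := by
      have h3 : ∑ y ∈ s.range, ρ (fun ω => (m y / v) ^ (1 / r) * J (ζ y) ω) ^ r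
          ≤ ENNReal.ofReal (1.009 * b) ^ r := by
        calc ∑ y ∈ s.range, ρ (fun ω => (m y / v) ^ (1 / r) * J (ζ y) ω) ^ r
            ≤ ∑ y ∈ s.range, ENNReal.ofReal (m y / v) * ENNReal.ofReal (1.009 * b) ^ r := by
              refine Finset.sum_le_sum fun y _ => ?_
              have h4 := div_nonneg (hm0 y) hv0.le
              rw [hρ.smul _ _ (hJ (ζ y)), abs_of_nonneg (by positivity),
                ENNReal.mul_rpow_of_nonneg _ _ hr0.le, ENNReal.ofReal_rpow_of_nonneg
                (by positivity) hr0.le, ← Real.rpow_mul h4, one_div_mul_cancel hr0.ne',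
                Real.rpow_one]
              gcongr
              exact hζ3 y
          _ = _ := by rw [← Finset.sum_mul, hwsum, one_mul]
      calc _ ≤ (ENNReal.ofReal (1.009 * b) ^ r) ^ (1 / r) :=
            ENNReal.rpow_le_rpow h3 (by positivity)
        _ = _ := by rw [← ENNReal.rpow_mul, mul_one_div_cancel hr0.ne', ENNReal.rpow_one]
    calc ρ (fun ω => ‖a ω‖)
        ≤ ρ (fun ω => (1 / 0.95 * (6.6 * r')) *
            (∑ y ∈ s.range, |(m y / v) ^ (1 / r) * J (ζ y) ω| ^ r) ^ (1 / r)) := by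
          refine hρ.mono _ _ ham.norm (hSm.const_mul _) fun ω => ?_
          refine abs_le_abs_of_nonneg (norm_nonneg _) ?_
          rw [e1]
          refine (hanorm ω).trans ?_
          rw [mul_assoc]
          gcongr
          exact hpt ω
      _ = ENNReal.ofReal (1 / 0.95 * (6.6 * r')) *
            ρ (fun ω => (∑ y ∈ s.range, |(m y / v) ^ (1 / r) * J (ζ y) ω| ^ r) ^ (1 / r)) := by
          rw [hρ.smul _ _ hSm, abs_of_nonneg (by positivity)]
      _ ≤ ENNReal.ofReal (1 / 0.95 * (6.6 * r')) *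
            (ENNReal.ofReal M' * ENNReal.ofReal (1.009 * b)) := by
          gcongr
          exact (convex' hconv s.range (fun y ω => (m y / v) ^ (1 / r) * J (ζ y) ω)
            fun y => (hJ (ζ y)).const_mul _).trans (by gcongr)
      _ ≤ _ := by
          rw [← ENNReal.ofReal_mul (by positivity), ← ENNReal.ofReal_mul (by positivity)]
          apply ENNReal.ofReal_le_ofReal
          have h3 : 0 ≤ M' * r' * b := by positivity
          calc 1 / 0.95 * (6.6 * r') * (M' * (1.009 * b))
              = (6.6 * 1.009 / 0.95) * (M' * r' * b) := by ring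
            _ ≤ 9 * (M' * r' * b) := mul_le_mul_of_nonneg_right (by norm_num) h3

end Pool.Agent.J4H21.FL
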