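import Mathlib
import Pool.Agent.J4H21.FL.Quot

set_option autoImplicit false

/-!
The covering theorem for subspaces of quotients of convex and concave function spaces, in general
position.
-/

namespace Pool.Agent.J4H21.FL

open MeasureTheory Set Module
open scoped ENNReal Pointwise NNReal
open Pool.Agent.H815R2.Flat

variable {d : ℕ} {Ω : Type*} [MeasurableSpace Ω]

/-- the covering theorem for subspaces of quotients -/
theorem quot_gen (hd : 2 ≤ d) (p : Seminorm ℝ (Eu d)) (hcont : Continuous p)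
    (h0 : volume {y : Eu d | p y ≤ 1} ≠ 0) (hcomp : IsCompact {y : Eu d | p y ≤ 1})
    {ρ : (Ω → ℝ) → ℝ≥0∞} {e M r r' M' : ℝ} (hρ : ConcaveNorm ρ e M) (he : 1 ≤ e) (hM : 1 ≤ M)
    (hr : r.HolderConjugate r') (hconv : ConvexNorm ρ r M') (hM' : 1 ≤ M')
    {Z : Type*} [AddCommGroup Z] [Module ℝ Z] (J : Z →ₗ[ℝ] (Ω → ℝ)) (hJ : ∀ ζ, Measurable (J ζ))
    (T : Z →ₗ[ℝ] Eu d) (h1 : ∀ ζ, ENNReal.ofReal (p (T ζ)) ≤ ρ (J ζ)) (b : ℝ) (hb : 1 ≤ b)
    (h2 : ∀ x, p x ≤ 1 → ∃ ζ, T ζ = x ∧ ρ (J ζ) ≤ ENNReal.ofReal b)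
    (lam : ℝ) (hlam : 1 ≤ lam)
    (hcond : (10 ^ 11 * e * M ^ 2 * (M' * r' * b) ^ 2 * lam ^ 2 * Real.log (d + 1) ^ 2)
      ^ (max e 2) ≤ d) :
    Good p lam := by
  obtain ⟨S, hiso⟩ := exists_iso p hcont h0 hcomp
  obtain ⟨c, hc0, hct, hc⟩ := change p hcont S
  have hvol := change_vol p S c hc
  apply good_tr p S lam
  have hcomp' : IsCompact {y : Eu d | tr p S y ≤ 1} := by
    have h1 := hcomp.image S.continuous
    convert h1 using 1
    ext y
    constructor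
    · intro hy
      exact ⟨S.symm y, hy, S.apply_symm_apply y⟩
    · rintro ⟨x, hx, rfl⟩
      show tr p S (S x) ≤ 1
      rw [tr_apply, ContinuousLinearEquiv.symm_apply_apply]
      exact hx
  have h0' : volume {y : Eu d | tr p S y ≤ 1} ≠ 0 := by
    intro h
    rw [h, mul_zero] at hvol
    exact h0 hvol
  have hr'1 : 1 < r' := hr.symm.lt
  have hb' : 1 ≤ M' * r' * b := by
    calc (1 : ℝ) = 1 * 1 * 1 := by norm_num
      _ ≤ M' * r' * b := by gcongr
  obtain ⟨a, ha, hup, hR⟩ := exists_lift (tr p S) (hcont.comp S.symm.continuous) h0' hcomp' hiso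
    hρ hr hconv hM' J hJ ((S : Eu d →ₗ[ℝ] Eu d).comp T) (fun ζ => by
      rw [tr_apply]
      show ENNReal.ofReal (p (S.symm (S (T ζ)))) ≤ _
      rw [ContinuousLinearEquiv.symm_apply_apply]
      exact h1 ζ) b hb (fun x hx => by
      obtain ⟨ζ, hζ1, hζ2⟩ := h2 (S.symm x) hx
      refine ⟨ζ, ?_, hζ2⟩
      show S (T ζ) = x
      rw [hζ1, ContinuousLinearEquiv.apply_symm_apply])
  exact lat_iso_R hρ he hM a ha hd (tr p S) (hcont.comp S.symm.continuous) h0' hcomp' hiso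
    (M' * r' * b) hb' hup hR lam hlam hcond

/-- `L_q` is `q`-convex -/
theorem lq_convex (ν : Measure Ω) (q : ℝ) (hq : 1 ≤ q) : ConvexNorm (lq ν q) q 1 := by
  have hq0 : 0 < q := by linarith
  intro n f hf
  unfold lq
  have h1 : ∀ g : Ω → ℝ, ((∫⁻ ω, ENNReal.ofReal |g ω| ^ q ∂ν) ^ (1 / q)) ^ q
      = ∫⁻ ω, ENNReal.ofReal |g ω| ^ q ∂ν := by
    intro g
    rw [← ENNReal.rpow_mul, one_div_mul_cancel hq0.ne', ENNReal.rpow_one]
  rw [ENNReal.ofReal_one, one_mul]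
  simp only [h1]
  rw [← lintegral_finsetSum _ fun i _ => (hf i).abs.ennreal_ofReal.pow_const q]
  refine ENNReal.rpow_le_rpow (le_of_eq (lintegral_congr fun ω => ?_)) (by positivity)
  have h2 : 0 ≤ ∑ i, |f i ω| ^ q := by positivity
  rw [abs_of_nonneg (by positivity), ENNReal.ofReal_rpow_of_nonneg (by positivity) hq0.le,
    ← Real.rpow_mul h2, one_div_mul_cancel hq0.ne', Real.rpow_one,
    ENNReal.ofReal_sum_of_nonneg fun i _ => by positivity]
  refine Finset.sum_congr rfl fun i _ => ?_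
  rw [ENNReal.ofReal_rpow_of_nonneg (abs_nonneg _) hq0.le]

end Pool.Agent.J4H21.FL
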