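import Mathlib
import Pool.Agent.J4H21.FL.QuotFinal

set_option autoImplicit false

/-!
From convex bodies to seminorms.
-/

namespace Pool.Agent.J4H21.FL

open MeasureTheory Set Module
open scoped ENNReal Pointwise NNReal

variable {d : ℕ}

theorem balanced_of_symm {E : Type*} [AddCommGroup E] [Module ℝ E] {K : Set E}
    (hK : Convex ℝ K) (hs : ∀ x ∈ K, -x ∈ K) : Balanced ℝ K := by
  rw [balanced_iff_smul_mem]
  intro a ha x hx
  have ha' := abs_le.mp (by simpa using ha : |a| ≤ 1)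
  have h := hK hx (hs x hx) (show (0 : ℝ) ≤ (1 + a) / 2 by linarith [ha'.1])
    (show (0 : ℝ) ≤ (1 - a) / 2 by linarith [ha'.2]) (by ring)
  have e : ((1 + a) / 2) • x + ((1 - a) / 2) • (-x) = a • x := by
    rw [smul_neg, ← sub_eq_add_neg, ← sub_smul]
    congr 1
    ring
  rwa [e] at h

/-- the norm of a symmetric convex body -/
theorem exists_seminorm {K : Set (Eu d)} (hK : Convex ℝ K) (hKc : IsCompact K)
    (hKi : (interior K).Nonempty) (hKs : ∀ x ∈ K, -x ∈ K) :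
    ∃ p : Seminorm ℝ (Eu d), Continuous p ∧ {y : Eu d | p y ≤ 1} = K ∧
      (∀ x, p x = gauge K x) ∧ volume K ≠ 0 ∧ ∀ x, p x < 1 ↔ x ∈ interior K := by
  obtain ⟨z, hz⟩ := hKi
  have hnegK : -K = K := by
    ext x
    rw [Set.mem_neg]
    exact ⟨fun h => by simpa using hKs _ h, fun h => hKs x h⟩
  have hz' : -z ∈ interior K := by
    have h1 : -z ∈ -(interior K) := by simpa using hz
    have h2 : -(interior K) = interior (-K) := by
      rw [← Set.image_neg_eq_neg, ← Set.image_neg_eq_neg]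
      exact (Homeomorph.neg _).image_interior K
    rw [h2, hnegK] at h1
    exact h1
  have h0i : (0 : Eu d) ∈ interior K := by
    have h := hK.interior hz hz' (show (0 : ℝ) ≤ 1 / 2 by norm_num)
      (show (0 : ℝ) ≤ 1 / 2 by norm_num) (by norm_num)
    have e : (1 / 2 : ℝ) • z + (1 / 2 : ℝ) • (-z) = 0 := by
      rw [smul_neg, add_neg_cancel]
    rwa [e] at h
  have hnhds : K ∈ nhds (0 : Eu d) := mem_interior_iff_mem_nhds.mp h0i
  have habs : Absorbent ℝ K := absorbent_nhds_zero hnhds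
  refine ⟨gaugeSeminorm (balanced_of_symm hK hKs) hK habs, continuous_gauge hK hnhds, ?_,
    fun _ => rfl, (Measure.measure_pos_of_mem_nhds volume hnhds).ne', fun x => ?_⟩
  · ext y
    show gauge K y ≤ 1 ↔ _
    rw [gauge_le_one_iff_mem_closure hK hnhds, hKc.isClosed.closure_eq]
  · exact gauge_lt_one_iff_mem_interior hK hnhds

/-- from the norm to the body -/
theorem good_cover {K : Set (Eu d)} (p : Seminorm ℝ (Eu d)) (hball : {y : Eu d | p y ≤ 1} = K)
    (hint : ∀ x, p x < 1 ↔ x ∈ interior K) (lam : ℝ) (h : Good p lam) :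
    ∃ T : Finset (Eu d), K ⊆ ⋃ t ∈ T, (fun x => t + x) '' interior K ∧
      (T.card : ℝ) ≤ 1 + 12 * d * Real.log (4 * d + 1) * 2 ^ d * Real.exp (-lam) := by
  obtain ⟨T, h1, h2⟩ := h
  refine ⟨T, fun x hx => ?_, h1⟩
  rw [← hball] at hx
  obtain ⟨y, hy, hxy⟩ := h2 x hx
  simp only [Set.mem_iUnion]
  exact ⟨y, hy, x - y, (hint _).1 hxy, by simp⟩

theorem strict_of_bound (hd : 2 ≤ d) (n : ℕ) (x : ℝ)
    (h : (n : ℝ) ≤ 1 + 12 * d * Real.log (4 * d + 1) * 2 ^ d * x)
    (hx : 17 * d * Real.log (4 * d + 1) * x ≤ 1) : n < 2 ^ d := by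
  have h2 : (4 : ℝ) ≤ 2 ^ d := by
    calc (4 : ℝ) = 2 ^ 2 := by norm_num
      _ ≤ 2 ^ d := pow_le_pow_right₀ (by norm_num) hd
  have h3 : (n : ℝ) < ((2 ^ d : ℕ) : ℝ) := by
    push_cast
    calc (n : ℝ) ≤ 1 + 12 * d * Real.log (4 * d + 1) * 2 ^ d * x := h
      _ = 1 + 12 / 17 * 2 ^ d * (17 * d * Real.log (4 * d + 1) * x) := by ring
      _ ≤ 1 + 12 / 17 * 2 ^ d * 1 := by gcongr
      _ < 2 ^ d := by linarith
  exact_mod_cast h3

/-- the saving for `λ = 3 log (d+1)` -/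
theorem saving (hd : 67 ≤ d) :
    17 * d * Real.log (4 * d + 1) * Real.exp (-(3 * Real.log (d + 1))) ≤ 1 := by
  have hd' : (67 : ℝ) ≤ d := by exact_mod_cast hd
  have h1 : Real.exp (-(3 * Real.log ((d : ℝ) + 1))) = 1 / ((d : ℝ) + 1) ^ 3 := by
    rw [Real.exp_neg, one_div]
    congr 1
    rw [show (3 : ℝ) * Real.log ((d : ℝ) + 1) = Real.log (((d : ℝ) + 1) ^ 3) by
      rw [Real.log_pow]; norm_num, Real.exp_log (by positivity)]
  have h2 : Real.log (4 * d + 1) ≤ 4 * d := by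
    have := Real.log_le_sub_one_of_pos (show (0 : ℝ) < 4 * d + 1 by positivity)
    linarith
  rw [h1, mul_one_div, div_le_one (by positivity)]
  calc 17 * (d : ℝ) * Real.log (4 * d + 1) ≤ 17 * d * (4 * d) := by gcongr
    _ = 68 * (d : ℝ) ^ 2 := by ring
    _ ≤ (d + 1) * (d + 1) ^ 2 := by
        apply mul_le_mul (by linarith) (by gcongr; linarith) (by positivity) (by positivity)
    _ = _ := by ring

end Pool.Agent.J4H21.FL
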